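import Mathlib

/-!
# The quartic inequality behind the Rayleigh property of rank-three matroids
-/

open Finset

namespace Pool.Agent.Lib.MP_16c009_co

variable {ι κ : Type*} [Fintype ι] [Fintype κ] [DecidableEq ι] [DecidableEq κ]

/-- inclusion and exclusion for triples of pairwise distinct indices -/
lemma distinct_nonneg (U : κ → κ → κ → ℝ) (hU : ∀ j l n, 0 ≤ U j l n) :
    0 ≤ (∑ j, ∑ l, ∑ n, U j l n) - (∑ j, ∑ n, U j j n) - (∑ j, ∑ l, U j l j) -
      (∑ j, ∑ l, U j l l) + 2 * ∑ j, U j j j := by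
  have h : (∑ j, ∑ l, ∑ n, U j l n) - (∑ j, ∑ n, U j j n) - (∑ j, ∑ l, U j l j) -
      (∑ j, ∑ l, U j l l) + 2 * ∑ j, U j j j =
      ∑ j, ∑ l, ∑ n, (U j l n - (if j = l then U j l n else 0) - (if j = n then U j l n else 0) -
        (if l = n then U j l n else 0) + 2 * (if j = l then (if l = n then U j l n else 0) else 0)) := by
    simp only [Finset.sum_add_distrib, Finset.sum_sub_distrib, Finset.sum_ite_eq, Finset.mem_univ,
      if_true, ← Finset.mul_sum]
    have e1 : ∑ j : κ, ∑ l : κ, ∑ n : κ, (if j = l then U j l n else 0) = ∑ j, ∑ n, U j j n := by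
      apply Finset.sum_congr rfl; intro j _
      rw [Finset.sum_comm]
      apply Finset.sum_congr rfl; intro n _
      rw [Finset.sum_ite_eq]; simp
    have e2 : ∑ j : κ, ∑ l : κ, (if j = l then U j l l else 0) = ∑ j, U j j j := by
      apply Finset.sum_congr rfl; intro j _
      rw [Finset.sum_ite_eq]; simp
    have e3 : ∑ j : κ, ∑ l : κ, ∑ n : κ, (if j = l then (if l = n then U j l n else 0) else 0) =
        ∑ j, U j j j := by
      rw [← e2]
      apply Finset.sum_congr rfl; intro j _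
      apply Finset.sum_congr rfl; intro l _
      by_cases hjl : j = l
      · simp [hjl]
      · simp [hjl]
    rw [e1, e3]
  rw [h]
  apply Finset.sum_nonneg; intro j _
  apply Finset.sum_nonneg; intro l _
  apply Finset.sum_nonneg; intro n _
  have := hU j l n
  by_cases h1 : j = l
  · subst h1
    by_cases h2 : j = n
    · subst h2; simp only [if_true]; linarith
    · simp [h2]
  · by_cases h2 : j = n
    · subst h2
      have h3 : ¬ l = j := fun h => h1 h.symm
      rw [if_neg h1, if_neg h1, if_neg h3, if_pos rfl]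
      linarith
    · by_cases h3 : l = n
      · simp [h2, h3]
      · simp [h1, h2, h3]; exact this

lemma gram2 (f g : ι → κ → ℝ) :
    ∑ j, ∑ l, ∑ i, f i j * g i l = ∑ i, (∑ j, f i j) * (∑ l, g i l) := by
  have h1 : ∀ j, ∑ l, ∑ i, f i j * g i l = ∑ i, ∑ l, f i j * g i l := fun j => Finset.sum_comm
  simp only [h1]
  rw [Finset.sum_comm]
  apply Finset.sum_congr rfl; intro i _
  rw [Finset.sum_mul_sum]

lemma gram3 (f g h : ι → κ → ℝ) :
    ∑ j, ∑ l, ∑ n, ∑ i, f i j * g i l * h i n =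
      ∑ i, (∑ j, f i j) * (∑ l, g i l) * (∑ n, h i n) := by
  have h1 : ∀ j l, ∑ n, ∑ i, f i j * g i l * h i n = ∑ i, (f i j * g i l) * (∑ n, h i n) := by
    intro j l
    rw [Finset.sum_comm]
    apply Finset.sum_congr rfl; intro i _
    rw [Finset.mul_sum]
  simp only [h1]
  have h2 : ∀ j l, ∑ i, (f i j * g i l) * (∑ n, h i n) = ∑ i, f i j * (g i l * ∑ n, h i n) := by
    intro j l; apply Finset.sum_congr rfl; intro i _; ring
  simp only [h2]
  rw [gram2]
  apply Finset.sum_congr rfl; intro i _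
  rw [← Finset.sum_mul]; ring

/-- The quartic inequality. -/
theorem quartic (z : ι → κ → ℝ) (hz : ∀ i j, 0 ≤ z i j) :
    0 ≤ (∑ i, ∑ j, z i j) ^ 4 - 3 * (∑ i, ∑ j, z i j) ^ 2 * (∑ i, (∑ j, z i j) ^ 2) -
      3 * (∑ i, ∑ j, z i j) ^ 2 * (∑ j, (∑ i, z i j) ^ 2) +
      3 * (∑ i, (∑ j, z i j) ^ 2) * (∑ j, (∑ i, z i j) ^ 2) +
      6 * (∑ i, ∑ j, z i j) ^ 2 * (∑ i, ∑ j, z i j ^ 2) +
      4 * (∑ i, ∑ j, z i j) * (∑ i, ∑ j, z i j ^ 3) +
      2 * (∑ i, ∑ j, z i j) * (∑ i, (∑ j, z i j) ^ 3) +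
      2 * (∑ i, ∑ j, z i j) * (∑ j, (∑ i, z i j) ^ 3) -
      6 * (∑ i, ∑ j, z i j) * (∑ i, (∑ j, z i j) * (∑ j, z i j ^ 2)) -
      6 * (∑ i, ∑ j, z i j) * (∑ j, (∑ i, z i j) * (∑ i, z i j ^ 2)) := by
  set Z := ∑ i, ∑ j, z i j with hZ
  set r : ι → ℝ := fun i => ∑ j, z i j with hr
  set c : κ → ℝ := fun j => ∑ i, z i j with hc
  have hZ0 : 0 ≤ Z := Finset.sum_nonneg fun i _ => Finset.sum_nonneg fun j _ => hz i j
  have hZc : ∑ j, c j = Z := by rw [hZ, Finset.sum_comm]
  have hZr : ∑ i, r i = Z := rfl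
  -- the square part
  have hsq : 0 ≤ ∑ i, ∑ j, (Z * z i j - r i * c j) ^ 2 :=
    Finset.sum_nonneg fun i _ => Finset.sum_nonneg fun j _ => sq_nonneg _
  have hsq' : ∑ i, ∑ j, (Z * z i j - r i * c j) ^ 2 = Z ^ 2 * (∑ i, ∑ j, z i j ^ 2) -
      2 * Z * (∑ i, ∑ j, z i j * r i * c j) + (∑ i, r i ^ 2) * (∑ j, c j ^ 2) := by
    have : ∀ i j, (Z * z i j - r i * c j) ^ 2 = Z ^ 2 * z i j ^ 2 - 2 * Z * (z i j * r i * c j) +
        r i ^ 2 * c j ^ 2 := by intro i j; ring
    simp only [this, Finset.sum_add_distrib, Finset.sum_sub_distrib, ← Finset.mul_sum]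
    rw [← Finset.sum_mul]
  -- the matching part
  set U : κ → κ → κ → ℝ := fun j l n => c j * c l * c n - (∑ i, z i j * z i l) * c n -
    (∑ i, z i j * z i n) * c l - (∑ i, z i l * z i n) * c j + 2 * ∑ i, z i j * z i l * z i n with hU
  have hU0 : ∀ j l n, 0 ≤ U j l n := by
    intro j l n
    have h := distinct_nonneg (fun i k m => z i j * z k l * z m n)
      (fun i k m => mul_nonneg (mul_nonneg (hz _ _) (hz _ _)) (hz _ _))
    refine h.trans (le_of_eq ?_)
    rw [hU]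
    simp only [hc]
    have e1 : ∑ i, ∑ k, ∑ m, z i j * z k l * z m n = (∑ i, z i j) * (∑ i, z i l) * (∑ i, z i n) := by
      rw [Finset.sum_mul_sum, Finset.sum_mul]
      apply Finset.sum_congr rfl; intro i _
      rw [Finset.sum_mul]
      apply Finset.sum_congr rfl; intro k _
      rw [Finset.mul_sum]
    have e2 : ∑ i, ∑ m, z i j * z i l * z m n = (∑ i, z i j * z i l) * (∑ i, z i n) := by
      rw [Finset.sum_mul_sum]
    have e3 : ∑ i, ∑ k, z i j * z k l * z i n = (∑ i, z i j * z i n) * (∑ i, z i l) := by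
      rw [Finset.sum_mul_sum]
      apply Finset.sum_congr rfl; intro i _
      apply Finset.sum_congr rfl; intro k _
      ring
    have e4 : ∑ i, ∑ k, z i j * z k l * z k n = (∑ i, z i l * z i n) * (∑ i, z i j) := by
      rw [Finset.sum_comm, Finset.sum_mul_sum]
      apply Finset.sum_congr rfl; intro i _
      apply Finset.sum_congr rfl; intro k _
      ring
    rw [e1, e2, e3, e4]
  have hN := distinct_nonneg U hU0
  have sw : ∀ f : ι → κ → ℝ, ∑ j, ∑ i, f i j = ∑ i, ∑ j, f i j := fun f => Finset.sum_comm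
  have g1 : ∑ j, ∑ l, ∑ n, U j l n = Z ^ 3 - 3 * Z * (∑ i, r i ^ 2) + 2 * ∑ i, r i ^ 3 := by
    have e : ∑ j, ∑ l, ∑ n, U j l n = (∑ j, ∑ l, ∑ n, c j * c l * c n) -
        (∑ j, ∑ l, ∑ n, (∑ i, z i j * z i l) * c n) - (∑ j, ∑ l, ∑ n, (∑ i, z i j * z i n) * c l) -
        (∑ j, ∑ l, ∑ n, (∑ i, z i l * z i n) * c j) +
        ∑ j, ∑ l, ∑ n, 2 * ∑ i, z i j * z i l * z i n := by
      simp only [hU, Finset.sum_add_distrib, Finset.sum_sub_distrib]
    have a1 : ∑ j, ∑ l, ∑ n, c j * c l * c n = Z ^ 3 := by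
      simp only [← Finset.sum_mul, ← Finset.mul_sum, hZc]
      ring
    have a2 : ∑ j, ∑ l, ∑ n, (∑ i, z i j * z i l) * c n = Z * ∑ i, r i ^ 2 := by
      simp only [← Finset.sum_mul, ← Finset.mul_sum, hZc]
      rw [gram2, mul_comm]
      simp only [hr, sq]
    have a3 : ∑ j, ∑ l, ∑ n, (∑ i, z i j * z i n) * c l = Z * ∑ i, r i ^ 2 := by
      simp only [← Finset.sum_mul, ← Finset.mul_sum, hZc]
      rw [gram2, mul_comm]
      simp only [hr, sq]
    have a4 : ∑ j, ∑ l, ∑ n, (∑ i, z i l * z i n) * c j = Z * ∑ i, r i ^ 2 := by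
      simp only [← Finset.sum_mul, ← Finset.mul_sum, hZc]
      rw [gram2, mul_comm]
      simp only [hr, sq]
    have a5 : ∑ j, ∑ l, ∑ n, 2 * ∑ i, z i j * z i l * z i n = 2 * ∑ i, r i ^ 3 := by
      simp only [← Finset.mul_sum]
      rw [gram3]
      congr 1
      apply Finset.sum_congr rfl; intro i _; simp only [hr]; ring
    rw [e, a1, a2, a3, a4, a5]; ring
  have g2 : ∑ j, ∑ n, U j j n = Z * (∑ j, c j ^ 2) - Z * (∑ i, ∑ j, z i j ^ 2) -
      2 * (∑ i, ∑ j, z i j * r i * c j) + 2 * ∑ i, r i * ∑ j, z i j ^ 2 := by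
    have e : ∑ j, ∑ n, U j j n = (∑ j, ∑ n, c j * c j * c n) -
        (∑ j, ∑ n, (∑ i, z i j * z i j) * c n) - (∑ j, ∑ n, (∑ i, z i j * z i n) * c j) -
        (∑ j, ∑ n, (∑ i, z i j * z i n) * c j) +
        ∑ j, ∑ n, 2 * ∑ i, z i j * z i j * z i n := by
      simp only [hU, Finset.sum_add_distrib, Finset.sum_sub_distrib]
    have a1 : ∑ j, ∑ n, c j * c j * c n = Z * ∑ j, c j ^ 2 := by
      simp only [← Finset.sum_mul, ← Finset.mul_sum, hZc]
      rw [mul_comm]; simp only [sq]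
    have a2 : ∑ j, ∑ n, (∑ i, z i j * z i j) * c n = Z * ∑ i, ∑ j, z i j ^ 2 := by
      simp only [← Finset.mul_sum, hZc, ← Finset.sum_mul]
      rw [sw (fun i j => z i j * z i j), mul_comm]
      simp only [sq]
    have a3 : ∑ j, ∑ n, (∑ i, z i j * z i n) * c j = ∑ i, ∑ j, z i j * r i * c j := by
      rw [← sw]
      apply Finset.sum_congr rfl; intro j _
      rw [← Finset.sum_mul, Finset.sum_comm, Finset.sum_mul]
      apply Finset.sum_congr rfl; intro i _
      rw [← Finset.mul_sum]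
    have a5 : ∑ j, ∑ n, 2 * ∑ i, z i j * z i j * z i n = 2 * ∑ i, r i * ∑ j, z i j ^ 2 := by
      simp only [← Finset.mul_sum]
      rw [gram2 (fun i j => z i j * z i j) z]
      congr 1
      apply Finset.sum_congr rfl; intro i _; simp only [hr, sq]; ring
    rw [e, a1, a2, a3, a5]; ring
  have g3 : ∑ j, ∑ l, U j l j = ∑ j, ∑ n, U j j n := by
    apply Finset.sum_congr rfl; intro j _
    apply Finset.sum_congr rfl; intro l _
    simp only [hU]
    have : ∑ i, z i l * z i j = ∑ i, z i j * z i l :=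
      Finset.sum_congr rfl fun i _ => mul_comm _ _
    have h2 : ∑ i, z i j * z i l * z i j = ∑ i, z i j * z i j * z i l :=
      Finset.sum_congr rfl fun i _ => by ring
    rw [this, h2]; ring
  have g4 : ∑ j, ∑ l, U j l l = ∑ j, ∑ n, U j j n := by
    rw [Finset.sum_comm]
    apply Finset.sum_congr rfl; intro j _
    apply Finset.sum_congr rfl; intro l _
    simp only [hU]
    have : ∑ i, z i l * z i j = ∑ i, z i j * z i l :=
      Finset.sum_congr rfl fun i _ => mul_comm _ _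
    have h2 : ∑ i, z i l * z i j * z i j = ∑ i, z i j * z i j * z i l :=
      Finset.sum_congr rfl fun i _ => by ring
    rw [this, h2]; ring
  have g5 : ∑ j, U j j j = (∑ j, c j ^ 3) - 3 * (∑ j, c j * ∑ i, z i j ^ 2) +
      2 * ∑ i, ∑ j, z i j ^ 3 := by
    simp only [hU, Finset.sum_add_distrib, Finset.sum_sub_distrib, ← Finset.mul_sum]
    rw [sw (fun i j => z i j * z i j * z i j)]
    have a1 : ∀ i j, z i j * z i j * z i j = z i j ^ 3 := by intro i j; ring
    have a2 : ∀ i j, z i j * z i j = z i j ^ 2 := by intro i j; ring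
    simp only [a1]
    simp only [a2]
    have a3 : ∀ j, (∑ i, z i j ^ 2) * c j = c j * ∑ i, z i j ^ 2 := fun j => mul_comm _ _
    have a4 : ∀ j, c j * c j * c j = c j ^ 3 := by intro j; ring
    simp only [a3, a4]
    ring
  rw [g1, g3, g4, g2, g5] at hN
  rw [hsq'] at hsq
  have hfin := add_nonneg (mul_nonneg (by norm_num : (0 : ℝ) ≤ 3) hsq) (mul_nonneg hZ0 hN)
  refine hfin.trans (le_of_eq ?_)
  ring

end Pool.Agent.Lib.MP_16c009_co
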