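import Mathlib
import Pool.Agent.Lib.MP_16c009_co.Phi4

/-!
# Sums over sets of cells
-/

open Finset

namespace Pool.Agent.Lib.MP_16c009_co

/-- the weight of a set -/
noncomputable def wt {α : Type*} (z : α → ℝ) (B : Finset α) : ℝ := ∏ x ∈ B, z x

lemma wt_nonneg {α : Type*} {z : α → ℝ} (hz : ∀ x, 0 ≤ z x) (B : Finset α) : 0 ≤ wt z B :=
  Finset.prod_nonneg fun x _ => hz x

/-- elementary symmetric sums -/
noncomputable def es {α : Type*} (z : α → ℝ) (k : ℕ) (s : Finset α) : ℝ :=
  ∑ B ∈ s.powersetCard k, wt z B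

lemma es_zero {α : Type*} (z : α → ℝ) (s : Finset α) : es z 0 s = 1 := by
  simp [es, wt]

lemma es_insert {α : Type*} [DecidableEq α] (z : α → ℝ) (k : ℕ) {a : α} {s : Finset α}
    (ha : a ∉ s) : es z (k + 1) (insert a s) = es z (k + 1) s + z a * es z k s := by
  unfold es
  rw [Finset.powersetCard_succ_insert ha, Finset.sum_union]
  · congr 1
    rw [Finset.sum_image, Finset.mul_sum]
    · apply Finset.sum_congr rfl
      intro B hB
      unfold wt
      rw [Finset.prod_insert]
      intro h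
      exact ha ((Finset.mem_powersetCard.1 hB).1 h)
    · intro B hB C hC h
      have h1 : a ∉ B := fun h => ha ((Finset.mem_powersetCard.1 hB).1 h)
      have h2 : a ∉ C := fun h => ha ((Finset.mem_powersetCard.1 hC).1 h)
      rw [← Finset.erase_insert h1, ← Finset.erase_insert h2]
      exact congrArg (fun s => Finset.erase s a) h
  · rw [Finset.disjoint_left]
    intro B hB hC
    rw [Finset.mem_image] at hC
    obtain ⟨C, _, rfl⟩ := hC
    exact ha ((Finset.mem_powersetCard.1 hB).1 (Finset.mem_insert_self a C))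

lemma es_one {α : Type*} (z : α → ℝ) (s : Finset α) : es z 1 s = ∑ x ∈ s, z x := by
  classical
  induction s using Finset.induction_on with
  | empty => simp [es, Finset.powersetCard_eq_empty.2]
  | insert a s ha ih =>
    have := es_insert z 0 ha
    rw [zero_add] at this
    rw [this, ih, es_zero, Finset.sum_insert ha]; ring

lemma es_two {α : Type*} (z : α → ℝ) (s : Finset α) :
    2 * es z 2 s = (∑ x ∈ s, z x) ^ 2 - ∑ x ∈ s, z x ^ 2 := by
  classical
  induction s using Finset.induction_on with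
  | empty => simp [es, Finset.powersetCard_eq_empty.2]
  | insert a s ha ih =>
    have := es_insert z 1 ha
    norm_num at this
    rw [this, es_one, Finset.sum_insert ha, Finset.sum_insert ha, mul_add, ih]; ring

lemma es_three {α : Type*} (z : α → ℝ) (s : Finset α) :
    6 * es z 3 s = (∑ x ∈ s, z x) ^ 3 - 3 * (∑ x ∈ s, z x) * (∑ x ∈ s, z x ^ 2) +
      2 * ∑ x ∈ s, z x ^ 3 := by
  classical
  induction s using Finset.induction_on with
  | empty => simp [es, Finset.powersetCard_eq_empty.2]
  | insert a s ha ih =>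
    have h2 := es_two z s
    have := es_insert z 2 ha
    norm_num at this
    rw [this, Finset.sum_insert ha, Finset.sum_insert ha, Finset.sum_insert ha,
      mul_add, ih]
    have : 6 * (z a * es z 2 s) = 3 * z a * (2 * es z 2 s) := by ring
    rw [this, h2]; ring

/-- all cells of `B` have the same row -/
def Row {ι κ : Type*} (B : Finset (ι × κ)) : Prop := ∀ x ∈ B, ∀ y ∈ B, x.1 = y.1

/-- all cells of `B` have the same column -/
def Col {ι κ : Type*} (B : Finset (ι × κ)) : Prop := ∀ x ∈ B, ∀ y ∈ B, x.2 = y.2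

/-- neither a row set nor a column set -/
def Mix {ι κ : Type*} (B : Finset (ι × κ)) : Prop := ¬ Row B ∧ ¬ Col B

instance instDecRow {ι κ : Type*} [DecidableEq ι] [DecidableEq κ] (B : Finset (ι × κ)) :
    Decidable (Row B) := by unfold Row; infer_instance

instance instDecCol {ι κ : Type*} [DecidableEq ι] [DecidableEq κ] (B : Finset (ι × κ)) :
    Decidable (Col B) := by unfold Col; infer_instance

instance instDecMix {ι κ : Type*} [DecidableEq ι] [DecidableEq κ] (B : Finset (ι × κ)) :
    Decidable (Mix B) := by unfold Mix; infer_instance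

variable {ι κ : Type*} [Fintype ι] [Fintype κ] [DecidableEq ι] [DecidableEq κ]




/-- sum over the sets with `k` elements satisfying `p` -/
noncomputable def sk (z : ι × κ → ℝ) (k : ℕ) (p : Finset (ι × κ) → Prop) [DecidablePred p] : ℝ :=
  ∑ B ∈ ((Finset.univ : Finset (ι × κ)).powersetCard k).filter p, wt z B

lemma sk_row (z : ι × κ → ℝ) (k : ℕ) :
    sk z (k + 1) Row = ∑ i, es z (k + 1) (Finset.univ.filter (fun x : ι × κ => x.1 = i)) := by
  unfold sk es
  rw [← Finset.sum_biUnion]
  · apply Finset.sum_congr _ (fun _ _ => rfl)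
    ext B
    simp only [Finset.mem_filter, Finset.mem_powersetCard, Finset.mem_biUnion, Finset.mem_univ,
      true_and, Finset.subset_univ]
    constructor
    · rintro ⟨h1, h2⟩
      have hne : B.Nonempty := by rw [← Finset.card_pos, h1]; omega
      obtain ⟨x, hx⟩ := hne
      refine ⟨x.1, ?_, h1⟩
      intro y hy
      rw [Finset.mem_filter]
      exact ⟨Finset.mem_univ _, h2 y hy x hx⟩
    · rintro ⟨i, h1, h2⟩
      refine ⟨h2, ?_⟩
      intro x hx y hy
      have a := h1 hx
      have b := h1 hy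
      rw [Finset.mem_filter] at a b
      rw [a.2, b.2]
  · intro i _ i' _ hne
    rw [Function.onFun, Finset.disjoint_left]
    intro B hB hB'
    rw [Finset.mem_powersetCard] at hB hB'
    have hne' : B.Nonempty := by rw [← Finset.card_pos, hB.2]; omega
    obtain ⟨x, hx⟩ := hne'
    have a := hB.1 hx
    have b := hB'.1 hx
    rw [Finset.mem_filter] at a b
    exact hne (a.2.symm.trans b.2)

lemma sk_col (z : ι × κ → ℝ) (k : ℕ) :
    sk z (k + 1) Col = ∑ j, es z (k + 1) (Finset.univ.filter (fun x : ι × κ => x.2 = j)) := by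
  unfold sk es
  rw [← Finset.sum_biUnion]
  · apply Finset.sum_congr _ (fun _ _ => rfl)
    ext B
    simp only [Finset.mem_filter, Finset.mem_powersetCard, Finset.mem_biUnion, Finset.mem_univ,
      true_and, Finset.subset_univ]
    constructor
    · rintro ⟨h1, h2⟩
      have hne : B.Nonempty := by rw [← Finset.card_pos, h1]; omega
      obtain ⟨x, hx⟩ := hne
      refine ⟨x.2, ?_, h1⟩
      intro y hy
      rw [Finset.mem_filter]
      exact ⟨Finset.mem_univ _, h2 y hy x hx⟩
    · rintro ⟨i, h1, h2⟩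
      refine ⟨h2, ?_⟩
      intro x hx y hy
      have a := h1 hx
      have b := h1 hy
      rw [Finset.mem_filter] at a b
      rw [a.2, b.2]
  · intro i _ i' _ hne
    rw [Function.onFun, Finset.disjoint_left]
    intro B hB hB'
    rw [Finset.mem_powersetCard] at hB hB'
    have hne' : B.Nonempty := by rw [← Finset.card_pos, hB.2]; omega
    obtain ⟨x, hx⟩ := hne'
    have a := hB.1 hx
    have b := hB'.1 hx
    rw [Finset.mem_filter] at a b
    exact hne (a.2.symm.trans b.2)

omit [DecidableEq κ] in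
lemma sum_row (f : ι × κ → ℝ) (i : ι) :
    ∑ x ∈ Finset.univ.filter (fun x : ι × κ => x.1 = i), f x = ∑ j, f (i, j) := by
  rw [Finset.sum_filter, Fintype.sum_prod_type]
  rw [Finset.sum_eq_single i]
  · simp
  · intro b _ hb; simp [hb]
  · simp

omit [DecidableEq ι] in
lemma sum_col (f : ι × κ → ℝ) (j : κ) :
    ∑ x ∈ Finset.univ.filter (fun x : ι × κ => x.2 = j), f x = ∑ i, f (i, j) := by
  rw [Finset.sum_filter, Fintype.sum_prod_type]
  apply Finset.sum_congr rfl
  intro i _
  rw [Finset.sum_eq_single j]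
  · simp
  · intro b _ hb; simp [hb]
  · simp



omit [Fintype ι] [Fintype κ] [DecidableEq ι] [DecidableEq κ] in
lemma row_col_card {B : Finset (ι × κ)} (h1 : Row B) (h2 : Col B) : B.card ≤ 1 := by
  rw [Finset.card_le_one]
  intro x hx y hy
  exact Prod.ext (h1 x hx y hy) (h2 x hx y hy)

lemma es_split (z : ι × κ → ℝ) (k : ℕ) (hk : 2 ≤ k) :
    es z k Finset.univ = sk z k Row + sk z k Col + sk z k Mix := by
  unfold es sk
  rw [← Finset.sum_filter_add_sum_filter_not _ (fun B => Row B), add_assoc]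
  congr 1
  rw [← Finset.sum_filter_add_sum_filter_not _ (fun B => Col B)]
  congr 1
  · apply Finset.sum_congr _ (fun _ _ => rfl)
    ext B
    simp only [Finset.mem_filter, Finset.mem_powersetCard]
    constructor
    · rintro ⟨⟨h1, h2⟩, h3⟩; exact ⟨h1, h3⟩
    · rintro ⟨h1, h3⟩
      refine ⟨⟨h1, fun h => ?_⟩, h3⟩
      have := row_col_card h h3
      omega
  · apply Finset.sum_congr _ (fun _ _ => rfl)
    ext B
    simp only [Finset.mem_filter, Finset.mem_powersetCard, Mix]
    tauto

/-- The quartic inequality in terms of sums over sets. -/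
theorem phi4 (z : ι × κ → ℝ) (hz : ∀ x, 0 ≤ z x) :
    (∑ x, z x) * sk z 3 Mix ≤ (sk z 2 Mix + sk z 2 Row) * (sk z 2 Mix + sk z 2 Col) := by
  have hq := quartic (fun i j => z (i, j)) (fun i j => hz _)
  have s2 := es_split z 2 le_rfl
  have s3 := es_split z 3 (by norm_num)
  have t2 := es_two z (Finset.univ : Finset (ι × κ))
  have t3 := es_three z (Finset.univ : Finset (ι × κ))
  have hp : ∀ f : ι × κ → ℝ, ∑ x, f x = ∑ i, ∑ j, f (i, j) := fun f => Fintype.sum_prod_type f
  have r2 : 2 * sk z 2 Row = (∑ i, (∑ j, z (i, j)) ^ 2) - ∑ x, z x ^ 2 := by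
    have := sk_row z 1
    norm_num at this
    rw [this, Finset.mul_sum]
    simp only [es_two, sum_row, Finset.sum_sub_distrib, hp]
  have c2 : 2 * sk z 2 Col = (∑ j, (∑ i, z (i, j)) ^ 2) - ∑ x, z x ^ 2 := by
    have := sk_col z 1
    norm_num at this
    rw [this, Finset.mul_sum]
    simp only [es_two, sum_col, Finset.sum_sub_distrib, hp]
    congr 1
    exact Finset.sum_comm
  have r3 : 6 * sk z 3 Row = (∑ i, (∑ j, z (i, j)) ^ 3) -
      3 * (∑ i, (∑ j, z (i, j)) * (∑ j, z (i, j) ^ 2)) + 2 * ∑ x, z x ^ 3 := by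
    have := sk_row z 2
    norm_num at this
    rw [this, Finset.mul_sum]
    simp only [es_three, sum_row, Finset.sum_sub_distrib, Finset.sum_add_distrib, hp, mul_assoc,
      ← Finset.mul_sum]
  have c3 : 6 * sk z 3 Col = (∑ j, (∑ i, z (i, j)) ^ 3) -
      3 * (∑ j, (∑ i, z (i, j)) * (∑ i, z (i, j) ^ 2)) + 2 * ∑ x, z x ^ 3 := by
    have := sk_col z 2
    norm_num at this
    rw [this, Finset.mul_sum]
    simp only [es_three, sum_col, Finset.sum_sub_distrib, Finset.sum_add_distrib, hp, mul_assoc,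
      ← Finset.mul_sum]
    congr 2
    exact Finset.sum_comm
  simp only [← hp (fun x => z x), ← hp (fun x => z x ^ 2), ← hp (fun x => z x ^ 3)] at hq
  set Z := ∑ x, z x
  set a2 := ∑ x, z x ^ 2
  set a3 := ∑ x, z x ^ 3
  set A := ∑ i, (∑ j, z (i, j)) ^ 2
  set A' := ∑ j, (∑ i, z (i, j)) ^ 2
  set C := ∑ i, (∑ j, z (i, j)) ^ 3
  set C' := ∑ j, (∑ i, z (i, j)) ^ 3
  set D := ∑ i, (∑ j, z (i, j)) * (∑ j, z (i, j) ^ 2)
  set D' := ∑ j, (∑ i, z (i, j)) * (∑ i, z (i, j) ^ 2)
  have h1 : sk z 2 Mix + sk z 2 Row = (Z ^ 2 - A') / 2 := by linarith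
  have h2 : sk z 2 Mix + sk z 2 Col = (Z ^ 2 - A) / 2 := by linarith
  have h3 : sk z 3 Mix = (Z ^ 3 - 3 * Z * a2 + 2 * a3 - (C - 3 * D + 2 * a3) -
      (C' - 3 * D' + 2 * a3)) / 6 := by linarith
  rw [h1, h2, h3]
  nlinarith [hq]

end Pool.Agent.Lib.MP_16c009_co
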