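import Mathlib
import Pool.Agent.Lib.MP_16c009_co.Sets

/-!
# The counting inequality for sets of at least five cells
-/

open Finset

namespace Pool.Agent.Lib.MP_16c009_co

variable {ι κ : Type*} [DecidableEq ι] [DecidableEq κ]

/-- `p` and `q` are in different rows and different columns -/
def mx (p q : ι × κ) : Prop := p.1 ≠ q.1 ∧ p.2 ≠ q.2

instance (p q : ι × κ) : Decidable (mx p q) := by unfold mx; infer_instance

/-- the number of cells of `S` in another row and column than `x` -/
def dg (S : Finset (ι × κ)) (x : ι × κ) : ℕ := (S.filter (fun y => mx x y)).card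

/-- the number of cells of `S` whose removal leaves a mixed set -/
def nu (S : Finset (ι × κ)) : ℕ := (S.filter (fun x => Mix (S.erase x))).card

/-- the number of partitions of `S` in a row set and a column set, both with at least two cells -/
def rh (S : Finset (ι × κ)) : ℕ :=
  (S.powerset.filter (fun I => Row I ∧ Col (S \ I) ∧ 2 ≤ I.card ∧ 2 ≤ (S \ I).card)).card

/-- the 2×2 block with opposite corners `p`, `q` -/
def blk (p q : ι × κ) : Finset (ι × κ) := {p, q, (p.1, q.2), (q.1, p.2)}

/-- a 2×2 block plus a cell -/
def C4 (S : Finset (ι × κ)) : Prop :=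
  ∃ p q e : ι × κ, mx p q ∧ e ∉ blk p q ∧ S = insert e (blk p q)

lemma blk_card {p q : ι × κ} (h : mx p q) : (blk p q).card = 4 := by
  obtain ⟨a, b⟩ := p
  obtain ⟨c, d⟩ := q
  unfold mx at h
  simp only at h
  obtain ⟨h1, h2⟩ := h
  unfold blk
  simp only
  rw [Finset.card_insert_of_notMem, Finset.card_insert_of_notMem, Finset.card_insert_of_notMem,
    Finset.card_singleton]
  · simp only [Finset.mem_singleton, Prod.mk.injEq]
    tauto
  · simp only [Finset.mem_insert, Finset.mem_singleton, Prod.mk.injEq]
    intro h
    rcases h with h | h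
    · exact h1 h.1.symm
    · exact h2 h.2.symm
  · simp only [Finset.mem_insert, Finset.mem_singleton, Prod.mk.injEq]
    intro h
    rcases h with h | h | h
    · exact h1 h.1
    · exact h2 h.2
    · exact h1 h.1

lemma part (S : Finset (ι × κ)) (i : ι) (j : κ) (h : (i, j) ∈ S) (f : ι × κ → ℕ) :
    ∑ x ∈ S, f x = f (i, j) + ∑ x ∈ S.filter (fun x => x.1 = i ∧ x.2 ≠ j), f x +
      ∑ x ∈ S.filter (fun x => x.1 ≠ i ∧ x.2 = j), f x +
      ∑ x ∈ S.filter (fun x => x.1 ≠ i ∧ x.2 ≠ j), f x := by
  rw [Finset.sum_filter, Finset.sum_filter, Finset.sum_filter]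
  have h0 : f (i, j) = ∑ x ∈ S, if x = (i, j) then f x else 0 := by
    rw [Finset.sum_ite_eq', if_pos h]
  rw [h0, ← Finset.sum_add_distrib, ← Finset.sum_add_distrib, ← Finset.sum_add_distrib]
  apply Finset.sum_congr rfl
  rintro ⟨a, b⟩ _
  by_cases ha : a = i <;> by_cases hb : b = j <;> simp [ha, hb]

lemma nu_lt {S : Finset (ι × κ)} {x : ι × κ} (hx : x ∈ S) (h : ¬ Mix (S.erase x)) :
    nu S + 1 ≤ S.card := by
  unfold nu
  apply Finset.card_lt_card
  rw [Finset.filter_ssubset]
  exact ⟨x, hx, h⟩

lemma rh_pos {S I : Finset (ι × κ)} (h : I ⊆ S) (h1 : Row I) (h2 : Col (S \ I)) (h3 : 2 ≤ I.card)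
    (h4 : 2 ≤ (S \ I).card) : 1 ≤ rh S := by
  unfold rh
  rw [Nat.succ_le_iff, Finset.card_pos]
  exact ⟨I, Finset.mem_filter.2 ⟨Finset.mem_powerset.2 h, h1, h2, h3, h4⟩⟩

omit [DecidableEq ι] [DecidableEq κ] in
lemma not_mix_col {B : Finset (ι × κ)} {j : κ} (h : ∀ x ∈ B, x.2 = j) : ¬ Mix B :=
  fun hm => hm.2 (fun x hx y hy => (h x hx).trans (h y hy).symm)

omit [DecidableEq ι] [DecidableEq κ] in
lemma not_mix_row {B : Finset (ι × κ)} {i : ι} (h : ∀ x ∈ B, x.1 = i) : ¬ Mix B :=
  fun hm => hm.1 (fun x hx y hy => (h x hx).trans (h y hy).symm)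

lemma nu_zero {S : Finset (ι × κ)} (h : ∀ x ∈ S, ¬ Mix (S.erase x)) : nu S = 0 := by
  unfold nu
  rw [Finset.card_eq_zero, Finset.filter_eq_empty_iff]
  exact fun {x} hx => h x hx

/-- The counting inequality. -/
theorem count (S : Finset (ι × κ)) (h5 : 5 ≤ S.card) (c : ℕ) (hc : C4 S → 1 ≤ c) :
    2 * nu S ≤ ∑ x ∈ S, dg S x + 2 * rh S + 2 * c := by
  have hnu : nu S ≤ S.card := Finset.card_filter_le _ _
  by_cases hall : ∀ x ∈ S, 2 ≤ dg S x
  · have h2 : S.card • 2 ≤ ∑ x ∈ S, dg S x := Finset.card_nsmul_le_sum _ _ _ hall
    simp only [smul_eq_mul] at h2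
    omega
  push Not at hall
  obtain ⟨⟨i, j⟩, hx0, hd⟩ := hall
  have hpart := part S i j hx0
  set P := S.filter (fun x : ι × κ => x.1 = i ∧ x.2 ≠ j) with hP
  set Q := S.filter (fun x : ι × κ => x.1 ≠ i ∧ x.2 = j) with hQ
  set M := S.filter (fun x : ι × κ => x.1 ≠ i ∧ x.2 ≠ j) with hM
  have mP : ∀ x, x ∈ P ↔ x ∈ S ∧ x.1 = i ∧ x.2 ≠ j := fun x => by rw [hP, Finset.mem_filter]
  have mQ : ∀ x, x ∈ Q ↔ x ∈ S ∧ x.1 ≠ i ∧ x.2 = j := fun x => by rw [hQ, Finset.mem_filter]
  have mM : ∀ x, x ∈ M ↔ x ∈ S ∧ x.1 ≠ i ∧ x.2 ≠ j := fun x => by rw [hM, Finset.mem_filter]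
  have hcard : S.card = 1 + P.card + Q.card + M.card := by
    have := hpart (fun _ => 1)
    simpa using this
  have hMd : dg S (i, j) = M.card := by
    unfold dg
    congr 1
    ext x
    rw [mM, Finset.mem_filter]
    unfold mx
    constructor
    · rintro ⟨a, b, c⟩; exact ⟨a, fun h => b h.symm, fun h => c h.symm⟩
    · rintro ⟨a, b, c⟩; exact ⟨a, fun h => b h.symm, fun h => c h.symm⟩
  have cov : ∀ x ∈ S, x = (i, j) ∨ x ∈ P ∨ x ∈ Q ∨ x ∈ M := by
    rintro ⟨a, b⟩ hx
    rw [mP, mQ, mM]
    by_cases ha : a = i
    · by_cases hb : b = j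
      · left; rw [ha, hb]
      · right; left; exact ⟨hx, ha, hb⟩
    · by_cases hb : b = j
      · right; right; left; exact ⟨hx, ha, hb⟩
      · right; right; right; exact ⟨hx, ha, hb⟩
  rw [hMd] at hd
  have hM01 : M.card = 0 ∨ M.card = 1 := by omega
  have hsum := hpart (dg S)
  rcases hM01 with hM0 | hM1
  · -- no cell is mixed with `(i, j)`
    have hMe : M = ∅ := Finset.card_eq_zero.1 hM0
    rcases Nat.eq_zero_or_pos P.card with hp | hp
    · have hPe : P = ∅ := Finset.card_eq_zero.1 hp
      have hcol : ∀ x ∈ S, x.2 = j := by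
        intro x hx
        rcases cov x hx with h | h | h | h
        · rw [h]
        · rw [hPe] at h; simp at h
        · exact ((mQ x).1 h).2.2
        · rw [hMe] at h; simp at h
      have := nu_zero (S := S) (fun x _ =>
        not_mix_col (fun y hy => hcol y (Finset.mem_of_mem_erase hy)))
      omega
    rcases Nat.eq_zero_or_pos Q.card with hq | hq
    · have hQe : Q = ∅ := Finset.card_eq_zero.1 hq
      have hrow : ∀ x ∈ S, x.1 = i := by
        intro x hx
        rcases cov x hx with h | h | h | h
        · rw [h]
        · exact ((mP x).1 h).2.1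
        · rw [hQe] at h; simp at h
        · rw [hMe] at h; simp at h
      have := nu_zero (S := S) (fun x _ =>
        not_mix_row (fun y hy => hrow y (Finset.mem_of_mem_erase hy)))
      omega
    have hPd : ∀ x ∈ P, Q.card ≤ dg S x := by
      intro x hx
      apply Finset.card_le_card
      intro y hy
      rw [mQ] at hy
      rw [mP] at hx
      rw [Finset.mem_filter]
      refine ⟨hy.1, ?_, ?_⟩
      · rw [hx.2.1]; exact fun h => hy.2.1 h.symm
      · rw [hy.2.2]; exact hx.2.2
    have hQd : ∀ x ∈ Q, P.card ≤ dg S x := by
      intro x hx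
      apply Finset.card_le_card
      intro y hy
      rw [mP] at hy
      rw [mQ] at hx
      rw [Finset.mem_filter]
      refine ⟨hy.1, ?_, ?_⟩
      · rw [hy.2.1]; exact hx.2.1
      · rw [hx.2.2]; exact fun h => hy.2.2 h.symm
    have h1 : P.card * Q.card ≤ ∑ x ∈ P, dg S x := by
      have := Finset.card_nsmul_le_sum P _ _ hPd
      simpa using this
    have h2 : Q.card * P.card ≤ ∑ x ∈ Q, dg S x := by
      have := Finset.card_nsmul_le_sum Q _ _ hQd
      simpa using this
    have hPrh : 2 ≤ P.card → Row P ∧ Col (S \ P) ∧ 2 ≤ P.card ∧ 2 ≤ (S \ P).card := by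
      intro h
      refine ⟨?_, ?_, h, ?_⟩
      · intro x hx y hy
        rw [((mP x).1 hx).2.1, ((mP y).1 hy).2.1]
      · have : ∀ x ∈ S \ P, x.2 = j := by
          intro x hx
          rw [Finset.mem_sdiff] at hx
          rcases cov x hx.1 with h | h | h | h
          · rw [h]
          · exact absurd h hx.2
          · exact ((mQ x).1 h).2.2
          · rw [hMe] at h; simp at h
        intro x hx y hy
        rw [this x hx, this y hy]
      · have hPS : P ⊆ S := Finset.filter_subset _ _
        rw [Finset.card_sdiff_of_subset hPS]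
        omega
    have hQrh : 2 ≤ Q.card → Row (S \ Q) ∧ Col (S \ (S \ Q)) ∧ 2 ≤ (S \ Q).card ∧
        2 ≤ (S \ (S \ Q)).card := by
      intro h
      have hQS : Q ⊆ S := Finset.filter_subset _ _
      rw [Finset.sdiff_sdiff_eq_self hQS]
      refine ⟨?_, ?_, ?_, h⟩
      · have : ∀ x ∈ S \ Q, x.1 = i := by
          intro x hx
          rw [Finset.mem_sdiff] at hx
          rcases cov x hx.1 with h | h | h | h
          · rw [h]
          · exact ((mP x).1 h).2.1
          · exact absurd h hx.2
          · rw [hMe] at h; simp at h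
        intro x hx y hy
        rw [this x hx, this y hy]
      · intro x hx y hy
        rw [((mQ x).1 hx).2.2, ((mQ y).1 hy).2.2]
      · rw [Finset.card_sdiff_of_subset hQS]
        omega
    by_cases hp2 : 2 ≤ P.card
    · by_cases hq2 : 2 ≤ Q.card
      · have hrh : 2 ≤ rh S := by
          unfold rh
          rw [Nat.succ_le_iff, Finset.one_lt_card]
          refine ⟨P, Finset.mem_filter.2 ⟨Finset.mem_powerset.2 (Finset.filter_subset _ _),
            hPrh hp2⟩, S \ Q, Finset.mem_filter.2 ⟨Finset.mem_powerset.2 Finset.sdiff_subset,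
            hQrh hq2⟩, ?_⟩
          intro h
          have h3 : (i, j) ∈ S \ Q := by
            rw [Finset.mem_sdiff]
            refine ⟨hx0, ?_⟩
            rw [mQ]
            tauto
          rw [← h, mP] at h3
          exact h3.2.2 rfl
        have h3 : P.card + Q.card ≤ P.card * Q.card + 1 := by
          obtain ⟨a, ha⟩ := Nat.exists_eq_add_of_le hp2
          obtain ⟨b, hb⟩ := Nat.exists_eq_add_of_le hq2
          rw [ha, hb]
          nlinarith
        have h4 : Q.card * P.card = P.card * Q.card := mul_comm _ _
        omega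
      · -- `Q` has one element
        have hq1 : Q.card = 1 := by omega
        have h3 := hPrh hp2
        have h4 : 1 ≤ rh S := rh_pos (Finset.filter_subset _ _) h3.1 h3.2.1 h3.2.2.1 h3.2.2.2
        obtain ⟨y, hy⟩ := Finset.card_eq_one.1 hq1
        have hyQ : y ∈ Q := by rw [hy]; simp
        have h5 := nu_lt (S := S) (x := y) ((mQ y).1 hyQ).1 (not_mix_row (i := i) (by
          intro x hx
          rw [Finset.mem_erase] at hx
          rcases cov x hx.2 with h | h | h | h
          · rw [h]
          · exact ((mP x).1 h).2.1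
          · rw [hy, Finset.mem_singleton] at h; exact absurd h hx.1
          · rw [hMe] at h; simp at h))
        rw [hq1] at h1 h2 hcard
        omega
    · -- `P` has one element
      have hp1 : P.card = 1 := by omega
      have h3 := hQrh (by omega)
      have h4 : 1 ≤ rh S := rh_pos Finset.sdiff_subset h3.1 h3.2.1 h3.2.2.1 h3.2.2.2
      obtain ⟨y, hy⟩ := Finset.card_eq_one.1 hp1
      have hyP : y ∈ P := by rw [hy]; simp
      have h5 := nu_lt (S := S) (x := y) ((mP y).1 hyP).1 (not_mix_col (j := j) (by
        intro x hx
        rw [Finset.mem_erase] at hx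
        rcases cov x hx.2 with h | h | h | h
        · rw [h]
        · rw [hy, Finset.mem_singleton] at h; exact absurd h hx.1
        · exact ((mQ x).1 h).2.2
        · rw [hMe] at h; simp at h))
      rw [hp1] at h1 h2 hcard
      omega
  · -- exactly one cell `(k, l)` is mixed with `(i, j)`
    obtain ⟨⟨k, l⟩, hy⟩ := Finset.card_eq_one.1 hM1
    have hyM : (k, l) ∈ M := by rw [hy]; simp
    have hyS : (k, l) ∈ S := ((mM _).1 hyM).1
    have hki : k ≠ i := ((mM _).1 hyM).2.1
    have hlj : l ≠ j := ((mM _).1 hyM).2.2
    set P' := P.filter (fun x : ι × κ => x.2 ≠ l) with hP'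
    set Q' := Q.filter (fun x : ι × κ => x.1 ≠ k) with hQ'
    have hPd : ∀ x ∈ P, Q.card + (if x.2 ≠ l then 1 else 0) ≤ dg S x := by
      intro x hx
      have hQs : Q ⊆ S.filter (fun y => mx x y) := by
        intro y hy
        rw [mQ] at hy
        rw [mP] at hx
        rw [Finset.mem_filter]
        refine ⟨hy.1, ?_, ?_⟩
        · rw [hx.2.1]; exact fun h => hy.2.1 h.symm
        · rw [hy.2.2]; exact hx.2.2
      split_ifs with hl
      · have h1 : (insert (k, l) Q).card = Q.card + 1 := by
          apply Finset.card_insert_of_notMem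
          rw [mQ]
          exact fun h => hlj h.2.2
        rw [← h1]
        apply Finset.card_le_card
        rw [Finset.insert_subset_iff]
        refine ⟨?_, hQs⟩
        rw [Finset.mem_filter]
        refine ⟨hyS, ?_, hl⟩
        rw [((mP x).1 hx).2.1]
        exact fun h => hki h.symm
      · rw [add_zero]
        exact Finset.card_le_card hQs
    have hQd : ∀ x ∈ Q, P.card + (if x.1 ≠ k then 1 else 0) ≤ dg S x := by
      intro x hx
      have hPs : P ⊆ S.filter (fun y => mx x y) := by
        intro y hy
        rw [mP] at hy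
        rw [mQ] at hx
        rw [Finset.mem_filter]
        refine ⟨hy.1, ?_, ?_⟩
        · rw [hy.2.1]; exact hx.2.1
        · rw [hx.2.2]; exact fun h => hy.2.2 h.symm
      split_ifs with hl
      · have h1 : (insert (k, l) P).card = P.card + 1 := by
          apply Finset.card_insert_of_notMem
          rw [mP]
          exact fun h => hki h.2.1
        rw [← h1]
        apply Finset.card_le_card
        rw [Finset.insert_subset_iff]
        refine ⟨?_, hPs⟩
        rw [Finset.mem_filter]
        refine ⟨hyS, hl, ?_⟩
        rw [((mQ x).1 hx).2.2]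
        exact fun h => hlj h.symm
      · rw [add_zero]
        exact Finset.card_le_card hPs
    have h1 : P.card * Q.card + P'.card ≤ ∑ x ∈ P, dg S x := by
      have := Finset.sum_le_sum hPd
      rw [Finset.sum_add_distrib, Finset.sum_const, smul_eq_mul, ← Finset.card_filter] at this
      exact this
    have h2 : Q.card * P.card + Q'.card ≤ ∑ x ∈ Q, dg S x := by
      have := Finset.sum_le_sum hQd
      rw [Finset.sum_add_distrib, Finset.sum_const, smul_eq_mul, ← Finset.card_filter] at this
      exact this
    have mP' : ∀ x, x ∈ P' ↔ x ∈ P ∧ x.2 ≠ l := fun x => by rw [hP', Finset.mem_filter]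
    have mQ' : ∀ x, x ∈ Q' ↔ x ∈ Q ∧ x.1 ≠ k := fun x => by rw [hQ', Finset.mem_filter]
    have h3 : 1 + P'.card + Q'.card ≤ ∑ x ∈ M, dg S x := by
      rw [hy, Finset.sum_singleton]
      have hdis : Disjoint P' Q' := by
        rw [Finset.disjoint_left]
        intro x hx hx'
        rw [mP', mP] at hx
        rw [mQ', mQ] at hx'
        exact hx'.1.2.1 hx.1.2.1
      have hni : (i, j) ∉ P' ∪ Q' := by
        rw [Finset.mem_union, mP', mP, mQ', mQ]
        tauto
      have hc1 : (insert (i, j) (P' ∪ Q')).card = 1 + P'.card + Q'.card := by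
        rw [Finset.card_insert_of_notMem hni, Finset.card_union_of_disjoint hdis]; ring
      rw [← hc1]
      apply Finset.card_le_card
      intro x hx
      rw [Finset.mem_insert, Finset.mem_union, mP', mP, mQ', mQ] at hx
      rw [Finset.mem_filter]
      rcases hx with h | h | h
      · rw [h]; exact ⟨hx0, hki, hlj⟩
      · refine ⟨h.1.1, ?_, ?_⟩
        · rw [h.1.2.1]; exact hki
        · exact fun h' => h.2 h'.symm
      · refine ⟨h.1.1, ?_, ?_⟩
        · exact fun h' => h.2 h'.symm
        · rw [h.1.2.2]; exact hlj
    have h4 : P.card ≤ P'.card + 1 := by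
      have : P ⊆ insert (i, l) P' := by
        intro x hx
        rw [Finset.mem_insert, mP']
        by_cases h : x.2 = l
        · left; exact Prod.ext ((mP x).1 hx).2.1 h
        · right; exact ⟨hx, h⟩
      exact (Finset.card_le_card this).trans (Finset.card_insert_le _ _)
    have h5' : Q.card ≤ Q'.card + 1 := by
      have : Q ⊆ insert (k, j) Q' := by
        intro x hx
        rw [Finset.mem_insert, mQ']
        by_cases h : x.1 = k
        · left; exact Prod.ext h ((mQ x).1 hx).2.2
        · right; exact ⟨hx, h⟩
      exact (Finset.card_le_card this).trans (Finset.card_insert_le _ _)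
    have h6 : (i, l) ∉ S → P.card ≤ P'.card := by
      intro h
      apply Finset.card_le_card
      intro x hx
      rw [mP']
      refine ⟨hx, fun h' => h ?_⟩
      have : x = (i, l) := Prod.ext ((mP x).1 hx).2.1 h'
      rw [← this]; exact ((mP x).1 hx).1
    have h7 : (k, j) ∉ S → Q.card ≤ Q'.card := by
      intro h
      apply Finset.card_le_card
      intro x hx
      rw [mQ']
      refine ⟨hx, fun h' => h ?_⟩
      have : x = (k, j) := Prod.ext h' ((mQ x).1 hx).2.2
      rw [← this]; exact ((mQ x).1 hx).1
    have h8 : Q.card * P.card = P.card * Q.card := mul_comm _ _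
    rcases Nat.eq_zero_or_pos P.card with hp | hp
    · -- `S` is the column `j` and `(k, l)`
      have hPe : P = ∅ := Finset.card_eq_zero.1 hp
      have hcol : ∀ x ∈ S, x ≠ (k, l) → x.2 = j := by
        intro x hx hne
        rcases cov x hx with h | h | h | h
        · rw [h]
        · rw [hPe] at h; simp at h
        · exact ((mQ x).1 h).2.2
        · rw [hy, Finset.mem_singleton] at h; exact absurd h hne
      have h9 := nu_lt (S := S) (x := (k, l)) hyS (not_mix_col (j := j) (by
        intro x hx
        rw [Finset.mem_erase] at hx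
        exact hcol x hx.2 hx.1))
      by_cases hkj : (k, j) ∈ S
      · have h10 : 1 ≤ rh S := by
          have hc2 : ({(k, j), (k, l)} : Finset (ι × κ)).card = 2 := by
            rw [Finset.card_pair]
            intro h
            exact hlj (Prod.ext_iff.1 h).2.symm
          have hs2 : ({(k, j), (k, l)} : Finset (ι × κ)) ⊆ S := by
            intro x hx
            rw [Finset.mem_insert, Finset.mem_singleton] at hx
            rcases hx with h | h
            · rw [h]; exact hkj
            · rw [h]; exact hyS
          apply rh_pos hs2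
          · intro x hx y hy
            simp only [Finset.mem_insert, Finset.mem_singleton] at hx hy
            rcases hx with h | h <;> rcases hy with h' | h' <;> rw [h, h']
          · have : ∀ x ∈ S \ {(k, j), (k, l)}, x.2 = j := by
              intro x hx
              simp only [Finset.mem_sdiff, Finset.mem_insert, Finset.mem_singleton, not_or] at hx
              exact hcol x hx.1 hx.2.2
            intro x hx y hy
            rw [this x hx, this y hy]
          · rw [hc2]
          · rw [Finset.card_sdiff_of_subset hs2, hc2]; omega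
        omega
      · have := h7 hkj
        omega
    rcases Nat.eq_zero_or_pos Q.card with hq | hq
    · -- `S` is the row `i` and `(k, l)`
      have hQe : Q = ∅ := Finset.card_eq_zero.1 hq
      have hrow : ∀ x ∈ S, x ≠ (k, l) → x.1 = i := by
        intro x hx hne
        rcases cov x hx with h | h | h | h
        · rw [h]
        · exact ((mP x).1 h).2.1
        · rw [hQe] at h; simp at h
        · rw [hy, Finset.mem_singleton] at h; exact absurd h hne
      have h9 := nu_lt (S := S) (x := (k, l)) hyS (not_mix_row (i := i) (by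
        intro x hx
        rw [Finset.mem_erase] at hx
        exact hrow x hx.2 hx.1))
      by_cases hil : (i, l) ∈ S
      · have h10 : 1 ≤ rh S := by
          have hc2 : ({(i, l), (k, l)} : Finset (ι × κ)).card = 2 := by
            rw [Finset.card_pair]
            intro h
            exact hki (Prod.ext_iff.1 h).1.symm
          have hs2 : ({(i, l), (k, l)} : Finset (ι × κ)) ⊆ S := by
            intro x hx
            rw [Finset.mem_insert, Finset.mem_singleton] at hx
            rcases hx with h | h
            · rw [h]; exact hil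
            · rw [h]; exact hyS
          apply rh_pos (I := S \ {(i, l), (k, l)}) Finset.sdiff_subset
          · have : ∀ x ∈ S \ {(i, l), (k, l)}, x.1 = i := by
              intro x hx
              simp only [Finset.mem_sdiff, Finset.mem_insert, Finset.mem_singleton, not_or] at hx
              exact hrow x hx.1 hx.2.2
            intro x hx y hy
            rw [this x hx, this y hy]
          · rw [Finset.sdiff_sdiff_eq_self hs2]
            intro x hx y hy
            simp only [Finset.mem_insert, Finset.mem_singleton] at hx hy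
            rcases hx with h | h <;> rcases hy with h' | h' <;> rw [h, h']
          · rw [Finset.card_sdiff_of_subset hs2, hc2]; omega
          · rw [Finset.sdiff_sdiff_eq_self hs2, hc2]
        omega
      · have := h6 hil
        omega
    -- both are nonempty
    have hpq : P.card + Q.card ≤ P.card * Q.card + 1 := by
      obtain ⟨a, ha⟩ := Nat.exists_eq_add_of_le hp
      obtain ⟨b, hb⟩ := Nat.exists_eq_add_of_le hq
      rw [ha, hb]
      nlinarith
    by_cases hil : (i, l) ∈ S
    · by_cases hkj : (k, j) ∈ S
      · by_cases h3pq : 3 ≤ P.card * Q.card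
        · omega
        · have hcard5 : S.card = 5 := by omega
          have hmx : mx (i, j) (k, l) := ⟨fun h => hki h.symm, fun h => hlj h.symm⟩
          have hb4 := blk_card hmx
          have hbS : blk (i, j) (k, l) ⊆ S := by
            intro x hx
            unfold blk at hx
            simp only [Finset.mem_insert, Finset.mem_singleton] at hx
            rcases hx with h | h | h | h <;> rw [h]
            · exact hx0
            · exact hyS
            · exact hil
            · exact hkj
          have hC4 : C4 S := by
            obtain ⟨e, he1, he2⟩ := Finset.exists_mem_notMem_of_card_lt_card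
              (s := blk (i, j) (k, l)) (t := S) (by omega)
            refine ⟨(i, j), (k, l), e, hmx, he2, ?_⟩
            symm
            apply Finset.eq_of_subset_of_card_le
            · rw [Finset.insert_subset_iff]; exact ⟨he1, hbS⟩
            · rw [Finset.card_insert_of_notMem he2]; omega
          have := hc hC4
          omega
      · have := h7 hkj
        omega
    · have := h6 hil
      omega

end Pool.Agent.Lib.MP_16c009_co
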