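import Mathlib
import Pool.Agent.Lib.MP_16c009_co.Count

/-!
# The terms of degree at least five
-/

open Finset

namespace Pool.Agent.Lib.MP_16c009_co

lemma sum_le_of_inj {α β : Type*} [DecidableEq β] {s : Finset α} {t : Finset β} {f : α → ℝ}
    {g : β → ℝ} (hg : ∀ b ∈ t, 0 ≤ g b) (φ : α → β) (hφ : ∀ a ∈ s, φ a ∈ t)
    (hinj : ∀ a ∈ s, ∀ b ∈ s, φ a = φ b → a = b) (h : ∀ a ∈ s, f a ≤ g (φ a)) :
    ∑ a ∈ s, f a ≤ ∑ b ∈ t, g b := by
  calc ∑ a ∈ s, f a ≤ ∑ a ∈ s, g (φ a) := Finset.sum_le_sum h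
    _ = ∑ b ∈ s.image φ, g b :=
        (Finset.sum_image (fun a ha b hb hab => hinj a ha b hb hab)).symm
    _ ≤ ∑ b ∈ t, g b := Finset.sum_le_sum_of_subset_of_nonneg
        (by
          intro b hb
          obtain ⟨a, ha, rfl⟩ := Finset.mem_image.1 hb
          exact hφ a ha)
        (fun b hb _ => hg b hb)

lemma sum_pair {β γ : Type*} [Fintype β] [Fintype γ] (p : β → Prop) (q : β → γ → Prop)
    [DecidablePred p] [∀ b, DecidablePred (q b)] (f : β → ℝ) :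
    ∑ t ∈ Finset.univ.filter (fun t : β × γ => p t.1 ∧ q t.1 t.2), f t.1 =
      ∑ b ∈ Finset.univ.filter p, ((Finset.univ.filter (q b)).card : ℝ) * f b := by
  rw [Finset.sum_filter, Fintype.sum_prod_type, Finset.sum_filter]
  apply Finset.sum_congr rfl
  intro b _
  by_cases h : p b
  · simp only [h, true_and, if_true]
    rw [← Finset.sum_filter, Finset.sum_const, nsmul_eq_mul]
  · simp [h]

variable {ι κ : Type*} [Fintype ι] [Fintype κ] [DecidableEq ι] [DecidableEq κ]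

omit [Fintype ι] [Fintype κ] in
lemma wt_erase (z : ι × κ → ℝ) {B : Finset (ι × κ)} {q : ι × κ} (h : q ∈ B) :
    wt z B = z q * wt z (B.erase q) := (Finset.mul_prod_erase B z h).symm

omit [Fintype ι] [Fintype κ] in
lemma wt_insert (z : ι × κ → ℝ) {B : Finset (ι × κ)} {q : ι × κ} (h : q ∉ B) :
    wt z (insert q B) = z q * wt z B := Finset.prod_insert h

/-- the pair sum -/
lemma two_sk (z : ι × κ → ℝ) :
    2 * sk z 2 Mix =
      ∑ t ∈ Finset.univ.filter (fun t : (ι × κ) × (ι × κ) => mx t.1 t.2), z t.1 * z t.2 := by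
  unfold sk
  rw [← Finset.sum_fiberwise_of_maps_to (s := Finset.univ.filter
    (fun t : (ι × κ) × (ι × κ) => mx t.1 t.2))
    (t := ((Finset.univ : Finset (ι × κ)).powersetCard 2).filter Mix)
    (g := fun t => ({t.1, t.2} : Finset (ι × κ))), Finset.mul_sum]
  · apply Finset.sum_congr rfl
    intro B hB
    rw [Finset.mem_filter, Finset.mem_powersetCard] at hB
    obtain ⟨a, b, hab, rfl⟩ := Finset.card_eq_two.1 hB.1.2
    have hmx : mx a b := by
      constructor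
      · intro h
        apply hB.2.1
        intro x hx y hy
        simp only [Finset.mem_insert, Finset.mem_singleton] at hx hy
        rcases hx with rfl | rfl <;> rcases hy with rfl | rfl <;> simp [h]
      · intro h
        apply hB.2.2
        intro x hx y hy
        simp only [Finset.mem_insert, Finset.mem_singleton] at hx hy
        rcases hx with rfl | rfl <;> rcases hy with rfl | rfl <;> simp [h]
    have hmx' : mx b a := ⟨fun h => hmx.1 h.symm, fun h => hmx.2 h.symm⟩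
    have hfib : (Finset.univ.filter (fun t : (ι × κ) × (ι × κ) => mx t.1 t.2)).filter
        (fun t => ({t.1, t.2} : Finset (ι × κ)) = {a, b}) = {(a, b), (b, a)} := by
      ext ⟨x, y⟩
      simp only [Finset.mem_filter, Finset.mem_univ, true_and, Finset.mem_insert,
        Finset.mem_singleton, Prod.mk.injEq]
      constructor
      · rintro ⟨h1, h2⟩
        have hx : x ∈ ({a, b} : Finset (ι × κ)) := by rw [← h2]; simp
        have hy : y ∈ ({a, b} : Finset (ι × κ)) := by rw [← h2]; simp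
        have hne : x ≠ y := by rintro rfl; exact h1.1 rfl
        simp only [Finset.mem_insert, Finset.mem_singleton] at hx hy
        rcases hx with rfl | rfl <;> rcases hy with rfl | rfl
        · exact absurd rfl hne
        · left; exact ⟨rfl, rfl⟩
        · right; exact ⟨rfl, rfl⟩
        · exact absurd rfl hne
      · rintro (⟨rfl, rfl⟩ | ⟨rfl, rfl⟩)
        · exact ⟨hmx, rfl⟩
        · exact ⟨hmx', Finset.pair_comm _ _⟩
    rw [hfib, Finset.sum_pair]
    · unfold wt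
      rw [Finset.prod_pair hab]
      ring
    · intro h
      exact hab (Prod.mk.inj h).1
  · rintro ⟨x, y⟩ h
    rw [Finset.mem_filter] at h
    have h := h.2
    rw [Finset.mem_filter, Finset.mem_powersetCard]
    simp only at h ⊢
    refine ⟨⟨Finset.subset_univ _, ?_⟩, ?_, ?_⟩
    · rw [Finset.card_pair]
      rintro rfl
      exact h.1 rfl
    · intro h'
      exact h.1 (h' x (by simp) y (by simp))
    · intro h'
      exact h.2 (h' x (by simp) y (by simp))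

/-- first family of terms -/
lemma A1 (z : ι × κ → ℝ) (hz : ∀ x, 0 ≤ z x) :
    ∑ t ∈ Finset.univ.filter (fun t : (ι × κ) × Finset (ι × κ) =>
        (4 ≤ t.2.card ∧ Mix t.2) ∧ t.1 ∈ t.2 ∧ ∃ q ∈ t.2, mx t.1 q), z t.1 * wt z t.2 ≤
    ∑ t ∈ Finset.univ.filter (fun t : (ι × κ) × (ι × κ) × Finset (ι × κ) =>
        (mx t.1 t.2.1 ∧ 3 ≤ t.2.2.card) ∧ t.1 ∈ t.2.2 ∧ t.2.1 ∉ t.2.2),
        z t.1 * z t.2.1 * wt z t.2.2 := by
  have : ∀ t : (ι × κ) × Finset (ι × κ), ∃ q, (∃ q ∈ t.2, mx t.1 q) → q ∈ t.2 ∧ mx t.1 q := by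
    intro t
    by_cases h : ∃ q ∈ t.2, mx t.1 q
    · obtain ⟨q, h1, h2⟩ := h
      exact ⟨q, fun _ => ⟨h1, h2⟩⟩
    · exact ⟨t.1, fun h' => absurd h' h⟩
  choose q hq using this
  apply sum_le_of_inj _ (fun t => (t.1, q t, t.2.erase (q t)))
  · rintro ⟨x, B⟩ h
    rw [Finset.mem_filter] at h
    simp only at h
    obtain ⟨-, ⟨h1, h2⟩, h3, h4⟩ := h
    obtain ⟨h5, h6⟩ := hq (x, B) h4
    rw [Finset.mem_filter]
    refine ⟨Finset.mem_univ _, ⟨h6, ?_⟩, ?_, ?_⟩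
    · simp only
      rw [Finset.card_erase_of_mem h5]
      simp only
      omega
    · simp only
      rw [Finset.mem_erase]
      refine ⟨?_, h3⟩
      intro h
      rw [← h] at h6
      exact h6.1 rfl
    · simp
  · rintro ⟨x, B⟩ h ⟨x', B'⟩ h' heq
    rw [Finset.mem_filter] at h h'
    simp only at h h'
    obtain ⟨-, ⟨h1, h2⟩, h3, h4⟩ := h
    obtain ⟨h5, h6⟩ := hq (x, B) h4
    obtain ⟨-, ⟨h1', h2'⟩, h3', h4'⟩ := h'
    obtain ⟨h5', h6'⟩ := hq (x', B') h4'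
    simp only [Prod.mk.injEq] at heq
    obtain ⟨e1, e2, e3⟩ := heq
    rw [Prod.mk.injEq]
    refine ⟨e1, ?_⟩
    calc B = insert (q (x, B)) (B.erase (q (x, B))) := (Finset.insert_erase h5).symm
      _ = insert (q (x', B')) (B'.erase (q (x', B'))) := by rw [e3, e2]
      _ = B' := Finset.insert_erase h5'
  · rintro ⟨x, B⟩ h
    rw [Finset.mem_filter] at h
    simp only at h
    obtain ⟨-, ⟨h1, h2⟩, h3, h4⟩ := h
    obtain ⟨h5, h6⟩ := hq (x, B) h4
    simp only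
    rw [wt_erase z h5, mul_assoc]
  · intro t _
    exact mul_nonneg (mul_nonneg (hz _) (hz _)) (wt_nonneg hz _)

/-- second family of terms -/
lemma A2 (z : ι × κ → ℝ) (hz : ∀ x, 0 ≤ z x) :
    ∑ t ∈ Finset.univ.filter (fun t : (ι × κ) × Finset (ι × κ) =>
        (4 ≤ t.2.card ∧ Mix t.2) ∧ t.1 ∈ t.2 ∧ ¬ ∃ q ∈ t.2, mx t.1 q), z t.1 * wt z t.2 ≤
    ∑ t ∈ Finset.univ.filter (fun t : Finset (ι × κ) × Finset (ι × κ) =>
        (Row t.1 ∧ Col t.2 ∧ 2 ≤ t.1.card ∧ 2 ≤ t.2.card ∧ 5 ≤ t.1.card + t.2.card) ∧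
        ¬ Disjoint t.1 t.2), wt z t.1 * wt z t.2 := by
  have key : ∀ (x : ι × κ) (B : Finset (ι × κ)), (4 ≤ B.card ∧ Mix B) → x ∈ B →
      (¬ ∃ q ∈ B, mx x q) →
      B.filter (fun y => y.1 = x.1) ∪ B.filter (fun y => y.2 = x.2) = B ∧
      B.filter (fun y => y.1 = x.1) ∩ B.filter (fun y => y.2 = x.2) = {x} := by
    intro x B _ hx hB
    constructor
    · ext y
      rw [Finset.mem_union, Finset.mem_filter, Finset.mem_filter]
      constructor
      · rintro (h | h) <;> exact h.1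
      · intro hy
        by_contra hcon
        apply hB
        refine ⟨y, hy, ?_, ?_⟩
        · intro h; exact hcon (Or.inl ⟨hy, h.symm⟩)
        · intro h; exact hcon (Or.inr ⟨hy, h.symm⟩)
    · ext y
      rw [Finset.mem_inter, Finset.mem_filter, Finset.mem_filter, Finset.mem_singleton]
      constructor
      · rintro ⟨⟨_, h1⟩, _, h2⟩; exact Prod.ext h1 h2
      · rintro rfl; exact ⟨⟨hx, rfl⟩, hx, rfl⟩
  apply sum_le_of_inj _ (fun t => (t.2.filter (fun y => y.1 = t.1.1),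
    t.2.filter (fun y => y.2 = t.1.2)))
  · rintro ⟨x, B⟩ h
    rw [Finset.mem_filter] at h
    simp only at h
    obtain ⟨-, h12, h3, h4⟩ := h
    obtain ⟨k1, k2⟩ := key x B h12 h3 h4
    rw [Finset.mem_filter]
    simp only
    set I := B.filter (fun y => y.1 = x.1) with hI
    set J := B.filter (fun y => y.2 = x.2) with hJ
    have hcard : I.card + J.card = B.card + 1 := by
      rw [← Finset.card_union_add_card_inter, k1, k2, Finset.card_singleton]
    have hRow : Row I := by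
      intro a ha b hb
      rw [hI, Finset.mem_filter] at ha hb
      rw [ha.2, hb.2]
    have hCol : Col J := by
      intro a ha b hb
      rw [hJ, Finset.mem_filter] at ha hb
      rw [ha.2, hb.2]
    have hIB : I ⊆ B := Finset.filter_subset _ _
    have hJB : J ⊆ B := Finset.filter_subset _ _
    have hI2 : 2 ≤ I.card := by
      by_contra hlt
      have hJc : B.card ≤ J.card := by omega
      have := Finset.eq_of_subset_of_card_le hJB hJc
      rw [this] at hCol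
      exact h12.2.2 hCol
    have hJ2 : 2 ≤ J.card := by
      by_contra hlt
      have hJc : B.card ≤ I.card := by omega
      have := Finset.eq_of_subset_of_card_le hIB hJc
      rw [this] at hRow
      exact h12.2.1 hRow
    refine ⟨Finset.mem_univ _, ⟨hRow, hCol, hI2, hJ2, by omega⟩, ?_⟩
    intro hd
    rw [Finset.disjoint_iff_inter_eq_empty, k2] at hd
    simp at hd
  · rintro ⟨x, B⟩ h ⟨x', B'⟩ h' heq
    rw [Finset.mem_filter] at h h'
    simp only at h h'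
    obtain ⟨-, h12, h3, h4⟩ := h
    obtain ⟨-, h12', h3', h4'⟩ := h'
    obtain ⟨k1, k2⟩ := key x B h12 h3 h4
    obtain ⟨k1', k2'⟩ := key x' B' h12' h3' h4'
    simp only [Prod.mk.injEq] at heq
    rw [Prod.mk.injEq]
    constructor
    · rw [heq.1, heq.2, k2'] at k2
      exact (Finset.singleton_injective k2).symm
    · rw [heq.1, heq.2, k1'] at k1
      exact k1.symm
  · rintro ⟨x, B⟩ h
    rw [Finset.mem_filter] at h
    simp only at h
    obtain ⟨-, h12, h3, h4⟩ := h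
    obtain ⟨k1, k2⟩ := key x B h12 h3 h4
    simp only
    apply le_of_eq
    unfold wt
    rw [← Finset.prod_union_inter, k1, k2, Finset.prod_singleton, mul_comm]
  · intro t _
    exact mul_nonneg (wt_nonneg hz _) (wt_nonneg hz _)

/-- third family of terms -/
lemma A3 (z : ι × κ → ℝ) (hz : ∀ x, 0 ≤ z x) :
    ∑ t ∈ Finset.univ.filter (fun t : (ι × κ) × Finset (ι × κ) =>
        (4 ≤ t.2.card ∧ Mix t.2) ∧ t.1 ∉ t.2), z t.1 * wt z t.2 ≤
    ∑ S ∈ Finset.univ.filter (fun S : Finset (ι × κ) => 5 ≤ S.card), (nu S : ℝ) * wt z S := by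
  have h0 : ∑ S ∈ Finset.univ.filter (fun S : Finset (ι × κ) => 5 ≤ S.card),
      (nu S : ℝ) * wt z S = ∑ t ∈ Finset.univ.filter (fun t : Finset (ι × κ) × (ι × κ) =>
        5 ≤ t.1.card ∧ (t.2 ∈ t.1 ∧ Mix (t.1.erase t.2))), wt z t.1 := by
    rw [sum_pair (fun S : Finset (ι × κ) => 5 ≤ S.card)
      (fun S (x : ι × κ) => x ∈ S ∧ Mix (S.erase x)) (wt z)]
    apply Finset.sum_congr rfl
    intro S _
    congr 2
    unfold nu
    congr 1
    ext x
    simp
  rw [h0]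
  apply sum_le_of_inj _ (fun t => (insert t.1 t.2, t.1))
  · rintro ⟨x, B⟩ h
    rw [Finset.mem_filter] at h
    simp only at h
    rw [Finset.mem_filter]
    simp only
    refine ⟨Finset.mem_univ _, ?_, Finset.mem_insert_self _ _, ?_⟩
    · rw [Finset.card_insert_of_notMem h.2.2]; omega
    · rw [Finset.erase_insert h.2.2]; exact h.2.1.2
  · rintro ⟨x, B⟩ h ⟨x', B'⟩ h' heq
    rw [Finset.mem_filter] at h h'
    simp only at h h'
    simp only [Prod.mk.injEq] at heq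
    obtain ⟨e1, rfl⟩ := heq
    rw [Prod.mk.injEq]
    refine ⟨rfl, ?_⟩
    rw [← Finset.erase_insert h.2.2, e1, Finset.erase_insert h'.2.2]
  · rintro ⟨x, B⟩ h
    rw [Finset.mem_filter] at h
    simp only at h ⊢
    rw [wt_insert z h.2.2]
  · intro t _
    exact wt_nonneg hz _

/-- fourth family of terms -/
lemma A4 (z : ι × κ → ℝ) (hz : ∀ x, 0 ≤ z x) :
    ∑ S ∈ Finset.univ.filter (fun S : Finset (ι × κ) => 5 ≤ S.card),
      ((∑ x ∈ S, dg S x : ℕ) : ℝ) * wt z S ≤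
    ∑ t ∈ Finset.univ.filter (fun t : (ι × κ) × (ι × κ) × Finset (ι × κ) =>
        (mx t.1 t.2.1 ∧ 3 ≤ t.2.2.card) ∧ t.1 ∉ t.2.2 ∧ t.2.1 ∉ t.2.2),
        z t.1 * z t.2.1 * wt z t.2.2 := by
  have h0 : ∑ S ∈ Finset.univ.filter (fun S : Finset (ι × κ) => 5 ≤ S.card),
      ((∑ x ∈ S, dg S x : ℕ) : ℝ) * wt z S =
      ∑ t ∈ Finset.univ.filter (fun t : Finset (ι × κ) × ((ι × κ) × (ι × κ)) =>
        5 ≤ t.1.card ∧ (t.2.1 ∈ t.1 ∧ t.2.2 ∈ t.1 ∧ mx t.2.1 t.2.2)), wt z t.1 := by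
    rw [sum_pair (fun S : Finset (ι × κ) => 5 ≤ S.card)
      (fun S (x : (ι × κ) × (ι × κ)) => x.1 ∈ S ∧ x.2 ∈ S ∧ mx x.1 x.2) (wt z)]
    apply Finset.sum_congr rfl
    intro S _
    congr 2
    unfold dg
    rw [Finset.card_filter, Fintype.sum_prod_type]
    rw [← Finset.sum_filter_add_sum_filter_not Finset.univ (fun x : ι × κ => x ∈ S)]
    have h1 : ∑ x ∈ Finset.univ.filter (fun x : ι × κ => ¬ x ∈ S), ∑ y : ι × κ,
        (if x ∈ S ∧ y ∈ S ∧ mx x y then 1 else 0) = 0 := by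
      apply Finset.sum_eq_zero
      intro x hx
      rw [Finset.mem_filter] at hx
      apply Finset.sum_eq_zero
      intro y _
      rw [if_neg]
      exact fun h => hx.2 h.1
    rw [h1, add_zero]
    have h2 : (Finset.univ.filter (fun x : ι × κ => x ∈ S)) = S := by ext x; simp
    rw [h2]
    apply Finset.sum_congr rfl
    intro x hx
    rw [Finset.card_filter, ← Finset.sum_filter_add_sum_filter_not Finset.univ
      (fun x : ι × κ => x ∈ S), h2]
    have h3 : ∑ y ∈ Finset.univ.filter (fun x : ι × κ => ¬ x ∈ S),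
        (if x ∈ S ∧ y ∈ S ∧ mx x y then 1 else 0) = 0 := by
      apply Finset.sum_eq_zero
      intro y hy
      rw [Finset.mem_filter] at hy
      rw [if_neg]
      exact fun h => hy.2 h.2.1
    rw [h3, add_zero]
    apply Finset.sum_congr rfl
    intro y hy
    simp [hx, hy]
  rw [h0]
  apply sum_le_of_inj _ (fun t => (t.2.1, t.2.2, (t.1.erase t.2.1).erase t.2.2))
  · rintro ⟨S, p, q⟩ h
    rw [Finset.mem_filter] at h
    simp only at h
    obtain ⟨-, h1, h2, h3, h4⟩ := h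
    rw [Finset.mem_filter]
    simp only
    have hqp : q ≠ p := fun h => h4.1 (by rw [h])
    have hq' : q ∈ S.erase p := Finset.mem_erase.2 ⟨hqp, h3⟩
    refine ⟨Finset.mem_univ _, ⟨h4, ?_⟩, ?_, ?_⟩
    · rw [Finset.card_erase_of_mem hq', Finset.card_erase_of_mem h2]; omega
    · intro h
      exact Finset.notMem_erase p S (Finset.mem_of_mem_erase h)
    · exact Finset.notMem_erase _ _
  · rintro ⟨S, p, q⟩ h ⟨S', p', q'⟩ h' heq
    rw [Finset.mem_filter] at h h'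
    simp only at h h'
    simp only [Prod.mk.injEq] at heq
    obtain ⟨rfl, rfl, e⟩ := heq
    obtain ⟨-, h1, h2, h3, h4⟩ := h
    obtain ⟨-, h1', h2', h3', h4'⟩ := h'
    have hqp : q ≠ p := fun h => h4.1 (by rw [h])
    have hq' : q ∈ S.erase p := Finset.mem_erase.2 ⟨hqp, h3⟩
    have hq'' : q ∈ S'.erase p := Finset.mem_erase.2 ⟨hqp, h3'⟩
    rw [Prod.mk.injEq]
    refine ⟨?_, rfl⟩
    rw [← Finset.insert_erase h2, ← Finset.insert_erase h2', ← Finset.insert_erase hq',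
      ← Finset.insert_erase hq'', e]
  · rintro ⟨S, p, q⟩ h
    rw [Finset.mem_filter] at h
    simp only at h
    obtain ⟨-, h1, h2, h3, h4⟩ := h
    have hqp : q ≠ p := fun h => h4.1 (by rw [h])
    have hq' : q ∈ S.erase p := Finset.mem_erase.2 ⟨hqp, h3⟩
    simp only
    rw [wt_erase z h2, wt_erase z hq', mul_assoc]
  · intro t _
    exact mul_nonneg (mul_nonneg (hz _) (hz _)) (wt_nonneg hz _)

/-- fifth family of terms -/
lemma A5 (z : ι × κ → ℝ) (hz : ∀ x, 0 ≤ z x) :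
    ∑ S ∈ Finset.univ.filter (fun S : Finset (ι × κ) => 5 ≤ S.card), (rh S : ℝ) * wt z S ≤
    ∑ t ∈ Finset.univ.filter (fun t : Finset (ι × κ) × Finset (ι × κ) =>
        (Row t.1 ∧ Col t.2 ∧ 2 ≤ t.1.card ∧ 2 ≤ t.2.card ∧ 5 ≤ t.1.card + t.2.card) ∧
        Disjoint t.1 t.2), wt z t.1 * wt z t.2 := by
  have h0 : ∑ S ∈ Finset.univ.filter (fun S : Finset (ι × κ) => 5 ≤ S.card),
      (rh S : ℝ) * wt z S = ∑ t ∈ Finset.univ.filter
        (fun t : Finset (ι × κ) × Finset (ι × κ) => 5 ≤ t.1.card ∧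
          (t.2 ⊆ t.1 ∧ Row t.2 ∧ Col (t.1 \ t.2) ∧ 2 ≤ t.2.card ∧ 2 ≤ (t.1 \ t.2).card)),
        wt z t.1 := by
    rw [sum_pair (fun S : Finset (ι × κ) => 5 ≤ S.card)
      (fun S (I : Finset (ι × κ)) => I ⊆ S ∧ Row I ∧ Col (S \ I) ∧ 2 ≤ I.card ∧
        2 ≤ (S \ I).card) (wt z)]
    apply Finset.sum_congr rfl
    intro S _
    congr 2
    unfold rh
    congr 1
    ext I
    simp
  rw [h0]
  apply sum_le_of_inj _ (fun t => (t.2, t.1 \ t.2))
  · rintro ⟨S, I⟩ h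
    rw [Finset.mem_filter] at h
    simp only at h
    obtain ⟨-, h1, h2, h3, h4, h5, h6⟩ := h
    rw [Finset.mem_filter]
    simp only
    refine ⟨Finset.mem_univ _, ⟨h3, h4, h5, h6, ?_⟩, Finset.disjoint_sdiff⟩
    rw [Finset.card_sdiff_of_subset h2]
    have := Finset.card_le_card h2
    omega
  · rintro ⟨S, I⟩ h ⟨S', I'⟩ h' heq
    rw [Finset.mem_filter] at h h'
    simp only at h h'
    simp only [Prod.mk.injEq] at heq
    obtain ⟨rfl, e⟩ := heq
    rw [Prod.mk.injEq]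
    refine ⟨?_, rfl⟩
    rw [← Finset.sdiff_union_of_subset h.2.2.1, e, Finset.sdiff_union_of_subset h'.2.2.1]
  · rintro ⟨S, I⟩ h
    rw [Finset.mem_filter] at h
    simp only at h ⊢
    apply le_of_eq
    unfold wt
    rw [mul_comm, Finset.prod_sdiff h.2.2.1]
  · intro t _
    exact mul_nonneg (wt_nonneg hz _) (wt_nonneg hz _)

omit [Fintype ι] [Fintype κ] in
lemma wt_blk (z : ι × κ → ℝ) {p q : ι × κ} (h : mx p q) :
    wt z (blk p q) = z p * z q * (z (p.1, q.2) * z (q.1, p.2)) := by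
  obtain ⟨a, b⟩ := p
  obtain ⟨c, d⟩ := q
  unfold mx at h
  simp only at h
  obtain ⟨h1, h2⟩ := h
  unfold blk wt
  simp only
  rw [Finset.prod_insert, Finset.prod_insert, Finset.prod_insert, Finset.prod_singleton]
  · ring
  · simp only [Finset.mem_singleton, Prod.mk.injEq]
    tauto
  · simp only [Finset.mem_insert, Finset.mem_singleton, Prod.mk.injEq]
    intro h
    rcases h with h | h
    · exact h1 h.1.symm
    · exact h2 h.2.symm
  · simp only [Finset.mem_insert, Finset.mem_singleton, Prod.mk.injEq]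
    intro h
    rcases h with h | h | h
    · exact h1 h.1
    · exact h2 h.2
    · exact h1 h.1

omit [Fintype ι] [Fintype κ] in
lemma blk_swap (p q : ι × κ) : blk (p.1, q.2) (q.1, p.2) = blk p q := by
  ext x
  unfold blk
  simp only [Finset.mem_insert, Finset.mem_singleton]
  tauto

/-- sixth family of terms: a 2×2 block plus a cell -/
lemma A6 (z : ι × κ → ℝ) (hz : ∀ x, 0 ≤ z x) (D : Finset (Finset (ι × κ)))
    (hD : ∀ S ∈ D, C4 S) :
    ∑ S ∈ D, 2 * wt z S ≤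
    ∑ t ∈ Finset.univ.filter (fun t : (ι × κ) × (ι × κ) × Finset (ι × κ) =>
        (mx t.1 t.2.1 ∧ 3 ≤ t.2.2.card) ∧ t.1 ∈ t.2.2 ∧ t.2.1 ∈ t.2.2),
        z t.1 * z t.2.1 * wt z t.2.2 := by
  -- the triples
  have hY : ∑ t ∈ Finset.univ.filter (fun t : (ι × κ) × (ι × κ) × (ι × κ) =>
      mx t.1 t.2.1 ∧ t.2.2 ∉ blk t.1 t.2.1), z t.1 ^ 2 * z t.2.1 ^ 2 * z t.2.2 ≤
      ∑ t ∈ Finset.univ.filter (fun t : (ι × κ) × (ι × κ) × Finset (ι × κ) =>
        (mx t.1 t.2.1 ∧ 3 ≤ t.2.2.card) ∧ t.1 ∈ t.2.2 ∧ t.2.1 ∈ t.2.2),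
        z t.1 * z t.2.1 * wt z t.2.2 := by
    have hne : ∀ p q e : ι × κ, mx p q → e ∉ blk p q → p ≠ q ∧ p ≠ e ∧ q ≠ e := by
      intro p q e h he
      unfold blk at he
      simp only [Finset.mem_insert, Finset.mem_singleton, not_or] at he
      exact ⟨fun h' => h.1 (by rw [h']), fun h' => he.1 h'.symm, fun h' => he.2.1 h'.symm⟩
    apply sum_le_of_inj _ (fun t => (t.1, t.2.1, ({t.1, t.2.1, t.2.2} : Finset (ι × κ))))
    · rintro ⟨p, q, e⟩ h
      rw [Finset.mem_filter] at h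
      simp only at h
      obtain ⟨-, h1, h2⟩ := h
      obtain ⟨n1, n2, n3⟩ := hne p q e h1 h2
      rw [Finset.mem_filter]
      simp only
      refine ⟨Finset.mem_univ _, ⟨h1, ?_⟩, by simp, by simp⟩
      rw [Finset.card_eq_three.2 ⟨p, q, e, n1, n2, n3, rfl⟩]
    · rintro ⟨p, q, e⟩ h ⟨p', q', e'⟩ h' heq
      rw [Finset.mem_filter] at h h'
      simp only at h h'
      simp only [Prod.mk.injEq] at heq
      obtain ⟨rfl, rfl, hs⟩ := heq
      obtain ⟨n1, n2, n3⟩ := hne p q e h.2.1 h.2.2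
      have : e ∈ ({p, q, e'} : Finset (ι × κ)) := by rw [← hs]; simp
      simp only [Finset.mem_insert, Finset.mem_singleton] at this
      rcases this with h | h | h
      · exact absurd h.symm n2
      · exact absurd h.symm n3
      · rw [h]
    · rintro ⟨p, q, e⟩ h
      rw [Finset.mem_filter] at h
      simp only at h
      obtain ⟨n1, n2, n3⟩ := hne p q e h.2.1 h.2.2
      simp only
      apply le_of_eq
      unfold wt
      rw [Finset.prod_insert, Finset.prod_insert, Finset.prod_singleton]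
      · ring
      · simpa using n3
      · simp only [Finset.mem_insert, Finset.mem_singleton, not_or]
        exact ⟨n1, n2⟩
    · intro t _
      exact mul_nonneg (mul_nonneg (hz _) (hz _)) (wt_nonneg hz _)
  refine le_trans ?_ hY
  rcases D.eq_empty_or_nonempty with rfl | ⟨S₀, hS₀⟩
  · rw [Finset.sum_empty]
    exact Finset.sum_nonneg fun t _ =>
      mul_nonneg (mul_nonneg (sq_nonneg _) (sq_nonneg _)) (hz _)
  obtain ⟨p₀, q₀, e₀, -⟩ := hD S₀ hS₀
  have hch : ∀ S : Finset (ι × κ), ∃ t : (ι × κ) × (ι × κ) × (ι × κ), S ∈ D →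
      mx t.1 t.2.1 ∧ t.2.2 ∉ blk t.1 t.2.1 ∧ S = insert t.2.2 (blk t.1 t.2.1) := by
    intro S
    by_cases h : S ∈ D
    · obtain ⟨p, q, e, h1, h2, h3⟩ := hD S h
      exact ⟨(p, q, e), fun _ => ⟨h1, h2, h3⟩⟩
    · exact ⟨(p₀, q₀, e₀), fun h' => absurd h' h⟩
  choose φ hφ using hch
  set ψ : Finset (ι × κ) × Bool → (ι × κ) × (ι × κ) × (ι × κ) := fun t =>
    if t.2 then φ t.1 else
      (((φ t.1).1.1, (φ t.1).2.1.2), ((φ t.1).2.1.1, (φ t.1).1.2), (φ t.1).2.2) with hψ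
  have hsum : ∑ S ∈ D, 2 * wt z S ≤ ∑ t ∈ D ×ˢ (Finset.univ : Finset Bool),
      z (ψ t).1 ^ 2 * z (ψ t).2.1 ^ 2 * z (ψ t).2.2 := by
    rw [Finset.sum_product]
    apply Finset.sum_le_sum
    intro S hS
    obtain ⟨h1, h2, h3⟩ := hφ S hS
    rw [Fintype.sum_bool]
    have hw : wt z S = z (φ S).2.2 * wt z (blk (φ S).1 (φ S).2.1) := by
      conv_lhs => rw [h3]
      rw [wt_insert z h2]
    rw [hw, wt_blk z h1]
    simp only [hψ, if_true, Bool.false_eq_true, if_false]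
    have := hz (φ S).2.2
    nlinarith [mul_nonneg this (sq_nonneg (z (φ S).1 * z (φ S).2.1 -
      z ((φ S).1.1, (φ S).2.1.2) * z ((φ S).2.1.1, (φ S).1.2)))]
  refine hsum.trans ?_
  apply sum_le_of_inj _ ψ
  · rintro ⟨S, b⟩ h
    rw [Finset.mem_product] at h
    obtain ⟨h1, h2, h3⟩ := hφ S h.1
    rw [Finset.mem_filter]
    refine ⟨Finset.mem_univ _, ?_⟩
    cases b
    · simp only [hψ, Bool.false_eq_true, if_false]
      rw [blk_swap]
      exact ⟨⟨h1.1, fun h => h1.2 h.symm⟩, h2⟩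
    · simp only [hψ, if_true]
      exact ⟨h1, h2⟩
  · have hrec : ∀ S b, S ∈ D → S = insert (ψ (S, b)).2.2 (blk (ψ (S, b)).1 (ψ (S, b)).2.1) := by
      intro S b hS
      obtain ⟨h1, h2, h3⟩ := hφ S hS
      cases b
      · simp only [hψ, Bool.false_eq_true, if_false]
        rw [blk_swap]
        exact h3
      · simp only [hψ, if_true]
        exact h3
    rintro ⟨S, b⟩ h ⟨S', b'⟩ h' heq
    rw [Finset.mem_product] at h h'
    have e1 : S = S' := by
      rw [hrec S b h.1, hrec S' b' h'.1, heq]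
    subst e1
    obtain ⟨h1, h2, h3⟩ := hφ S h.1
    rw [Prod.mk.injEq]
    refine ⟨rfl, ?_⟩
    cases b <;> cases b'
    · rfl
    · exfalso
      simp only [hψ, Bool.false_eq_true, if_false, if_true] at heq
      have := congrArg (fun t => t.1.2) heq
      exact h1.2 this.symm
    · exfalso
      simp only [hψ, Bool.false_eq_true, if_false, if_true] at heq
      have := congrArg (fun t => t.1.2) heq
      exact h1.2 this
    · rfl
  · intro t _
    exact le_rfl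
  · intro t _
    exact mul_nonneg (mul_nonneg (sq_nonneg _) (sq_nonneg _)) (hz _)

lemma split3 {β : Type*} [Fintype β] (p q : β → Prop) [DecidablePred p] [DecidablePred q]
    (f : β → ℝ) : ∑ t ∈ Finset.univ.filter p, f t =
      ∑ t ∈ Finset.univ.filter (fun t => p t ∧ q t), f t +
      ∑ t ∈ Finset.univ.filter (fun t => p t ∧ ¬ q t), f t := by
  rw [← Finset.sum_filter_add_sum_filter_not (Finset.univ.filter p) q, Finset.filter_filter,
    Finset.filter_filter]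

/-- The terms of degree at least five. -/
theorem claimC (z : ι × κ → ℝ) (hz : ∀ x, 0 ≤ z x) :
    (∑ x, z x) * (∑ B ∈ Finset.univ.filter (fun B : Finset (ι × κ) => 4 ≤ B.card ∧ Mix B),
        wt z B) ≤
    sk z 2 Mix * (∑ B ∈ Finset.univ.filter (fun B : Finset (ι × κ) => 3 ≤ B.card), wt z B) +
    ∑ t ∈ Finset.univ.filter (fun t : Finset (ι × κ) × Finset (ι × κ) =>
        Row t.1 ∧ Col t.2 ∧ 2 ≤ t.1.card ∧ 2 ≤ t.2.card ∧ 5 ≤ t.1.card + t.2.card),
        wt z t.1 * wt z t.2 := by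
  classical
  -- left-hand side
  have hL : (∑ x, z x) * (∑ B ∈ Finset.univ.filter
      (fun B : Finset (ι × κ) => 4 ≤ B.card ∧ Mix B), wt z B) =
      ∑ t ∈ Finset.univ.filter (fun t : (ι × κ) × Finset (ι × κ) => 4 ≤ t.2.card ∧ Mix t.2),
        z t.1 * wt z t.2 := by
    rw [Finset.sum_mul_sum, ← Finset.sum_product']
    apply Finset.sum_congr _ (fun _ _ => rfl)
    ext ⟨x, B⟩
    simp
  have hL2 : ∑ t ∈ Finset.univ.filter
      (fun t : (ι × κ) × Finset (ι × κ) => 4 ≤ t.2.card ∧ Mix t.2), z t.1 * wt z t.2 =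
      ∑ t ∈ Finset.univ.filter (fun t : (ι × κ) × Finset (ι × κ) =>
        (4 ≤ t.2.card ∧ Mix t.2) ∧ t.1 ∈ t.2 ∧ ∃ q ∈ t.2, mx t.1 q), z t.1 * wt z t.2 +
      ∑ t ∈ Finset.univ.filter (fun t : (ι × κ) × Finset (ι × κ) =>
        (4 ≤ t.2.card ∧ Mix t.2) ∧ t.1 ∈ t.2 ∧ ¬ ∃ q ∈ t.2, mx t.1 q), z t.1 * wt z t.2 +
      ∑ t ∈ Finset.univ.filter (fun t : (ι × κ) × Finset (ι × κ) =>
        (4 ≤ t.2.card ∧ Mix t.2) ∧ t.1 ∉ t.2), z t.1 * wt z t.2 := by
    rw [split3 (fun t : (ι × κ) × Finset (ι × κ) => 4 ≤ t.2.card ∧ Mix t.2)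
      (fun t => t.1 ∈ t.2)]
    congr 1
    rw [split3 (fun t : (ι × κ) × Finset (ι × κ) => (4 ≤ t.2.card ∧ Mix t.2) ∧ t.1 ∈ t.2)
      (fun t => ∃ q ∈ t.2, mx t.1 q)]
    simp only [and_assoc]
  -- right-hand side, first part
  have hR : 2 * sk z 2 Mix * (∑ B ∈ Finset.univ.filter
      (fun B : Finset (ι × κ) => 3 ≤ B.card), wt z B) =
      ∑ t ∈ Finset.univ.filter (fun t : (ι × κ) × (ι × κ) × Finset (ι × κ) =>
        mx t.1 t.2.1 ∧ 3 ≤ t.2.2.card), z t.1 * z t.2.1 * wt z t.2.2 := by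
    rw [two_sk, Finset.sum_mul_sum, ← Finset.sum_product']
    apply Finset.sum_nbij' (fun t => (t.1.1, t.1.2, t.2)) (fun t => ((t.1, t.2.1), t.2.2))
    · rintro ⟨⟨p, q⟩, T⟩ h; simpa using h
    · rintro ⟨p, q, T⟩ h; simpa using h
    · rintro ⟨⟨p, q⟩, T⟩ h; rfl
    · rintro ⟨p, q, T⟩ h; rfl
    · rintro ⟨⟨p, q⟩, T⟩ h; rfl
  have hR2 : ∑ t ∈ Finset.univ.filter (fun t : (ι × κ) × (ι × κ) × Finset (ι × κ) =>
        mx t.1 t.2.1 ∧ 3 ≤ t.2.2.card), z t.1 * z t.2.1 * wt z t.2.2 =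
      (∑ t ∈ Finset.univ.filter (fun t : (ι × κ) × (ι × κ) × Finset (ι × κ) =>
        (mx t.1 t.2.1 ∧ 3 ≤ t.2.2.card) ∧ t.1 ∈ t.2.2 ∧ t.2.1 ∈ t.2.2),
        z t.1 * z t.2.1 * wt z t.2.2 +
      ∑ t ∈ Finset.univ.filter (fun t : (ι × κ) × (ι × κ) × Finset (ι × κ) =>
        (mx t.1 t.2.1 ∧ 3 ≤ t.2.2.card) ∧ t.1 ∈ t.2.2 ∧ t.2.1 ∉ t.2.2),
        z t.1 * z t.2.1 * wt z t.2.2) +
      (∑ t ∈ Finset.univ.filter (fun t : (ι × κ) × (ι × κ) × Finset (ι × κ) =>
        (mx t.1 t.2.1 ∧ 3 ≤ t.2.2.card) ∧ t.1 ∉ t.2.2 ∧ t.2.1 ∈ t.2.2),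
        z t.1 * z t.2.1 * wt z t.2.2 +
      ∑ t ∈ Finset.univ.filter (fun t : (ι × κ) × (ι × κ) × Finset (ι × κ) =>
        (mx t.1 t.2.1 ∧ 3 ≤ t.2.2.card) ∧ t.1 ∉ t.2.2 ∧ t.2.1 ∉ t.2.2),
        z t.1 * z t.2.1 * wt z t.2.2) := by
    rw [split3 (fun t : (ι × κ) × (ι × κ) × Finset (ι × κ) => mx t.1 t.2.1 ∧ 3 ≤ t.2.2.card)
      (fun t => t.1 ∈ t.2.2)]
    congr 1
    · rw [split3 (fun t : (ι × κ) × (ι × κ) × Finset (ι × κ) =>
        (mx t.1 t.2.1 ∧ 3 ≤ t.2.2.card) ∧ t.1 ∈ t.2.2) (fun t => t.2.1 ∈ t.2.2)]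
      simp only [and_assoc]
    · rw [split3 (fun t : (ι × κ) × (ι × κ) × Finset (ι × κ) =>
        (mx t.1 t.2.1 ∧ 3 ≤ t.2.2.card) ∧ ¬ t.1 ∈ t.2.2) (fun t => t.2.1 ∈ t.2.2)]
      simp only [and_assoc]
  have hsym : ∑ t ∈ Finset.univ.filter (fun t : (ι × κ) × (ι × κ) × Finset (ι × κ) =>
        (mx t.1 t.2.1 ∧ 3 ≤ t.2.2.card) ∧ t.1 ∉ t.2.2 ∧ t.2.1 ∈ t.2.2),
        z t.1 * z t.2.1 * wt z t.2.2 =
      ∑ t ∈ Finset.univ.filter (fun t : (ι × κ) × (ι × κ) × Finset (ι × κ) =>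
        (mx t.1 t.2.1 ∧ 3 ≤ t.2.2.card) ∧ t.1 ∈ t.2.2 ∧ t.2.1 ∉ t.2.2),
        z t.1 * z t.2.1 * wt z t.2.2 := by
    have hmx : ∀ p q : ι × κ, mx p q → mx q p :=
      fun p q h => ⟨fun h' => h.1 h'.symm, fun h' => h.2 h'.symm⟩
    apply Finset.sum_nbij' (fun t => (t.2.1, t.1, t.2.2)) (fun t => (t.2.1, t.1, t.2.2))
    · rintro ⟨p, q, T⟩ h
      rw [Finset.mem_filter] at h ⊢
      exact ⟨Finset.mem_univ _, ⟨hmx _ _ h.2.1.1, h.2.1.2⟩, h.2.2.2, h.2.2.1⟩
    · rintro ⟨p, q, T⟩ h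
      rw [Finset.mem_filter] at h ⊢
      exact ⟨Finset.mem_univ _, ⟨hmx _ _ h.2.1.1, h.2.1.2⟩, h.2.2.2, h.2.2.1⟩
    · rintro ⟨p, q, T⟩ h; rfl
    · rintro ⟨p, q, T⟩ h; rfl
    · rintro ⟨p, q, T⟩ h; simp only; ring
  -- right-hand side, second part
  have hV := split3 (fun t : Finset (ι × κ) × Finset (ι × κ) =>
        Row t.1 ∧ Col t.2 ∧ 2 ≤ t.1.card ∧ 2 ≤ t.2.card ∧ 5 ≤ t.1.card + t.2.card)
        (fun t => Disjoint t.1 t.2) (fun t => wt z t.1 * wt z t.2)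
  have a1 := A1 z hz
  have a2 := A2 z hz
  have a3 := A3 z hz
  have a4 := A4 z hz
  have a5 := A5 z hz
  have a6 := A6 z hz (Finset.univ.filter (fun S : Finset (ι × κ) => 5 ≤ S.card ∧ C4 S))
    (fun S hS => (Finset.mem_filter.1 hS).2.2)
  have hcount : 2 * ∑ S ∈ Finset.univ.filter (fun S : Finset (ι × κ) => 5 ≤ S.card),
      (nu S : ℝ) * wt z S ≤
      ∑ S ∈ Finset.univ.filter (fun S : Finset (ι × κ) => 5 ≤ S.card),
        ((∑ x ∈ S, dg S x : ℕ) : ℝ) * wt z S +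
      2 * ∑ S ∈ Finset.univ.filter (fun S : Finset (ι × κ) => 5 ≤ S.card),
        (rh S : ℝ) * wt z S +
      ∑ S ∈ Finset.univ.filter (fun S : Finset (ι × κ) => 5 ≤ S.card ∧ C4 S),
        2 * wt z S := by
    have h4 : ∑ S ∈ Finset.univ.filter (fun S : Finset (ι × κ) => 5 ≤ S.card ∧ C4 S),
        2 * wt z S = ∑ S ∈ Finset.univ.filter (fun S : Finset (ι × κ) => 5 ≤ S.card),
        if C4 S then 2 * wt z S else 0 := by
      rw [← Finset.filter_filter, Finset.sum_filter]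
    rw [h4, Finset.mul_sum, Finset.mul_sum, ← Finset.sum_add_distrib, ← Finset.sum_add_distrib]
    apply Finset.sum_le_sum
    intro S hS
    rw [Finset.mem_filter] at hS
    have hw := wt_nonneg hz S
    by_cases hC : C4 S
    · have := count S hS.2 1 (fun _ => le_rfl)
      have h' : (2 * nu S : ℝ) ≤ ((∑ x ∈ S, dg S x : ℕ) : ℝ) + 2 * rh S + 2 * 1 := by
        exact_mod_cast this
      rw [if_pos hC]
      nlinarith [mul_le_mul_of_nonneg_right h' hw]
    · have := count S hS.2 0 (fun h => absurd h hC)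
      have h' : (2 * nu S : ℝ) ≤ ((∑ x ∈ S, dg S x : ℕ) : ℝ) + 2 * rh S + 2 * 0 := by
        exact_mod_cast this
      rw [if_neg hC]
      nlinarith [mul_le_mul_of_nonneg_right h' hw]
  rw [hL, hL2]
  rw [hR2, hsym] at hR
  rw [hV]
  linarith

end Pool.Agent.Lib.MP_16c009_co
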