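import Mathlib

/-!
# Spanning sets of a matroid of rank three
-/

open Set

namespace Pool.Agent.Lib.MP_16c009_co

variable {E : Type*} {M : Matroid E}

/-- a set contained in a line is not spanning -/
lemma n1 (hr : M.eRank = 3) {A : Set E} {a b : E} (h : A ⊆ M.closure {a, b}) :
    ¬ M.Spanning A := by
  intro hs
  have h1 : M.eRk A = 3 := by rw [hs.eRk_eq, hr]
  have h2 : M.eRk A ≤ M.eRk (M.closure {a, b}) := M.eRk_mono h
  rw [M.eRk_closure_eq] at h2
  have h3 : M.eRk {a, b} ≤ ({a, b} : Set E).encard := M.eRk_le_encard _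
  have h4 : ({a, b} : Set E).encard ≤ 2 := by
    have := Set.encard_insert_le ({b} : Set E) a
    rw [Set.encard_singleton] at this
    exact this.trans (by norm_num)
  rw [h1] at h2
  have h5 := h2.trans (h3.trans h4)
  exact absurd h5 (by decide)

/-- a set containing a basis is spanning -/
lemma n2 (hE : M.E = Set.univ) (hr : M.eRank = 3) {A : Set E} {a b c : E}
    (ha : a ∉ M.closure ∅) (hb : b ∉ M.closure {a}) (hc : c ∉ M.closure {b, a})
    (h1 : a ∈ A) (h2 : b ∈ A) (h3 : c ∈ A) : M.Spanning A := by
  have : M.RankFinite := by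
    rw [← Matroid.eRank_lt_top_iff, hr]
    exact ENat.natCast_lt_top 3
  rw [Matroid.spanning_iff_eRk_le (by rw [hE]; exact Set.subset_univ _), hr]
  have e1 : M.eRk {a} = 1 := by
    have := M.eRk_insert_eq_add_one (e := a) (X := ∅) ⟨by rw [hE]; trivial, ha⟩
    simpa using this
  have e2 : M.eRk {b, a} = 2 := by
    have := M.eRk_insert_eq_add_one (e := b) (X := {a}) ⟨by rw [hE]; trivial, hb⟩
    rw [this, e1]; norm_num
  have e3 : M.eRk {c, b, a} = 3 := by
    have := M.eRk_insert_eq_add_one (e := c) (X := {b, a}) ⟨by rw [hE]; trivial, hc⟩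
    rw [this, e2]; norm_num
  rw [← e3]
  apply M.eRk_mono
  intro x hx
  simp only [Set.mem_insert_iff, Set.mem_singleton_iff] at hx
  rcases hx with rfl | rfl | rfl
  · exact h3
  · exact h2
  · exact h1

lemma notMem_empty_of {e f : E} (h : e ∉ M.closure {f}) : e ∉ M.closure ∅ :=
  fun h' => h (M.closure_subset_closure (Set.empty_subset _) h')

/-- adding both `e` and `f` -/
lemma sp_ef (hE : M.E = Set.univ) (hr : M.eRank = 3) {e f : E} (hef : e ∉ M.closure {f})
    (hfe : f ∉ M.closure {e}) (A : Set E) :
    M.Spanning (insert e (insert f A)) ↔ ∃ v ∈ A, v ∉ M.closure {e, f} := by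
  constructor
  · intro h
    by_contra hcon
    push Not at hcon
    refine n1 hr (a := e) (b := f) ?_ h
    intro x hx
    rw [Set.mem_insert_iff, Set.mem_insert_iff] at hx
    rcases hx with rfl | rfl | hx
    · exact M.mem_closure_of_mem (by simp) (by rw [hE]; exact Set.subset_univ _)
    · exact M.mem_closure_of_mem (by simp) (by rw [hE]; exact Set.subset_univ _)
    · exact hcon x hx
  · rintro ⟨v, hv, hvL⟩
    exact n2 hE hr (notMem_empty_of hef) hfe (by rw [Set.pair_comm]; exact hvL)
      (Set.mem_insert _ _) (Set.mem_insert_of_mem _ (Set.mem_insert _ _))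
      (Set.mem_insert_of_mem _ (Set.mem_insert_of_mem _ hv))

/-- adding `e` -/
lemma sp_e (hE : M.E = Set.univ) (hr : M.eRank = 3) {e f : E} (hef : e ∉ M.closure {f})
    (A : Set E) :
    M.Spanning (insert e A) ↔ (∃ v ∈ A, v ∉ M.closure {e, f}) ∧
      ¬ ((∀ v ∈ A, v ∉ M.closure {e, f} → ∀ w ∈ A, w ∉ M.closure {e, f} →
        M.closure {e, v} = M.closure {e, w}) ∧ ∀ x ∈ A, x ∈ M.closure {e, f} →
          x ∈ M.closure {e}) := by
  have hmem : ∀ (X : Set E) (x : E), x ∈ X → x ∈ M.closure X := fun X x hx =>
    M.mem_closure_of_mem hx (by rw [hE]; exact Set.subset_univ _)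
  constructor
  · intro h
    have h1 : ∃ v ∈ A, v ∉ M.closure {e, f} := by
      by_contra hcon
      push Not at hcon
      refine n1 hr (a := e) (b := f) ?_ h
      intro x hx
      rw [Set.mem_insert_iff] at hx
      rcases hx with rfl | hx
      · exact hmem _ _ (by simp)
      · exact hcon x hx
    refine ⟨h1, ?_⟩
    rintro ⟨h2, h3⟩
    obtain ⟨v, hv, hvL⟩ := h1
    refine n1 hr (a := e) (b := v) ?_ h
    intro x hx
    rw [Set.mem_insert_iff] at hx
    rcases hx with rfl | hx
    · exact hmem _ _ (by simp)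
    · by_cases hxL : x ∈ M.closure {e, f}
      · exact M.closure_subset_closure (by simp) (h3 x hx hxL)
      · rw [← h2 x hx hxL v hv hvL]
        exact hmem _ _ (by simp)
  · rintro ⟨⟨v, hv, hvL⟩, h⟩
    have hsub : M.closure {e} ⊆ M.closure {e, f} := M.closure_subset_closure (by simp)
    by_cases h2 : ∀ v ∈ A, v ∉ M.closure {e, f} → ∀ w ∈ A, w ∉ M.closure {e, f} →
        M.closure {e, v} = M.closure {e, w}
    · have h3 : ¬ ∀ x ∈ A, x ∈ M.closure {e, f} → x ∈ M.closure {e} := fun h3 => h ⟨h2, h3⟩
      push Not at h3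
      obtain ⟨y, hy, hyL, hye⟩ := h3
      refine n2 hE hr (notMem_empty_of hef) hye (c := v) ?_ (Set.mem_insert _ _)
        (Set.mem_insert_of_mem _ hy) (Set.mem_insert_of_mem _ hv)
      intro h'
      apply hvL
      refine M.closure_subset_closure_of_subset_closure ?_ h'
      intro x hx
      simp only [Set.mem_insert_iff, Set.mem_singleton_iff] at hx
      rcases hx with rfl | rfl
      · exact hyL
      · exact hmem _ _ (by simp)
    · push Not at h2
      obtain ⟨v, hv, hvL, w, hw, hwL, hne⟩ := h2
      refine n2 hE hr (notMem_empty_of hef) (b := v) (c := w) (fun h' => hvL (hsub h')) ?_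
        (Set.mem_insert _ _) (Set.mem_insert_of_mem _ hv) (Set.mem_insert_of_mem _ hw)
      intro h'
      apply hne
      have := M.closure_insert_congr (e := w) (f := v) (X := {e})
        ⟨h', fun h'' => hwL (hsub h'')⟩
      rw [Set.pair_comm e v, Set.pair_comm e w]
      exact this.symm

/-- two elements in the same cell are parallel -/
lemma cell_par (hE : M.E = Set.univ) (hr : M.eRank = 3) {e f : E} (hef : e ∉ M.closure {f})
    (hfe : f ∉ M.closure {e}) {v w : E} (hv : v ∉ M.closure {e, f})
    (h1 : M.closure {e, w} = M.closure {e, v}) (h2 : M.closure {f, w} = M.closure {f, v}) :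
    w ∈ M.closure {v} := by
  have hmem : ∀ (X : Set E) (x : E), x ∈ X → x ∈ M.closure X := fun X x hx =>
    M.mem_closure_of_mem hx (by rw [hE]; exact Set.subset_univ _)
  by_contra hw
  have a1 : w ∈ M.closure (insert e {v}) := by
    rw [← h1]; exact hmem _ _ (by simp)
  have a2 : w ∈ M.closure (insert f {v}) := by
    rw [← h2]; exact hmem _ _ (by simp)
  have b1 := M.mem_closure_insert hw a1
  have b2 := M.mem_closure_insert hw a2
  have hs : M.Spanning {e, f, v} := n2 hE hr (notMem_empty_of hef) hfe
    (by rw [Set.pair_comm]; exact hv) (by simp) (by simp) (by simp)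
  refine n1 hr (a := w) (b := v) ?_ hs
  intro x hx
  simp only [Set.mem_insert_iff, Set.mem_singleton_iff] at hx
  rcases hx with rfl | rfl | rfl
  · exact b1
  · exact b2
  · exact hmem _ _ (by simp)

/-- the intersection of two points is the set of loops -/
lemma inter_loops {e f : E} (hef : e ∉ M.closure {f}) {x : E} (h1 : x ∈ M.closure {e})
    (h2 : x ∈ M.closure {f}) : x ∈ M.closure ∅ := by
  by_contra h
  have h3 : x ∈ M.closure (insert e ∅) := by simpa using h1
  have h4 := M.mem_closure_insert h h3
  apply hef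
  refine M.closure_subset_closure_of_subset_closure ?_ h4
  intro y hy
  simp only [Set.mem_insert_iff, Set.mem_empty_iff_false, or_false] at hy
  rw [hy]
  exact h2

/-- a set covered by two points is not spanning -/
lemma two_pts (hr : M.eRank = 3) {A : Set E} {v w : E}
    (h : ∀ x ∈ A, x ∈ M.closure ∅ ∨ x ∈ M.closure {v} ∨ x ∈ M.closure {w}) :
    ¬ M.Spanning A := by
  refine n1 hr (a := v) (b := w) ?_
  intro x hx
  rcases h x hx with h | h | h
  · exact M.closure_subset_closure (Set.empty_subset _) h
  · exact M.closure_subset_closure (by simp) h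
  · exact M.closure_subset_closure (by simp) h

end Pool.Agent.Lib.MP_16c009_co
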