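import Mathlib
import Pool.Agent.Lib.MP_16c009_co.ClaimC

/-!
# The grid inequality
-/

open Finset

namespace Pool.Agent.Lib.MP_16c009_co

variable {ι κ : Type*} [Fintype ι] [Fintype κ] [DecidableEq ι] [DecidableEq κ]

/-- sum over the sets with at least `k` elements satisfying `p` -/
noncomputable def sg (z : ι × κ → ℝ) (k : ℕ) (p : Finset (ι × κ) → Prop) [DecidablePred p] : ℝ :=
  ∑ B ∈ Finset.univ.filter (fun B : Finset (ι × κ) => k ≤ B.card ∧ p B), wt z B

lemma sg_succ (z : ι × κ → ℝ) (k : ℕ) (p : Finset (ι × κ) → Prop) [DecidablePred p] :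
    sg z k p = sk z k p + sg z (k + 1) p := by
  unfold sg sk
  rw [split3 (fun B : Finset (ι × κ) => k ≤ B.card ∧ p B) (fun B => B.card = k)]
  congr 1
  · apply Finset.sum_congr _ (fun _ _ => rfl)
    ext B
    simp only [Finset.mem_filter, Finset.mem_univ, true_and, Finset.mem_powersetCard,
      Finset.subset_univ]
    constructor
    · rintro ⟨⟨_, h2⟩, h3⟩; exact ⟨h3, h2⟩
    · rintro ⟨h1, h2⟩; exact ⟨⟨h1.ge, h2⟩, h1⟩
  · apply Finset.sum_congr _ (fun _ _ => rfl)
    ext B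
    simp only [Finset.mem_filter, Finset.mem_univ, true_and]
    constructor
    · rintro ⟨⟨h1, h2⟩, h3⟩; exact ⟨by omega, h2⟩
    · rintro ⟨h1, h2⟩; exact ⟨⟨by omega, h2⟩, by omega⟩

lemma sg_split (z : ι × κ → ℝ) (k : ℕ) (hk : 2 ≤ k) :
    ∑ B ∈ Finset.univ.filter (fun B : Finset (ι × κ) => k ≤ B.card), wt z B =
      sg z k Row + sg z k Col + sg z k Mix := by
  unfold sg
  rw [split3 (fun B : Finset (ι × κ) => k ≤ B.card) Row, add_assoc]
  congr 1
  rw [split3 (fun B : Finset (ι × κ) => k ≤ B.card ∧ ¬ Row B) Col]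
  congr 1
  · apply Finset.sum_congr _ (fun _ _ => rfl)
    ext B
    simp only [Finset.mem_filter, Finset.mem_univ, true_and]
    constructor
    · rintro ⟨⟨h1, h2⟩, h3⟩; exact ⟨h1, h3⟩
    · rintro ⟨h1, h3⟩
      refine ⟨⟨h1, fun h => ?_⟩, h3⟩
      have := row_col_card h h3
      omega
  · apply Finset.sum_congr _ (fun _ _ => rfl)
    ext B
    simp only [Finset.mem_filter, Finset.mem_univ, true_and, Mix]
    tauto

lemma sum_card_one (z : ι × κ → ℝ) :
    ∑ B ∈ (Finset.univ : Finset (ι × κ)).powersetCard 1, wt z B = ∑ x, z x := es_one z _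

lemma sk_one_row (z : ι × κ → ℝ) : sk z 1 Row = ∑ x, z x := by
  rw [← sum_card_one]
  unfold sk
  apply Finset.sum_congr _ (fun _ _ => rfl)
  rw [Finset.filter_eq_self]
  intro B hB
  rw [Finset.mem_powersetCard, Finset.card_eq_one] at hB
  obtain ⟨-, a, rfl⟩ := hB
  intro x hx y hy
  rw [Finset.mem_singleton] at hx hy
  rw [hx, hy]

lemma sk_one_col (z : ι × κ → ℝ) : sk z 1 Col = ∑ x, z x := by
  rw [← sum_card_one]
  unfold sk
  apply Finset.sum_congr _ (fun _ _ => rfl)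
  rw [Finset.filter_eq_self]
  intro B hB
  rw [Finset.mem_powersetCard, Finset.card_eq_one] at hB
  obtain ⟨-, a, rfl⟩ := hB
  intro x hx y hy
  rw [Finset.mem_singleton] at hx hy
  rw [hx, hy]

lemma sum_all (z : ι × κ → ℝ) :
    ∑ B ∈ Finset.univ.filter (fun B : Finset (ι × κ) => 1 ≤ B.card), wt z B =
      ∑ x, z x + (sg z 2 Row + sg z 2 Col + sg z 2 Mix) := by
  rw [split3 (fun B : Finset (ι × κ) => 1 ≤ B.card) (fun B => B.card = 1), ← sg_split z 2 le_rfl,
    ← sum_card_one]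
  congr 1
  · apply Finset.sum_congr _ (fun _ _ => rfl)
    ext B
    simp only [Finset.mem_filter, Finset.mem_univ, true_and, Finset.mem_powersetCard,
      Finset.subset_univ]
    omega
  · apply Finset.sum_congr _ (fun _ _ => rfl)
    ext B
    simp only [Finset.mem_filter, Finset.mem_univ, true_and]
    omega

/-- The grid inequality. -/
theorem grid (z : ι × κ → ℝ) (hz : ∀ x, 0 ≤ z x) :
    (∑ B ∈ Finset.univ.filter (fun B : Finset (ι × κ) => 1 ≤ B.card), wt z B) *
      (∑ x, z x - sk z 2 Mix) ≤ sg z 1 Row * sg z 1 Col := by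
  have hc := claimC z hz
  have hp := phi4 z hz
  have hV : ∑ t ∈ Finset.univ.filter (fun t : Finset (ι × κ) × Finset (ι × κ) =>
        Row t.1 ∧ Col t.2 ∧ 2 ≤ t.1.card ∧ 2 ≤ t.2.card ∧ 5 ≤ t.1.card + t.2.card),
        wt z t.1 * wt z t.2 = sg z 2 Row * sg z 2 Col - sk z 2 Row * sk z 2 Col := by
    have h1 : sg z 2 Row * sg z 2 Col = ∑ t ∈ Finset.univ.filter
        (fun t : Finset (ι × κ) × Finset (ι × κ) =>
        (Row t.1 ∧ Col t.2 ∧ 2 ≤ t.1.card ∧ 2 ≤ t.2.card)), wt z t.1 * wt z t.2 := by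
      unfold sg
      rw [Finset.sum_mul_sum, ← Finset.sum_product']
      apply Finset.sum_congr _ (fun _ _ => rfl)
      ext ⟨I, J⟩
      simp only [Finset.mem_product, Finset.mem_filter, Finset.mem_univ, true_and]
      tauto
    have h2 : sk z 2 Row * sk z 2 Col = ∑ t ∈ Finset.univ.filter
        (fun t : Finset (ι × κ) × Finset (ι × κ) =>
        (Row t.1 ∧ Col t.2 ∧ 2 ≤ t.1.card ∧ 2 ≤ t.2.card) ∧
          ¬ 5 ≤ t.1.card + t.2.card), wt z t.1 * wt z t.2 := by
      unfold sk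
      rw [Finset.sum_mul_sum, ← Finset.sum_product']
      apply Finset.sum_congr _ (fun _ _ => rfl)
      ext ⟨I, J⟩
      simp only [Finset.mem_product, Finset.mem_filter, Finset.mem_univ, true_and,
        Finset.mem_powersetCard, Finset.subset_univ]
      constructor
      · rintro ⟨⟨a, b⟩, c, d⟩
        exact ⟨⟨b, d, by omega, by omega⟩, by omega⟩
      · rintro ⟨⟨a, b, c, d⟩, h⟩
        exact ⟨⟨by omega, a⟩, by omega, b⟩
    rw [h1, h2, split3 (fun t : Finset (ι × κ) × Finset (ι × κ) =>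
        (Row t.1 ∧ Col t.2 ∧ 2 ≤ t.1.card ∧ 2 ≤ t.2.card))
        (fun t => 5 ≤ t.1.card + t.2.card), add_sub_cancel_right]
    simp only [and_assoc]
  have hE4 : ∑ B ∈ Finset.univ.filter (fun B : Finset (ι × κ) => 4 ≤ B.card ∧ Mix B), wt z B =
      sg z 4 Mix := rfl
  rw [hV, hE4, sg_split z 3 (by norm_num)] at hc
  rw [sum_all, sg_succ z 1 Row, sg_succ z 1 Col, sk_one_row, sk_one_col, sg_succ z 2 Row,
    sg_succ z 2 Col, sg_succ z 2 Mix]
  rw [sg_succ z 2 Row, sg_succ z 2 Col] at hc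
  norm_num at hc ⊢
  have h3 := sg_succ z 3 Mix
  norm_num at h3
  rw [h3] at hc ⊢
  nlinarith [hc, hp]

end Pool.Agent.Lib.MP_16c009_co
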