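import Mathlib
import Pool.Agent.Lib.MP_16c009_co.Grid

/-!
# From sets of elements to sets of cells
-/

open Finset

namespace Pool.Agent.Lib.MP_16c009_co

/-- the weight of a cell -/
noncomputable def cw {E C : Type*} [DecidableEq C] (z : E → ℝ) (V : Finset E) (c : E → C)
    (b : C) : ℝ := ∏ v ∈ V.filter (fun v => c v = b), (1 + z v) - 1

lemma cw_nonneg {E C : Type*} [DecidableEq C] {z : E → ℝ} (hz : ∀ v, 0 ≤ z v) (V : Finset E)
    (c : E → C) (b : C) : 0 ≤ cw z V c b := by
  unfold cw
  have h : ∀ s : Finset E, 1 ≤ ∏ v ∈ s, (1 + z v) := by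
    classical
    intro s
    induction s using Finset.induction_on with
    | empty => simp
    | insert a s ha ih =>
      rw [Finset.prod_insert ha]
      nlinarith [hz a]
  have := h (V.filter (fun v => c v = b))
  linarith

lemma sum_powerset_wt {E : Type*} [DecidableEq E] (z : E → ℝ) (s : Finset E) :
    ∑ A ∈ s.powerset, wt z A = ∏ v ∈ s, (1 + z v) := by
  unfold wt
  rw [Finset.prod_one_add]

lemma cells_sum {E C : Type*} [DecidableEq E] [DecidableEq C] (z : E → ℝ) (V : Finset E)
    (c : E → C) (B : Finset C) :
    ∑ A ∈ V.powerset.filter (fun A => A.image c = B), wt z A = wt (cw z V c) B := by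
  have H : ∀ B : Finset C, ∑ B' ∈ B.powerset,
      ∑ A ∈ V.powerset.filter (fun A => A.image c = B'), wt z A =
      ∑ B' ∈ B.powerset, wt (cw z V c) B' := by
    intro B
    rw [sum_powerset_wt]
    have h1 : ∑ B' ∈ B.powerset, ∑ A ∈ V.powerset.filter (fun A => A.image c = B'), wt z A =
        ∑ B' ∈ B.powerset, ∑ A ∈ ((V.filter (fun v => c v ∈ B)).powerset).filter
          (fun A => A.image c = B'), wt z A := by
      apply Finset.sum_congr rfl
      intro B' hB'
      rw [Finset.mem_powerset] at hB'
      apply Finset.sum_congr _ (fun _ _ => rfl)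
      ext A
      simp only [Finset.mem_filter, Finset.mem_powerset]
      constructor
      · rintro ⟨h1, h2⟩
        refine ⟨?_, h2⟩
        intro v hv
        rw [Finset.mem_filter]
        refine ⟨h1 hv, hB' ?_⟩
        rw [← h2]
        exact Finset.mem_image_of_mem _ hv
      · rintro ⟨h1, h2⟩
        exact ⟨h1.trans (Finset.filter_subset _ _), h2⟩
    rw [h1, Finset.sum_fiberwise_of_maps_to, sum_powerset_wt]
    · rw [← Finset.prod_fiberwise_of_maps_to (s := V.filter (fun v => c v ∈ B)) (t := B)
        (g := c)]
      · apply Finset.prod_congr rfl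
        intro b hb
        unfold cw
        rw [add_sub_cancel]
        apply Finset.prod_congr _ (fun _ _ => rfl)
        ext v
        simp only [Finset.mem_filter]
        constructor
        · rintro ⟨⟨h1, _⟩, h3⟩; exact ⟨h1, h3⟩
        · rintro ⟨h1, h3⟩; exact ⟨⟨h1, by rw [h3]; exact hb⟩, h3⟩
      · intro v hv
        exact (Finset.mem_filter.1 hv).2
    · intro A hA
      rw [Finset.mem_powerset] at hA ⊢
      intro b hb
      rw [Finset.mem_image] at hb
      obtain ⟨v, hv, rfl⟩ := hb
      exact (Finset.mem_filter.1 (hA hv)).2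
  induction B using Finset.strongInduction with
  | H B ih =>
    have h := H B
    rw [← Finset.insert_erase (Finset.mem_powerset_self B), Finset.sum_insert
      (Finset.notMem_erase _ _), Finset.sum_insert (Finset.notMem_erase _ _)] at h
    have h2 : ∑ B' ∈ B.powerset.erase B,
        ∑ A ∈ V.powerset.filter (fun A => A.image c = B'), wt z A =
        ∑ B' ∈ B.powerset.erase B, wt (cw z V c) B' := by
      apply Finset.sum_congr rfl
      intro B' hB'
      rw [Finset.mem_erase, Finset.mem_powerset] at hB'
      exact ih B' (lt_of_le_of_ne hB'.2 hB'.1)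
    linarith

/-- From sets of elements to sets of cells. -/
theorem transfer {E C : Type*} [DecidableEq E] [Fintype C] [DecidableEq C] (z : E → ℝ)
    (U : Finset E) (L : E → Prop) [DecidablePred L] (c : E → C)
    (F : Finset E → Finset C → ℝ) :
    ∑ A ∈ U.powerset, wt z A * F (A.filter L) ((A.filter (fun x => ¬ L x)).image c) =
    ∑ A ∈ (U.filter L).powerset, ∑ B : Finset C,
      wt z A * wt (cw z (U.filter (fun x => ¬ L x)) c) B * F A B := by
  have h1 : ∑ A ∈ U.powerset, wt z A * F (A.filter L) ((A.filter (fun x => ¬ L x)).image c) =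
      ∑ t ∈ (U.filter L).powerset ×ˢ (U.filter (fun x => ¬ L x)).powerset,
        wt z t.1 * wt z t.2 * F t.1 (t.2.image c) := by
    apply Finset.sum_nbij' (fun A => (A.filter L, A.filter (fun x => ¬ L x)))
      (fun t => t.1 ∪ t.2)
    · intro A hA
      rw [Finset.mem_powerset] at hA
      rw [Finset.mem_product, Finset.mem_powerset, Finset.mem_powerset]
      exact ⟨Finset.filter_subset_filter _ hA, Finset.filter_subset_filter _ hA⟩
    · rintro ⟨A1, A2⟩ h
      rw [Finset.mem_product, Finset.mem_powerset, Finset.mem_powerset] at h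
      rw [Finset.mem_powerset]
      exact Finset.union_subset (h.1.trans (Finset.filter_subset _ _))
        (h.2.trans (Finset.filter_subset _ _))
    · intro A _
      exact Finset.filter_union_filter_not_eq _ _
    · rintro ⟨A1, A2⟩ h
      rw [Finset.mem_product, Finset.mem_powerset, Finset.mem_powerset] at h
      have e1 : ∀ x ∈ A1, L x := fun x hx => (Finset.mem_filter.1 (h.1 hx)).2
      have e2 : ∀ x ∈ A2, ¬ L x := fun x hx => (Finset.mem_filter.1 (h.2 hx)).2
      simp only [Prod.mk.injEq]
      constructor
      · ext x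
        simp only [Finset.mem_filter, Finset.mem_union]
        constructor
        · rintro ⟨h | h, h'⟩
          · exact h
          · exact absurd h' (e2 x h)
        · intro h; exact ⟨Or.inl h, e1 x h⟩
      · ext x
        simp only [Finset.mem_filter, Finset.mem_union]
        constructor
        · rintro ⟨h | h, h'⟩
          · exact absurd (e1 x h) h'
          · exact h
        · intro h; exact ⟨Or.inr h, e2 x h⟩
    · intro A _
      simp only
      congr 1
      unfold wt
      exact (Finset.prod_filter_mul_prod_filter_not A L z).symm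
  rw [h1, Finset.sum_product]
  apply Finset.sum_congr rfl
  intro A1 _
  rw [← Finset.sum_fiberwise_of_maps_to (s := (U.filter (fun x => ¬ L x)).powerset)
    (t := (Finset.univ : Finset (Finset C))) (g := fun A => A.image c)
    (fun _ _ => Finset.mem_univ _)]
  apply Finset.sum_congr rfl
  intro B _
  rw [← cells_sum, Finset.mul_sum, Finset.sum_mul]
  apply Finset.sum_congr rfl
  intro A2 hA2
  rw [(Finset.mem_filter.1 hA2).2]

lemma fac {E C : Type*} [Fintype C] (z : E → ℝ) (w : C → ℝ) (S : Finset (Finset E))
    (p : Finset C → Prop) (q : Finset E → Prop) [DecidablePred p] [DecidablePred q] :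
    ∑ A ∈ S, ∑ B : Finset C, wt z A * wt w B *
      ((if p B then 1 else 0) * (if q A then 1 else 0)) =
      (∑ A ∈ S.filter q, wt z A) * (∑ B ∈ Finset.univ.filter p, wt w B) := by
  rw [Finset.sum_mul_sum, Finset.sum_filter]
  apply Finset.sum_congr rfl
  intro A _
  by_cases h : q A
  · simp only [h, if_true, mul_one]
    rw [Finset.sum_filter]
    apply Finset.sum_congr rfl
    intro B _
    split_ifs <;> simp
  · simp [h]

lemma lam {E : Type*} [DecidableEq E] (z : E → ℝ) (S : Finset E) (p : E → Prop)
    [DecidablePred p] (q : Finset E → Prop) [DecidablePred q] (h : ∀ A, q A ↔ ∀ x ∈ A, p x) :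
    ∑ A ∈ S.powerset.filter q, wt z A = ∏ v ∈ S.filter p, (1 + z v) := by
  rw [← sum_powerset_wt]
  apply Finset.sum_congr _ (fun _ _ => rfl)
  ext A
  rw [Finset.mem_filter, Finset.mem_powerset, Finset.mem_powerset, h]
  constructor
  · rintro ⟨h1, h2⟩ x hx
    exact Finset.mem_filter.2 ⟨h1 hx, h2 x hx⟩
  · intro h
    exact ⟨fun x hx => (Finset.mem_filter.1 (h hx)).1, fun x hx => (Finset.mem_filter.1 (h hx)).2⟩

lemma one_le_prod {E : Type*} {z : E → ℝ} (hz : ∀ v, 0 ≤ z v) (s : Finset E) :
    1 ≤ ∏ v ∈ s, (1 + z v) := by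
  classical
  induction s using Finset.induction_on with
  | empty => simp
  | insert a s ha ih =>
    rw [Finset.prod_insert ha]
    nlinarith [hz a]

lemma prod_mul_sub {E : Type*} {z : E → ℝ} (hz : ∀ v, 0 ≤ z v) (s : Finset E) :
    (∏ v ∈ s, (1 + z v)) * (1 - ∑ v ∈ s, z v) ≤ 1 := by
  classical
  induction s using Finset.induction_on with
  | empty => simp
  | insert a s ha ih =>
    rw [Finset.prod_insert ha, Finset.sum_insert ha]
    have h1 := one_le_prod hz s
    have h2 : 0 ≤ ∑ v ∈ s, z v := Finset.sum_nonneg fun v _ => hz v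
    have h3 := hz a
    nlinarith [mul_nonneg h3 h2, mul_nonneg h3 h3, mul_nonneg (le_trans zero_le_one h1)
      (add_nonneg (mul_nonneg h3 h2) (mul_nonneg h3 h3))]

end Pool.Agent.Lib.MP_16c009_co
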