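import Mathlib
import Pool.Agent.Lib.MP_16c009_co.Transfer
import Pool.Agent.Lib.MP_16c009_co.Facts

/-!
# The inequality for an independent pair in a matroid of rank three
-/

open Finset Classical

namespace Pool.Agent.Lib.MP_16c009_co

lemma sk_eq {ι κ : Type*} [Fintype ι] [Fintype κ] [DecidableEq ι] [DecidableEq κ] (z : ι × κ → ℝ) :
    sk z 2 Mix = ∑ B ∈ Finset.univ.filter (fun B : Finset (ι × κ) => B.card = 2 ∧ Mix B),
      wt z B := by
  unfold sk
  apply Finset.sum_congr _ (fun _ _ => rfl)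
  ext B
  simp

lemma s1_eq {ι κ : Type*} [Fintype ι] [Fintype κ] [DecidableEq ι] [DecidableEq κ] (z : ι × κ → ℝ) :
    ∑ x, z x = ∑ B ∈ Finset.univ.filter (fun B : Finset (ι × κ) => B.card = 1), wt z B := by
  rw [← sum_card_one]
  apply Finset.sum_congr _ (fun _ _ => rfl)
  ext B
  simp

lemma pw {sp a R C m1 m2 e f z s : Prop} [Decidable sp] [Decidable a] [Decidable (a ∧ R)]
    [Decidable (a ∧ C)] [Decidable e] [Decidable f] [Decidable m1] [Decidable m2] [Decidable z]
    [Decidable s] [Decidable True] (h1 : sp → a) (h2 : sp → ¬ (R ∧ e))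
    (h3 : sp → ¬ (C ∧ f)) (h4 : sp → ¬ (m2 ∧ z)) (h5 : sp → ¬ (m1 ∧ s)) (k1 : e → f → z)
    (k2 : z → e) (k3 : z → f) (k4 : s → ¬ e) (k5 : s → ¬ f) (l1 : m1 → R) (l2 : m1 → C)
    (l3 : R → C → a → m1) (l4 : m2 → a) (l5 : m1 → a) (l6 : m2 → ¬ R) (l7 : m2 → ¬ C) :
    (if sp then (1 : ℝ) else 0) ≤ (if a then 1 else 0) * (if True then 1 else 0) -
      (if a ∧ R then 1 else 0) * (if e then 1 else 0) -
      (if a ∧ C then 1 else 0) * (if f then 1 else 0) +
      (if m1 then 1 else 0) * (if z then 1 else 0) -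
      (if m2 then 1 else 0) * (if z then 1 else 0) -
      (if m1 then 1 else 0) * (if s then 1 else 0) := by
  by_cases ha : a
  swap
  · have e1 : ¬ sp := fun h => ha (h1 h)
    have e2 : ¬ m1 := fun h => ha (l5 h)
    have e3 : ¬ m2 := fun h => ha (l4 h)
    simp [ha, e1, e2, e3]
  by_cases hm : m1
  · have hR := l1 hm
    have hC := l2 hm
    have e3 : ¬ m2 := fun h => l6 h hR
    by_cases he : e
    · have e1 : ¬ sp := fun h => h2 h ⟨hR, he⟩
      have e4 : ¬ s := fun h => k4 h he
      by_cases hf : f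
      · have hz := k1 he hf
        simp [ha, hm, hR, hC, e3, he, e1, e4, hf, hz]
      · have hz : ¬ z := fun h => hf (k3 h)
        simp [ha, hm, hR, hC, e3, he, e1, e4, hf, hz]
    · have hz : ¬ z := fun h => he (k2 h)
      by_cases hf : f
      · have e1 : ¬ sp := fun h => h3 h ⟨hC, hf⟩
        have e4 : ¬ s := fun h => k5 h hf
        simp [ha, hm, hR, hC, e3, he, e1, e4, hf, hz]
      · by_cases hs : s
        · have e1 : ¬ sp := fun h => h5 h ⟨hm, hs⟩
          simp [ha, hm, hR, hC, e3, he, e1, hf, hz, hs]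
        · by_cases hsp : sp
          · simp [ha, hm, hR, hC, e3, he, hf, hz, hs, hsp]
          · simp [ha, hm, hR, hC, e3, he, hf, hz, hs, hsp]
  · by_cases hR : R
    · have hC : ¬ C := fun h => hm (l3 hR h ha)
      have e3 : ¬ m2 := fun h => l6 h hR
      by_cases he : e
      · have e1 : ¬ sp := fun h => h2 h ⟨hR, he⟩
        simp [ha, hm, hR, hC, e3, he, e1]
      · by_cases hsp : sp
        · simp [ha, hm, hR, hC, e3, he, hsp]
        · simp [ha, hm, hR, hC, e3, he, hsp]
    · by_cases hC : C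
      · have e3 : ¬ m2 := fun h => l7 h hC
        by_cases hf : f
        · have e1 : ¬ sp := fun h => h3 h ⟨hC, hf⟩
          simp [ha, hm, hR, hC, e3, hf, e1]
        · by_cases hsp : sp
          · simp [ha, hm, hR, hC, e3, hf, hsp]
          · simp [ha, hm, hR, hC, e3, hf, hsp]
      · by_cases hm2 : m2
        · by_cases hz : z
          · have e1 : ¬ sp := fun h => h4 h ⟨hm2, hz⟩
            simp [ha, hm, hR, hC, hm2, hz, e1]
          · by_cases hsp : sp
            · simp [ha, hm, hR, hC, hm2, hz, hsp]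
            · simp [ha, hm, hR, hC, hm2, hz, hsp]
        · by_cases hsp : sp
          · simp [ha, hm, hR, hC, hm2, hsp]
          · simp [ha, hm, hR, hC, hm2, hsp]

theorem core {E : Type*} [Fintype E] (M : Matroid E) (hE : M.E = Set.univ)
    (hr : M.eRank = 3) (z : E → ℝ) (hz : ∀ a, 0 ≤ z a) (e f : E) (hef : e ∉ M.closure {f})
    (hfe : f ∉ M.closure {e}) (U : Finset E) :
    (∑ A ∈ U.powerset, wt z A *
        (if M.Spanning (insert e (insert f (A : Set E))) then 1 else 0)) *
      (∑ A ∈ U.powerset, wt z A * (if M.Spanning (A : Set E) then 1 else 0)) ≤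
    (∑ A ∈ U.powerset, wt z A * (if M.Spanning (insert e (A : Set E)) then 1 else 0)) *
      (∑ A ∈ U.powerset, wt z A * (if M.Spanning (insert f (A : Set E)) then 1 else 0)) := by
  set L : E → Prop := fun x => x ∈ M.closure {e, f} with hL
  set c : E → Set E × Set E := fun v => (M.closure {e, v}, M.closure {f, v}) with hc
  set w := cw z (U.filter (fun x => ¬ L x)) c with hw
  have hw0 : ∀ b, 0 ≤ w b := fun b => cw_nonneg hz _ _ b
  set qe : Finset E → Prop := fun A => ∀ x ∈ A, x ∈ M.closure {e} with hqe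
  set qf : Finset E → Prop := fun A => ∀ x ∈ A, x ∈ M.closure {f} with hqf
  set q0 : Finset E → Prop := fun A => ∀ x ∈ A, x ∈ M.closure ∅ with hq0
  set qs : Finset E → Prop := fun A => ∃ y ∈ A, y ∉ M.closure {e} ∧ y ∉ M.closure {f} ∧
    ∀ x ∈ A, x ≠ y → x ∈ M.closure ∅ with hqs
  -- cells
  have fB : ∀ A : Finset E, 1 ≤ ((A.filter (fun x => ¬ L x)).image c).card ↔
      ∃ v ∈ (A : Set E), v ∉ M.closure {e, f} := by
    intro A
    rw [Nat.one_le_iff_ne_zero, Finset.card_ne_zero, Finset.image_nonempty]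
    constructor
    · rintro ⟨v, hv⟩
      rw [Finset.mem_filter] at hv
      exact ⟨v, hv.1, hv.2⟩
    · rintro ⟨v, hv, h⟩
      exact ⟨v, Finset.mem_filter.2 ⟨hv, h⟩⟩
  have fR : ∀ A : Finset E, Row ((A.filter (fun x => ¬ L x)).image c) ↔
      ∀ v ∈ (A : Set E), v ∉ M.closure {e, f} → ∀ w ∈ (A : Set E), w ∉ M.closure {e, f} →
        M.closure {e, v} = M.closure {e, w} := by
    intro A
    constructor
    · intro h v hv hvL w hw hwL
      exact h (c v) (Finset.mem_image_of_mem _ (Finset.mem_filter.2 ⟨hv, hvL⟩)) (c w)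
        (Finset.mem_image_of_mem _ (Finset.mem_filter.2 ⟨hw, hwL⟩))
    · intro h x hx y hy
      rw [Finset.mem_image] at hx hy
      obtain ⟨v, hv, rfl⟩ := hx
      obtain ⟨w, hw, rfl⟩ := hy
      rw [Finset.mem_filter] at hv hw
      exact h v hv.1 hv.2 w hw.1 hw.2
  have fC : ∀ A : Finset E, Col ((A.filter (fun x => ¬ L x)).image c) ↔
      ∀ v ∈ (A : Set E), v ∉ M.closure {f, e} → ∀ w ∈ (A : Set E), w ∉ M.closure {f, e} →
        M.closure {f, v} = M.closure {f, w} := by
    intro A
    rw [Set.pair_comm f e]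
    constructor
    · intro h v hv hvL w hw hwL
      exact h (c v) (Finset.mem_image_of_mem _ (Finset.mem_filter.2 ⟨hv, hvL⟩)) (c w)
        (Finset.mem_image_of_mem _ (Finset.mem_filter.2 ⟨hw, hwL⟩))
    · intro h x hx y hy
      rw [Finset.mem_image] at hx hy
      obtain ⟨v, hv, rfl⟩ := hx
      obtain ⟨w, hw, rfl⟩ := hy
      rw [Finset.mem_filter] at hv hw
      exact h v hv.1 hv.2 w hw.1 hw.2
  have p1 : ∀ A : Finset E, M.Spanning (insert e (insert f (A : Set E))) ↔
      1 ≤ ((A.filter (fun x => ¬ L x)).image c).card := by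
    intro A
    rw [fB, sp_ef hE hr hef hfe]
  have p2 : ∀ A : Finset E, M.Spanning (insert e (A : Set E)) ↔
      1 ≤ ((A.filter (fun x => ¬ L x)).image c).card ∧
      ¬ (Row ((A.filter (fun x => ¬ L x)).image c) ∧ qe (A.filter L)) := by
    intro A
    rw [fB, fR, sp_e hE hr hef]
    have : qe (A.filter L) ↔ ∀ x ∈ (A : Set E), x ∈ M.closure {e, f} → x ∈ M.closure {e} := by
      simp only [hqe, hL, Finset.mem_filter, Finset.mem_coe]
      exact ⟨fun h x h1 h2 => h x ⟨h1, h2⟩, fun h x h1 => h x h1.1 h1.2⟩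
    rw [this]
  have p3 : ∀ A : Finset E, M.Spanning (insert f (A : Set E)) ↔
      1 ≤ ((A.filter (fun x => ¬ L x)).image c).card ∧
      ¬ (Col ((A.filter (fun x => ¬ L x)).image c) ∧ qf (A.filter L)) := by
    intro A
    rw [fB, fC, sp_e hE hr hfe, Set.pair_comm f e]
    have : qf (A.filter L) ↔ ∀ x ∈ (A : Set E), x ∈ M.closure {e, f} → x ∈ M.closure {f} := by
      simp only [hqf, hL, Finset.mem_filter, Finset.mem_coe]
      exact ⟨fun h x h1 h2 => h x ⟨h1, h2⟩, fun h x h1 => h x h1.1 h1.2⟩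
    rw [this]
  have hsub : ∀ X : Set E, X ⊆ M.E := fun X => by rw [hE]; exact Set.subset_univ _
  have p4 : ∀ A : Finset E, M.Spanning (A : Set E) →
      ¬ (((A.filter (fun x => ¬ L x)).image c).card = 2 ∧ q0 (A.filter L)) := by
    rintro A hA ⟨h1, h2⟩
    obtain ⟨c1, c2, -, hB⟩ := Finset.card_eq_two.1 h1
    have m1 : c1 ∈ (A.filter (fun x => ¬ L x)).image c := by rw [hB]; simp
    have m2 : c2 ∈ (A.filter (fun x => ¬ L x)).image c := by rw [hB]; simp
    rw [Finset.mem_image] at m1 m2
    obtain ⟨v1, hv1, rfl⟩ := m1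
    obtain ⟨v2, hv2, rfl⟩ := m2
    rw [Finset.mem_filter] at hv1 hv2
    refine two_pts hr (v := v1) (w := v2) ?_ hA
    intro x hx
    by_cases hxL : L x
    · left; exact h2 x (Finset.mem_filter.2 ⟨hx, hxL⟩)
    · right
      have : c x ∈ (A.filter (fun x => ¬ L x)).image c :=
        Finset.mem_image_of_mem _ (Finset.mem_filter.2 ⟨hx, hxL⟩)
      rw [hB, Finset.mem_insert, Finset.mem_singleton] at this
      rcases this with h | h
      · left
        exact cell_par hE hr hef hfe hv1.2 (congrArg Prod.fst h) (congrArg Prod.snd h)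
      · right
        exact cell_par hE hr hef hfe hv2.2 (congrArg Prod.fst h) (congrArg Prod.snd h)
  have p5 : ∀ A : Finset E, M.Spanning (A : Set E) →
      ¬ (((A.filter (fun x => ¬ L x)).image c).card = 1 ∧ qs (A.filter L)) := by
    rintro A hA ⟨h1, y, hy, -, -, hy2⟩
    obtain ⟨c1, hB⟩ := Finset.card_eq_one.1 h1
    have m1 : c1 ∈ (A.filter (fun x => ¬ L x)).image c := by rw [hB]; simp
    rw [Finset.mem_image] at m1
    obtain ⟨v1, hv1, rfl⟩ := m1
    rw [Finset.mem_filter] at hv1
    refine two_pts hr (v := v1) (w := y) ?_ hA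
    intro x hx
    by_cases hxL : L x
    · by_cases hxy : x = y
      · right; right; rw [hxy]
        exact M.mem_closure_of_mem (by simp) (hsub _)
      · left; exact hy2 x (Finset.mem_filter.2 ⟨hx, hxL⟩) hxy
    · right; left
      have : c x ∈ (A.filter (fun x => ¬ L x)).image c :=
        Finset.mem_image_of_mem _ (Finset.mem_filter.2 ⟨hx, hxL⟩)
      rw [hB, Finset.mem_singleton] at this
      exact cell_par hE hr hef hfe hv1.2 (congrArg Prod.fst this) (congrArg Prod.snd this)
  -- the sums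
  have T : ∀ (p : Finset (Set E × Set E) → Prop) (q : Finset E → Prop) [DecidablePred p]
      [DecidablePred q], ∑ A ∈ U.powerset, wt z A *
        ((if p ((A.filter (fun x => ¬ L x)).image c) then 1 else 0) *
          (if q (A.filter L) then 1 else 0)) =
      (∑ A ∈ (U.filter L).powerset.filter q, wt z A) *
        (∑ B ∈ Finset.univ.filter p, wt w B) := by
    intro p q _ _
    rw [transfer z U L c (fun A B => (if p B then 1 else 0) * (if q A then 1 else 0))]
    exact fac z w _ p q
  have hw1 : ∀ A : Finset E, 0 ≤ wt z A := fun A => wt_nonneg hz A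
  have hw2 : ∀ B, 0 ≤ wt w B := fun B => wt_nonneg hw0 B
  have hSef : ∑ A ∈ U.powerset, wt z A *
      (if M.Spanning (insert e (insert f (A : Set E))) then 1 else 0) =
      (∑ A ∈ (U.filter L).powerset.filter (fun _ => True), wt z A) *
        (∑ B ∈ Finset.univ.filter (fun B : Finset (Set E × Set E) => 1 ≤ B.card), wt w B) := by
    rw [← T]
    apply Finset.sum_congr rfl
    intro A _
    rw [if_congr (p1 A) rfl rfl]
    simp only [if_true, mul_one]
  have hSe : ∑ A ∈ U.powerset, wt z A * (if M.Spanning (insert e (A : Set E)) then 1 else 0) =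
      (∑ A ∈ (U.filter L).powerset.filter (fun _ => True), wt z A) *
        (∑ B ∈ Finset.univ.filter (fun B : Finset (Set E × Set E) => 1 ≤ B.card), wt w B) -
      (∑ A ∈ (U.filter L).powerset.filter qe, wt z A) * sg w 1 Row := by
    unfold sg
    rw [← T, ← T, ← Finset.sum_sub_distrib]
    apply Finset.sum_congr rfl
    intro A _
    rw [← mul_sub, if_congr (p2 A) rfl rfl]
    congr 1
    by_cases h1 : 1 ≤ ((A.filter (fun x => ¬ L x)).image c).card <;>
    by_cases h2 : Row ((A.filter (fun x => ¬ L x)).image c) <;>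
    by_cases h3 : qe (A.filter L) <;> simp [h1, h2, h3]
  have hSf : ∑ A ∈ U.powerset, wt z A * (if M.Spanning (insert f (A : Set E)) then 1 else 0) =
      (∑ A ∈ (U.filter L).powerset.filter (fun _ => True), wt z A) *
        (∑ B ∈ Finset.univ.filter (fun B : Finset (Set E × Set E) => 1 ≤ B.card), wt w B) -
      (∑ A ∈ (U.filter L).powerset.filter qf, wt z A) * sg w 1 Col := by
    unfold sg
    rw [← T, ← T, ← Finset.sum_sub_distrib]
    apply Finset.sum_congr rfl
    intro A _
    rw [← mul_sub, if_congr (p3 A) rfl rfl]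
    congr 1
    by_cases h1 : 1 ≤ ((A.filter (fun x => ¬ L x)).image c).card <;>
    by_cases h2 : Col ((A.filter (fun x => ¬ L x)).image c) <;>
    by_cases h3 : qf (A.filter L) <;> simp [h1, h2, h3]
  have hS0 : ∑ A ∈ U.powerset, wt z A * (if M.Spanning (A : Set E) then 1 else 0) ≤
      (∑ A ∈ (U.filter L).powerset.filter (fun _ => True), wt z A) *
        (∑ B ∈ Finset.univ.filter (fun B : Finset (Set E × Set E) => 1 ≤ B.card), wt w B) -
      (∑ A ∈ (U.filter L).powerset.filter qe, wt z A) * sg w 1 Row -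
      (∑ A ∈ (U.filter L).powerset.filter qf, wt z A) * sg w 1 Col +
      (∑ A ∈ (U.filter L).powerset.filter q0, wt z A) * (∑ x, w x) -
      (∑ A ∈ (U.filter L).powerset.filter q0, wt z A) * sk w 2 Mix -
      (∑ A ∈ (U.filter L).powerset.filter qs, wt z A) * (∑ x, w x) := by
    rw [sk_eq, s1_eq]
    unfold sg
    rw [← T, ← T, ← T, ← T, ← T, ← T, ← Finset.sum_sub_distrib, ← Finset.sum_sub_distrib,
      ← Finset.sum_add_distrib, ← Finset.sum_sub_distrib, ← Finset.sum_sub_distrib]
    apply Finset.sum_le_sum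
    intro A _
    rw [← mul_sub, ← mul_sub, ← mul_add, ← mul_sub, ← mul_sub]
    apply mul_le_mul_of_nonneg_left _ (hw1 A)
    have hmono : ∀ X Y : Set E, X ⊆ Y → M.Spanning X → M.Spanning Y :=
      fun X Y h hX => hX.superset h (hsub Y)
    apply pw
    · intro h; exact ((p2 A).1 (hmono _ _ (Set.subset_insert _ _) h)).1
    · intro h; exact ((p2 A).1 (hmono _ _ (Set.subset_insert _ _) h)).2
    · intro h; exact ((p3 A).1 (hmono _ _ (Set.subset_insert _ _) h)).2
    · rintro h ⟨h1, h2⟩; exact p4 A h ⟨h1.1, h2⟩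
    · exact p5 A
    · intro h1 h2 x hx; exact inter_loops hef (h1 x hx) (h2 x hx)
    · intro h x hx; exact M.closure_subset_closure (Set.empty_subset _) (h x hx)
    · intro h x hx; exact M.closure_subset_closure (Set.empty_subset _) (h x hx)
    · rintro ⟨y, hy, h1, h2, -⟩ h; exact h1 (h y hy)
    · rintro ⟨y, hy, h1, h2, -⟩ h; exact h2 (h y hy)
    · intro h
      obtain ⟨a, ha⟩ := Finset.card_eq_one.1 h
      rw [ha]
      intro x hx y hy
      rw [Finset.mem_singleton] at hx hy
      rw [hx, hy]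
    · intro h
      obtain ⟨a, ha⟩ := Finset.card_eq_one.1 h
      rw [ha]
      intro x hx y hy
      rw [Finset.mem_singleton] at hx hy
      rw [hx, hy]
    · intro h1 h2 h3
      have := row_col_card h1 h2
      omega
    · intro h; omega
    · intro h; omega
    · intro h; exact h.2.1
    · intro h; exact h.2.2
  -- the products
  have hlT : ∑ A ∈ (U.filter L).powerset.filter (fun _ => True), wt z A =
      ∏ v ∈ (U.filter L).filter (fun _ => True), (1 + z v) :=
    lam z _ (fun _ => True) _ (fun A => by simp)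
  have hlE : ∑ A ∈ (U.filter L).powerset.filter qe, wt z A =
      ∏ v ∈ (U.filter L).filter (fun x => x ∈ M.closure {e}), (1 + z v) :=
    lam z _ (fun x => x ∈ M.closure {e}) _ (fun A => Iff.rfl)
  have hlF : ∑ A ∈ (U.filter L).powerset.filter qf, wt z A =
      ∏ v ∈ (U.filter L).filter (fun x => x ∈ M.closure {f}), (1 + z v) :=
    lam z _ (fun x => x ∈ M.closure {f}) _ (fun A => Iff.rfl)
  have hl0 : ∑ A ∈ (U.filter L).powerset.filter q0, wt z A =
      ∏ v ∈ (U.filter L).filter (fun x => x ∈ M.closure ∅), (1 + z v) :=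
    lam z _ (fun x => x ∈ M.closure ∅) _ (fun A => Iff.rfl)
  set Y : Finset E := (U.filter L).filter
    (fun x => x ∉ M.closure {e} ∧ x ∉ M.closure {f}) with hY
  have hprod : (∏ v ∈ (U.filter L).filter (fun x => x ∈ M.closure ∅), (1 + z v)) *
      (∏ v ∈ (U.filter L).filter (fun _ => True), (1 + z v)) =
      (∏ v ∈ (U.filter L).filter (fun x => x ∈ M.closure {e}), (1 + z v)) *
      (∏ v ∈ (U.filter L).filter (fun x => x ∈ M.closure {f}), (1 + z v)) *
      ∏ v ∈ Y, (1 + z v) := by
    rw [hY]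
    simp only [Finset.prod_filter (s := U.filter L)]
    rw [← Finset.prod_mul_distrib, ← Finset.prod_mul_distrib, ← Finset.prod_mul_distrib]
    apply Finset.prod_congr rfl
    intro x _
    by_cases h1 : x ∈ M.closure {e}
    · by_cases h2 : x ∈ M.closure {f}
      · have h3 := inter_loops hef h1 h2
        simp [h1, h2, h3]
      · have h3 : x ∉ M.closure ∅ :=
          fun h => h2 (M.closure_subset_closure (Set.empty_subset _) h)
        simp [h1, h2, h3]
    · have h3 : x ∉ M.closure ∅ :=
        fun h => h1 (M.closure_subset_closure (Set.empty_subset _) h)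
      by_cases h2 : x ∈ M.closure {f}
      · simp [h1, h2, h3]
      · simp [h1, h2, h3]
  have hlS : (∑ A ∈ (U.filter L).powerset.filter q0, wt z A) * (∑ y ∈ Y, z y) ≤
      ∑ A ∈ (U.filter L).powerset.filter qs, wt z A := by
    rw [Finset.sum_mul_sum, ← Finset.sum_product']
    apply sum_le_of_inj _ (fun t => insert t.2 t.1)
    · rintro ⟨A, y⟩ h
      rw [Finset.mem_product, Finset.mem_filter, Finset.mem_powerset, hY, Finset.mem_filter] at h
      obtain ⟨⟨h1, h2⟩, h3, h4, h5⟩ := h
      rw [Finset.mem_filter, Finset.mem_powerset]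
      refine ⟨Finset.insert_subset h3 h1, y, Finset.mem_insert_self _ _, h4, h5, ?_⟩
      intro x hx hxy
      rw [Finset.mem_insert] at hx
      exact h2 x (hx.resolve_left hxy)
    · rintro ⟨A, y⟩ h ⟨A', y'⟩ h' heq
      rw [Finset.mem_product, Finset.mem_filter, Finset.mem_powerset, hY, Finset.mem_filter]
        at h h'
      obtain ⟨⟨h1, h2⟩, h3, h4, h5⟩ := h
      obtain ⟨⟨h1', h2'⟩, h3', h4', h5'⟩ := h'
      simp only at h1 h2 h3 h4 h5 h1' h2' h3' h4' h5' heq
      have ny : y ∉ A := fun h => h4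
        (M.closure_subset_closure (Set.empty_subset _) (h2 y h))
      have ny' : y ∉ A' := fun h => h4
        (M.closure_subset_closure (Set.empty_subset _) (h2' y h))
      have hyy : y = y' := by
        have : y ∈ insert y' A' := by rw [← heq]; exact Finset.mem_insert_self _ _
        rw [Finset.mem_insert] at this
        exact this.resolve_right ny'
      subst hyy
      rw [Prod.mk.injEq]
      refine ⟨?_, rfl⟩
      rw [← Finset.erase_insert ny, heq, Finset.erase_insert ny']
    · rintro ⟨A, y⟩ h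
      rw [Finset.mem_product, Finset.mem_filter, Finset.mem_powerset, hY, Finset.mem_filter] at h
      obtain ⟨⟨h1, h2⟩, h3, h4, h5⟩ := h
      have ny : y ∉ A := fun h => h4
        (M.closure_subset_closure (Set.empty_subset _) (h2 y h))
      simp only
      unfold wt
      rw [Finset.prod_insert ny, mul_comm]
    · intro A _
      exact hw1 A
  have hgrid := grid w hw0
  have hPi := prod_mul_sub hz Y
  have hPi1 := one_le_prod hz Y
  have hP0 : 0 ≤ sk w 2 Mix := by
    unfold sk
    exact Finset.sum_nonneg fun B _ => hw2 B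
  have hZ0 : 0 ≤ ∑ x, w x := Finset.sum_nonneg fun x _ => hw0 x
  have hWm : 0 ≤ ∑ B ∈ Finset.univ.filter
      (fun B : Finset (Set E × Set E) => 1 ≤ B.card), wt w B :=
    Finset.sum_nonneg fun B _ => hw2 B
  have hlE0 : 0 ≤ ∑ A ∈ (U.filter L).powerset.filter qe, wt z A :=
    Finset.sum_nonneg fun B _ => hw1 B
  have hlF0 : 0 ≤ ∑ A ∈ (U.filter L).powerset.filter qf, wt z A :=
    Finset.sum_nonneg fun B _ => hw1 B
  have hlT0 : 0 ≤ ∑ A ∈ (U.filter L).powerset.filter (fun _ => True), wt z A :=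
    Finset.sum_nonneg fun B _ => hw1 B
  rw [← hlT, ← hlE, ← hlF, ← hl0] at hprod
  rw [hSef, hSe, hSf]
  have hSef0 : 0 ≤ (∑ A ∈ (U.filter L).powerset.filter (fun _ => True), wt z A) *
        (∑ B ∈ Finset.univ.filter (fun B : Finset (Set E × Set E) => 1 ≤ B.card), wt w B) :=
    mul_nonneg hlT0 hWm
  refine (mul_le_mul_of_nonneg_left hS0 hSef0).trans ?_
  generalize (∑ A ∈ (U.filter L).powerset.filter (fun _ => True), wt z A) = lT at *
  generalize (∑ A ∈ (U.filter L).powerset.filter qe, wt z A) = lE at *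
  generalize (∑ A ∈ (U.filter L).powerset.filter qf, wt z A) = lF at *
  generalize (∑ A ∈ (U.filter L).powerset.filter q0, wt z A) = l0 at *
  generalize (∑ A ∈ (U.filter L).powerset.filter qs, wt z A) = lS at *
  generalize (∑ B ∈ Finset.univ.filter
    (fun B : Finset (Set E × Set E) => 1 ≤ B.card), wt w B) = Wm at *
  generalize sg w 1 Row = R at *
  generalize sg w 1 Col = C at *
  generalize sk w 2 Mix = P at *
  generalize (∑ x, w x) = Z at *
  generalize (∑ y ∈ Y, z y) = y at *
  generalize (∏ v ∈ Y, (1 + z v)) = Q at *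
  -- the final computation
  have g1 : Q * (Z - P - y * Z) ≤ Z - P := by
    have a1 := mul_le_mul_of_nonneg_right hPi hZ0
    have a2 := mul_le_mul_of_nonneg_right hPi1 hP0
    nlinarith
  have g2 : Wm * (Q * (Z - P - y * Z)) ≤ R * C :=
    (mul_le_mul_of_nonneg_left g1 hWm).trans hgrid
  have g3 : lE * lF * (Wm * (Q * (Z - P - y * Z))) ≤ lE * lF * (R * C) :=
    mul_le_mul_of_nonneg_left g2 (mul_nonneg hlE0 hlF0)
  have g4 : lE * lF * (Wm * (Q * (Z - P - y * Z))) = l0 * lT * Wm * (Z - P - y * Z) := by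
    rw [hprod]; ring
  have g5 : lT * Wm * (l0 * y * Z) ≤ lT * Wm * (lS * Z) :=
    mul_le_mul_of_nonneg_left (mul_le_mul_of_nonneg_right hlS hZ0) hSef0
  nlinarith [g3, g4, g5]

end Pool.Agent.Lib.MP_16c009_co
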