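import Mathlib
import Pool.Agent.Lib.MP_16c009_co.Core

/-!
# The correlation inequalities for matroids of rank (or corank) three
-/

open Finset Classical

namespace Pool.Agent.Lib.MP_16c009_co

/-- splitting a sum over all sets according to two elements -/
lemma split_ef {E : Type*} [Fintype E] [DecidableEq E] {e f : E} (hef : e ≠ f)
    (G : Finset E → ℝ) :
    ∑ A : Finset E, G A = ∑ A ∈ ((Finset.univ.erase e).erase f).powerset,
      (G A + G (insert f A) + G (insert e A) + G (insert e (insert f A))) := by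
  have h1 : (Finset.univ : Finset (Finset E)) =
      (insert e (insert f ((Finset.univ.erase e).erase f))).powerset := by
    rw [Finset.insert_erase (Finset.mem_erase.2 ⟨hef.symm, Finset.mem_univ _⟩),
      Finset.insert_erase (Finset.mem_univ _), Finset.powerset_univ]
  have he : e ∉ insert f ((Finset.univ.erase e).erase f) := by
    rw [Finset.insert_erase (Finset.mem_erase.2 ⟨hef.symm, Finset.mem_univ _⟩)]
    exact Finset.notMem_erase _ _
  have hf : f ∉ (Finset.univ.erase e).erase f := Finset.notMem_erase _ _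
  rw [h1, Finset.sum_powerset_insert he, Finset.sum_powerset_insert hf,
    Finset.sum_powerset_insert hf, ← Finset.sum_add_distrib, ← Finset.sum_add_distrib,
    ← Finset.sum_add_distrib]
  apply Finset.sum_congr rfl
  intro A _
  ring

theorem spanning_three {E : Type*} [Fintype E] [DecidableEq E] (M : Matroid E)
    (hE : M.E = Set.univ) (hr : M.eRank = 3) (z : E → ℝ) (hz : ∀ a, 0 < z a) (e f : E)
    (hef : e ≠ f) :
    (∑ A ∈ (Finset.univ : Finset (Finset E)).filter
        (fun A : Finset E => M.Spanning (A : Set E) ∧ e ∈ A), ∏ a ∈ A, z a) *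
      (∑ A ∈ (Finset.univ : Finset (Finset E)).filter
        (fun A : Finset E => M.Spanning (A : Set E) ∧ f ∈ A), ∏ a ∈ A, z a) ≥
      (∑ A ∈ (Finset.univ : Finset (Finset E)).filter
        (fun A : Finset E => M.Spanning (A : Set E) ∧ e ∈ A ∧ f ∈ A), ∏ a ∈ A, z a) *
      (∑ A ∈ (Finset.univ : Finset (Finset E)).filter
        (fun A : Finset E => M.Spanning (A : Set E)), ∏ a ∈ A, z a) := by
  set U := (Finset.univ.erase e).erase f with hU
  set S0 := ∑ A ∈ U.powerset, wt z A * (if M.Spanning (A : Set E) then 1 else 0) with hS0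
  set Se := ∑ A ∈ U.powerset, wt z A * (if M.Spanning (insert e (A : Set E)) then 1 else 0)
    with hSe
  set Sf := ∑ A ∈ U.powerset, wt z A * (if M.Spanning (insert f (A : Set E)) then 1 else 0)
    with hSf
  set Sef := ∑ A ∈ U.powerset, wt z A *
    (if M.Spanning (insert e (insert f (A : Set E))) then 1 else 0) with hSef
  have hz0 : ∀ a, 0 ≤ z a := fun a => (hz a).le
  have hmemU : ∀ A ∈ U.powerset, e ∉ A ∧ f ∉ A := by
    intro A hA
    rw [Finset.mem_powerset] at hA
    constructor
    · intro h
      have := hA h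
      rw [hU, Finset.mem_erase, Finset.mem_erase] at this
      exact this.2.1 rfl
    · intro h
      have := hA h
      rw [hU, Finset.mem_erase] at this
      exact this.1 rfl
  -- core inequality
  have hmono : ∀ X Y : Set E, X ⊆ Y → M.Spanning X → M.Spanning Y :=
    fun X Y h hX => hX.superset h (by rw [hE]; exact Set.subset_univ _)
  have hclo : ∀ (X : Set E) (x : E), x ∈ M.closure X → M.Spanning (insert x X) →
      M.Spanning X := by
    intro X x hx h
    rw [Matroid.spanning_iff_closure_eq (by rw [hE]; exact Set.subset_univ _)] at h ⊢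
    rw [← h, M.closure_insert_eq_of_mem_closure hx]
  have hle : ∀ (P Q : Finset E → Prop) [DecidablePred P] [DecidablePred Q],
      (∀ A, P A → Q A) → ∑ A ∈ U.powerset, wt z A * (if P A then 1 else 0) ≤
      ∑ A ∈ U.powerset, wt z A * (if Q A then 1 else 0) := by
    intro P Q _ _ h
    apply Finset.sum_le_sum
    intro A _
    apply mul_le_mul_of_nonneg_left _ (wt_nonneg hz0 A)
    by_cases hP : P A
    · simp [hP, h A hP]
    · by_cases hQ : Q A <;> simp [hP, hQ]
  have hnn : ∀ (P : Finset E → Prop) [DecidablePred P],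
      0 ≤ ∑ A ∈ U.powerset, wt z A * (if P A then (1 : ℝ) else 0) := by
    intro P _
    apply Finset.sum_nonneg
    intro A _
    apply mul_nonneg (wt_nonneg hz0 A)
    split_ifs <;> norm_num
  have hmain : Sef * S0 ≤ Se * Sf := by
    by_cases h1 : f ∈ M.closure {e}
    · have e1 : Sef ≤ Se := hle _ _ (fun A h => by
        rw [Set.insert_comm] at h
        exact hclo _ f (M.closure_subset_closure (by simp) h1) h)
      have e2 : S0 ≤ Sf := hle _ _ (fun A h => hmono _ _ (Set.subset_insert _ _) h)
      exact mul_le_mul e1 e2 (hnn _) (hnn _)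
    · by_cases h2 : e ∈ M.closure {f}
      · have e1 : Sef ≤ Sf := hle _ _ (fun A h =>
          hclo _ e (M.closure_subset_closure (by simp) h2) h)
        have e2 : S0 ≤ Se := hle _ _ (fun A h => hmono _ _ (Set.subset_insert _ _) h)
        rw [mul_comm Se Sf]
        exact mul_le_mul e1 e2 (hnn _) (hnn _)
      · have := core M hE hr z hz0 e f h2 h1 U
        exact this
  -- the sums over all sets
  have hwe : ∀ A ∈ U.powerset, wt z (insert e A) = z e * wt z A := fun A hA =>
    Finset.prod_insert (hmemU A hA).1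
  have hwf : ∀ A ∈ U.powerset, wt z (insert f A) = z f * wt z A := fun A hA =>
    Finset.prod_insert (hmemU A hA).2
  have hwef : ∀ A ∈ U.powerset, wt z (insert e (insert f A)) = z e * z f * wt z A := by
    intro A hA
    have : e ∉ insert f A := by
      rw [Finset.mem_insert, not_or]
      exact ⟨hef, (hmemU A hA).1⟩
    unfold wt
    rw [Finset.prod_insert this, Finset.prod_insert (hmemU A hA).2, mul_assoc]
  have hs : ∑ A ∈ (Finset.univ : Finset (Finset E)).filter
        (fun A : Finset E => M.Spanning (A : Set E)), ∏ a ∈ A, z a =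
      S0 + z f * Sf + z e * Se + z e * z f * Sef := by
    rw [Finset.sum_filter, split_ef hef]
    rw [hS0, hSe, hSf, hSef, Finset.mul_sum, Finset.mul_sum, Finset.mul_sum,
      ← Finset.sum_add_distrib, ← Finset.sum_add_distrib, ← Finset.sum_add_distrib]
    apply Finset.sum_congr rfl
    intro A hA
    have a1 := hwe A hA
    have a2 := hwf A hA
    have a3 := hwef A hA
    unfold wt at a1 a2 a3
    rw [a1, a2, a3]
    unfold wt
    simp only [Finset.coe_insert]
    split_ifs <;> ring
  have hse : ∑ A ∈ (Finset.univ : Finset (Finset E)).filter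
        (fun A : Finset E => M.Spanning (A : Set E) ∧ e ∈ A), ∏ a ∈ A, z a =
      z e * Se + z e * z f * Sef := by
    rw [Finset.sum_filter, split_ef hef]
    rw [hSe, hSef, Finset.mul_sum, Finset.mul_sum, ← Finset.sum_add_distrib]
    apply Finset.sum_congr rfl
    intro A hA
    have a1 := hwe A hA
    have a2 := hwf A hA
    have a3 := hwef A hA
    have b1 := (hmemU A hA).1
    unfold wt at a1 a2 a3
    rw [a1, a2, a3]
    unfold wt
    simp only [Finset.coe_insert, b1, Finset.mem_insert, hef, or_false, or_true, true_or,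
      and_true, and_false, if_false]
    split_ifs <;> ring
  have hsf : ∑ A ∈ (Finset.univ : Finset (Finset E)).filter
        (fun A : Finset E => M.Spanning (A : Set E) ∧ f ∈ A), ∏ a ∈ A, z a =
      z f * Sf + z e * z f * Sef := by
    rw [Finset.sum_filter, split_ef hef]
    rw [hSf, hSef, Finset.mul_sum, Finset.mul_sum, ← Finset.sum_add_distrib]
    apply Finset.sum_congr rfl
    intro A hA
    have a1 := hwe A hA
    have a2 := hwf A hA
    have a3 := hwef A hA
    have b2 := (hmemU A hA).2
    unfold wt at a1 a2 a3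
    rw [a1, a2, a3]
    unfold wt
    simp only [Finset.coe_insert, b2, Finset.mem_insert, hef.symm, or_false, or_true, true_or,
      and_true, and_false, if_false]
    split_ifs <;> ring
  have hsef : ∑ A ∈ (Finset.univ : Finset (Finset E)).filter
        (fun A : Finset E => M.Spanning (A : Set E) ∧ e ∈ A ∧ f ∈ A), ∏ a ∈ A, z a =
      z e * z f * Sef := by
    rw [Finset.sum_filter, split_ef hef]
    rw [hSef, Finset.mul_sum]
    apply Finset.sum_congr rfl
    intro A hA
    have a3 := hwef A hA
    have b1 := (hmemU A hA).1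
    have b2 := (hmemU A hA).2
    unfold wt at a3
    rw [a3]
    unfold wt
    simp only [Finset.coe_insert, b1, b2, Finset.mem_insert, hef, hef.symm, or_false, or_true,
      true_or, and_true, and_false, if_false]
    split_ifs <;> ring
  rw [hs, hse, hsf, hsef, ge_iff_le]
  have hzz : 0 ≤ z e * z f := mul_nonneg (hz0 e) (hz0 f)
  nlinarith [mul_le_mul_of_nonneg_left hmain hzz]

theorem indep_three {E : Type*} [Fintype E] [DecidableEq E] (M : Matroid E)
    (hE : M.E = Set.univ) (hr : M✶.eRank = 3) (z : E → ℝ) (hz : ∀ a, 0 < z a) (e f : E)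
    (hef : e ≠ f) :
    (∑ A ∈ (Finset.univ : Finset (Finset E)).filter
        (fun A : Finset E => M.Indep (A : Set E) ∧ e ∈ A), ∏ a ∈ A, z a) *
      (∑ A ∈ (Finset.univ : Finset (Finset E)).filter
        (fun A : Finset E => M.Indep (A : Set E) ∧ f ∈ A), ∏ a ∈ A, z a) ≥
      (∑ A ∈ (Finset.univ : Finset (Finset E)).filter
        (fun A : Finset E => M.Indep (A : Set E) ∧ e ∈ A ∧ f ∈ A), ∏ a ∈ A, z a) *
      (∑ A ∈ (Finset.univ : Finset (Finset E)).filter
        (fun A : Finset E => M.Indep (A : Set E)), ∏ a ∈ A, z a) := by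
  have hN : M✶.E = Set.univ := by rw [Matroid.dual_ground, hE]
  have hmain := spanning_three M✶ hN hr (fun a => (z a)⁻¹) (fun a => inv_pos.2 (hz a)) e f hef
  have hZ : 0 < ∏ a, z a := Finset.prod_pos fun a _ => hz a
  have hsp : ∀ S : Finset E, M✶.Spanning (S : Set E) ↔ M.Indep ((Sᶜ : Finset E) : Set E) := by
    intro S
    rw [Matroid.spanning_iff_compl_coindep (by rw [hN]; exact Set.subset_univ _), hN,
      Matroid.coindep_def, Matroid.dual_dual, Finset.coe_compl, Set.compl_eq_univ_sdiff]
  have key : ∀ (P : Finset E → Prop) [DecidablePred P],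
      ∑ A ∈ (Finset.univ : Finset (Finset E)).filter
        (fun A : Finset E => M.Indep (A : Set E) ∧ P A), ∏ a ∈ A, z a =
      (∏ a, z a) * ∑ S ∈ (Finset.univ : Finset (Finset E)).filter
        (fun S : Finset E => M✶.Spanning (S : Set E) ∧ P Sᶜ), ∏ a ∈ S, (z a)⁻¹ := by
    intro P _
    rw [Finset.mul_sum]
    apply Finset.sum_nbij' (fun A => Aᶜ) (fun A => Aᶜ)
    · intro A hA
      rw [Finset.mem_filter] at hA ⊢
      rw [hsp, compl_compl]
      exact ⟨Finset.mem_univ _, hA.2⟩
    · intro A hA
      rw [Finset.mem_filter] at hA ⊢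
      rw [hsp] at hA
      exact ⟨Finset.mem_univ _, hA.2⟩
    · intro A _; exact compl_compl A
    · intro A _; exact compl_compl A
    · intro A _
      rw [← Finset.prod_mul_prod_compl A z, Finset.prod_inv_distrib, mul_assoc,
        mul_inv_cancel₀, mul_one]
      exact Finset.prod_ne_zero_iff.2 fun a _ => (hz a).ne'
  have k0 : ∑ A ∈ (Finset.univ : Finset (Finset E)).filter
        (fun A : Finset E => M.Indep (A : Set E)), ∏ a ∈ A, z a =
      (∏ a, z a) * ∑ S ∈ (Finset.univ : Finset (Finset E)).filter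
        (fun S : Finset E => M✶.Spanning (S : Set E)), ∏ a ∈ S, (z a)⁻¹ := by
    have := key (fun _ => True)
    simpa only [and_true] using this
  have ke := key (fun A => e ∈ A)
  have kf := key (fun A => f ∈ A)
  have kef := key (fun A => e ∈ A ∧ f ∈ A)
  have de : ∑ S ∈ (Finset.univ : Finset (Finset E)).filter
        (fun S : Finset E => M✶.Spanning (S : Set E) ∧ e ∈ Sᶜ), ∏ a ∈ S, (z a)⁻¹ =
      ∑ S ∈ (Finset.univ : Finset (Finset E)).filter
        (fun S : Finset E => M✶.Spanning (S : Set E)), ∏ a ∈ S, (z a)⁻¹ -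
      ∑ S ∈ (Finset.univ : Finset (Finset E)).filter
        (fun S : Finset E => M✶.Spanning (S : Set E) ∧ e ∈ S), ∏ a ∈ S, (z a)⁻¹ := by
    simp only [Finset.sum_filter]
    rw [← Finset.sum_sub_distrib]
    apply Finset.sum_congr rfl
    intro S _
    by_cases h1 : M✶.Spanning (S : Set E) <;> by_cases h2 : e ∈ S <;> simp [h1, h2]
  have df : ∑ S ∈ (Finset.univ : Finset (Finset E)).filter
        (fun S : Finset E => M✶.Spanning (S : Set E) ∧ f ∈ Sᶜ), ∏ a ∈ S, (z a)⁻¹ =
      ∑ S ∈ (Finset.univ : Finset (Finset E)).filter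
        (fun S : Finset E => M✶.Spanning (S : Set E)), ∏ a ∈ S, (z a)⁻¹ -
      ∑ S ∈ (Finset.univ : Finset (Finset E)).filter
        (fun S : Finset E => M✶.Spanning (S : Set E) ∧ f ∈ S), ∏ a ∈ S, (z a)⁻¹ := by
    simp only [Finset.sum_filter]
    rw [← Finset.sum_sub_distrib]
    apply Finset.sum_congr rfl
    intro S _
    by_cases h1 : M✶.Spanning (S : Set E) <;> by_cases h2 : f ∈ S <;> simp [h1, h2]
  have def' : ∑ S ∈ (Finset.univ : Finset (Finset E)).filter
        (fun S : Finset E => M✶.Spanning (S : Set E) ∧ e ∈ Sᶜ ∧ f ∈ Sᶜ), ∏ a ∈ S, (z a)⁻¹ =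
      ∑ S ∈ (Finset.univ : Finset (Finset E)).filter
        (fun S : Finset E => M✶.Spanning (S : Set E)), ∏ a ∈ S, (z a)⁻¹ -
      ∑ S ∈ (Finset.univ : Finset (Finset E)).filter
        (fun S : Finset E => M✶.Spanning (S : Set E) ∧ e ∈ S), ∏ a ∈ S, (z a)⁻¹ -
      ∑ S ∈ (Finset.univ : Finset (Finset E)).filter
        (fun S : Finset E => M✶.Spanning (S : Set E) ∧ f ∈ S), ∏ a ∈ S, (z a)⁻¹ +
      ∑ S ∈ (Finset.univ : Finset (Finset E)).filter
        (fun S : Finset E => M✶.Spanning (S : Set E) ∧ e ∈ S ∧ f ∈ S), ∏ a ∈ S, (z a)⁻¹ := by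
    simp only [Finset.sum_filter]
    rw [← Finset.sum_sub_distrib, ← Finset.sum_sub_distrib, ← Finset.sum_add_distrib]
    apply Finset.sum_congr rfl
    intro S _
    by_cases h1 : M✶.Spanning (S : Set E) <;> by_cases h2 : e ∈ S <;>
      by_cases h3 : f ∈ S <;> simp [h1, h2, h3]
  rw [k0, ke, kf, kef, de, df, def', ge_iff_le]
  rw [ge_iff_le] at hmain
  nlinarith [mul_le_mul_of_nonneg_left hmain (mul_pos hZ hZ).le]

end Pool.Agent.Lib.MP_16c009_co
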