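import Mathlib
import Pool.Agent.Lib.MP_16c009_co.Sets

/-!
# Moving one element between two sets: comparison of products of generating sums
-/

open Finset

namespace Pool.Agent.Lib.MP_16c009_co

variable {E : Type*} [DecidableEq E]

/-- the elements of `A \ S` whose removal from `A` leads into the family `B` -/
def good (B : Finset (Finset E)) (S A : Finset E) : Finset E :=
  (A \ S).filter (fun x => A.erase x ∈ B)

/-- Moving an element from `A` to `S`. -/
theorem move (z : E → ℝ) (hz : ∀ x, 0 ≤ z x) (U : Finset E) (k : ℕ)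
    (F B : Finset (Finset E)) (hF : ∀ A ∈ F, A ⊆ U)
    (h : ∀ A ∈ F, ∀ S ∈ U.powersetCard k, k + 1 ≤ (S ∩ A).card + (good B S A).card) :
    es z k U * ∑ A ∈ F, wt z A ≤ es z (k + 1) U * ∑ C ∈ B, wt z C := by
  classical
  unfold es
  rw [Finset.sum_mul_sum, Finset.sum_mul_sum, ← Finset.sum_product', ← Finset.sum_product']
  set X := U.powersetCard k ×ˢ F with hX
  set Y := U.powersetCard (k + 1) ×ˢ B with hY
  set g1 : Finset E × Finset E → ℝ := fun p =>
    wt z p.1 * wt z p.2 / ((k : ℝ) + 1 - ((p.1 ∩ p.2).card : ℝ)) with hg1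
  set s1 : Finset E × Finset E → Finset E := fun p => good B p.1 p.2 with hs1
  set s2 : Finset E × Finset E → Finset E := fun p =>
    (p.1 \ p.2).filter (fun x => insert x p.2 ∈ F) with hs2
  have hw : ∀ p : Finset E × Finset E, 0 ≤ wt z p.1 * wt z p.2 := fun p =>
    mul_nonneg (wt_nonneg hz _) (wt_nonneg hz _)
  have step1 : ∑ p ∈ X, wt z p.1 * wt z p.2 ≤ ∑ p ∈ X, ∑ x ∈ s1 p, g1 p := by
    apply Finset.sum_le_sum
    intro p hp
    rw [hX, Finset.mem_product] at hp
    rw [Finset.sum_const, nsmul_eq_mul]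
    have h1 := h p.2 hp.2 p.1 hp.1
    have hcard : (p.1 ∩ p.2).card ≤ k := by
      calc (p.1 ∩ p.2).card ≤ p.1.card := Finset.card_le_card Finset.inter_subset_left
        _ = k := (Finset.mem_powersetCard.1 hp.1).2
    have hpos : (0 : ℝ) < (k : ℝ) + 1 - ((p.1 ∩ p.2).card : ℝ) := by
      have : ((p.1 ∩ p.2).card : ℝ) ≤ k := by exact_mod_cast hcard
      linarith
    have h2 : (k : ℝ) + 1 - ((p.1 ∩ p.2).card : ℝ) ≤ ((s1 p).card : ℝ) := by
      have : ((k + 1 : ℕ) : ℝ) ≤ (((p.1 ∩ p.2).card + (good B p.1 p.2).card : ℕ) : ℝ) := by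
        exact_mod_cast h1
      push_cast at this
      rw [hs1]
      linarith
    calc wt z p.1 * wt z p.2 = ((k : ℝ) + 1 - ((p.1 ∩ p.2).card : ℝ)) * g1 p := by
          rw [hg1]; field_simp
      _ ≤ ((s1 p).card : ℝ) * g1 p :=
          mul_le_mul_of_nonneg_right h2 (div_nonneg (hw p) hpos.le)
  have step2 : ∑ p ∈ X, ∑ x ∈ s1 p, g1 p = ∑ p ∈ Y, ∑ x ∈ s2 p, g1 p := by
    rw [Finset.sum_sigma', Finset.sum_sigma']
    refine Finset.sum_bij' (fun t _ => ⟨(insert t.2 t.1.1, t.1.2.erase t.2), t.2⟩)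
      (fun t _ => ⟨(t.1.1.erase t.2, insert t.2 t.1.2), t.2⟩) ?_ ?_ ?_ ?_ ?_
    · rintro ⟨⟨S, A⟩, x⟩ ht
      simp only [hX, hs1, good, Finset.mem_sigma, Finset.mem_product, Finset.mem_powersetCard,
        Finset.mem_filter, Finset.mem_sdiff] at ht
      obtain ⟨⟨⟨hSU, hSk⟩, hAF⟩, ⟨hxA, hxS⟩, hB⟩ := ht
      simp only [hY, hs2, Finset.mem_sigma, Finset.mem_product, Finset.mem_powersetCard,
        Finset.mem_filter, Finset.mem_sdiff, Finset.mem_insert, true_or, Finset.mem_erase,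
        ne_eq, not_true_eq_false, false_and, not_false_eq_true, and_true, true_and]
      refine ⟨⟨⟨Finset.insert_subset (hF A hAF hxA) hSU, ?_⟩, hB⟩, ?_⟩
      · rw [Finset.card_insert_of_notMem hxS, hSk]
      · rw [Finset.insert_erase hxA]; exact hAF
    · rintro ⟨⟨T, C⟩, x⟩ ht
      simp only [hY, hs2, Finset.mem_sigma, Finset.mem_product, Finset.mem_powersetCard,
        Finset.mem_filter, Finset.mem_sdiff] at ht
      obtain ⟨⟨⟨hTU, hTk⟩, hCB⟩, ⟨hxT, hxC⟩, hI⟩ := ht
      simp only [hX, hs1, good, Finset.mem_sigma, Finset.mem_product, Finset.mem_powersetCard,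
        Finset.mem_filter, Finset.mem_sdiff, Finset.mem_insert, true_or, Finset.mem_erase,
        ne_eq, not_true_eq_false, false_and, not_false_eq_true, and_true, true_and]
      refine ⟨⟨⟨(Finset.erase_subset _ _).trans hTU, ?_⟩, hI⟩, ?_⟩
      · rw [Finset.card_erase_of_mem hxT, hTk]; rfl
      · rw [Finset.erase_insert hxC]; exact hCB
    · rintro ⟨⟨S, A⟩, x⟩ ht
      simp only [hX, hs1, good, Finset.mem_sigma, Finset.mem_product, Finset.mem_powersetCard,
        Finset.mem_filter, Finset.mem_sdiff] at ht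
      obtain ⟨⟨⟨hSU, hSk⟩, hAF⟩, ⟨hxA, hxS⟩, hB⟩ := ht
      simp only [Finset.erase_insert hxS, Finset.insert_erase hxA]
    · rintro ⟨⟨T, C⟩, x⟩ ht
      simp only [hY, hs2, Finset.mem_sigma, Finset.mem_product, Finset.mem_powersetCard,
        Finset.mem_filter, Finset.mem_sdiff] at ht
      obtain ⟨⟨⟨hTU, hTk⟩, hCB⟩, ⟨hxT, hxC⟩, hI⟩ := ht
      simp only [Finset.erase_insert hxC, Finset.insert_erase hxT]
    · rintro ⟨⟨S, A⟩, x⟩ ht
      simp only [hX, hs1, good, Finset.mem_sigma, Finset.mem_product, Finset.mem_powersetCard,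
        Finset.mem_filter, Finset.mem_sdiff] at ht
      obtain ⟨⟨⟨hSU, hSk⟩, hAF⟩, ⟨hxA, hxS⟩, hB⟩ := ht
      simp only [hg1]
      have e1 : insert x S ∩ A.erase x = S ∩ A := by
        ext y
        simp only [Finset.mem_inter, Finset.mem_insert, Finset.mem_erase]
        constructor
        · rintro ⟨h1 | h1, h2, h3⟩
          · exact absurd h1 h2
          · exact ⟨h1, h3⟩
        · rintro ⟨h1, h2⟩
          exact ⟨Or.inr h1, fun h => hxS (h ▸ h1), h2⟩
      have e2 : wt z (insert x S) = z x * wt z S := Finset.prod_insert hxS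
      have e3 : wt z A = z x * wt z (A.erase x) := by
        unfold wt
        rw [Finset.mul_prod_erase A z hxA]
      rw [e1, e2, e3]
      ring
  have step3 : ∑ p ∈ Y, ∑ x ∈ s2 p, g1 p ≤ ∑ p ∈ Y, wt z p.1 * wt z p.2 := by
    apply Finset.sum_le_sum
    intro p hp
    rw [hY, Finset.mem_product] at hp
    rw [Finset.sum_const, nsmul_eq_mul]
    have hk : p.1.card = k + 1 := (Finset.mem_powersetCard.1 hp.1).2
    have hc : (p.1 ∩ p.2).card + (p.1 \ p.2).card = k + 1 := by
      rw [add_comm, Finset.card_sdiff_add_card_inter, hk]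
    have hs : (s2 p).card ≤ (p.1 \ p.2).card := Finset.card_filter_le _ _
    rcases Nat.eq_zero_or_pos (p.1 \ p.2).card with h0 | hpos
    · have : (s2 p).card = 0 := by omega
      rw [this]
      simpa using hw p
    · have e : (k : ℝ) + 1 - ((p.1 ∩ p.2).card : ℝ) = ((p.1 \ p.2).card : ℝ) := by
        have : (((p.1 ∩ p.2).card + (p.1 \ p.2).card : ℕ) : ℝ) = ((k + 1 : ℕ) : ℝ) := by rw [hc]
        push_cast at this
        linarith
      have hpos' : (0 : ℝ) < ((p.1 \ p.2).card : ℝ) := by exact_mod_cast hpos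
      have hs' : ((s2 p).card : ℝ) ≤ ((p.1 \ p.2).card : ℝ) := by exact_mod_cast hs
      simp only [hg1, e]
      calc ((s2 p).card : ℝ) * (wt z p.1 * wt z p.2 / ((p.1 \ p.2).card : ℝ))
          ≤ ((p.1 \ p.2).card : ℝ) * (wt z p.1 * wt z p.2 / ((p.1 \ p.2).card : ℝ)) :=
            mul_le_mul_of_nonneg_right hs' (div_nonneg (hw p) hpos'.le)
        _ = wt z p.1 * wt z p.2 := by field_simp
  exact step1.trans (step2.le.trans step3)

end Pool.Agent.Lib.MP_16c009_co
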