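import Mathlib
import Pool.Agent.Lib.MP_16c009_co.PavMove

/-!
# The core inequality for paving matroids
-/

open Finset Classical

namespace Pool.Agent.Lib.MP_16c009_co

/-- splitting a sum over subsets by cardinality -/
lemma lev {E : Type*} (U : Finset E) (F : Finset E → ℝ) (m : ℕ)
    (hF : ∀ A ⊆ U, m < A.card → F A = 0) :
    ∑ A ∈ U.powerset, F A = ∑ k ∈ range (m + 1), ∑ A ∈ U.powersetCard k, F A := by
  rw [← Finset.sum_biUnion]
  · symm
    apply Finset.sum_subset
    · intro A hA
      rw [Finset.mem_biUnion] at hA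
      obtain ⟨k, _, hk⟩ := hA
      exact Finset.mem_powerset.2 (Finset.mem_powersetCard.1 hk).1
    · intro A hA hn
      apply hF A (Finset.mem_powerset.1 hA)
      by_contra hlt
      apply hn
      rw [Finset.mem_biUnion]
      exact ⟨A.card, Finset.mem_range.2 (by omega),
        Finset.mem_powersetCard.2 ⟨Finset.mem_powerset.1 hA, rfl⟩⟩
  · intro i _ j _ hij
    rw [Function.onFun, Finset.disjoint_left]
    intro A hA hB
    exact hij ((Finset.mem_powersetCard.1 hA).2.symm.trans (Finset.mem_powersetCard.1 hB).2)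

/-- the sum over the sets of a given cardinality satisfying a condition -/
noncomputable def sq {E : Type*} (z : E → ℝ) (U : Finset E) (k : ℕ) (Q : Finset E → Prop) : ℝ :=
  ∑ A ∈ U.powersetCard k, wt z A * (if Q A then 1 else 0)

lemma sq_true {E : Type*} (z : E → ℝ) (U : Finset E) (k : ℕ) (Q : Finset E → Prop)
    (h : ∀ A ⊆ U, A.card = k → Q A) : sq z U k Q = es z k U := by
  unfold sq es
  apply Finset.sum_congr rfl
  intro A hA
  rw [Finset.mem_powersetCard] at hA
  rw [if_pos (h A hA.1 hA.2), mul_one]

lemma sq_filter {E : Type*} (z : E → ℝ) (U : Finset E) (k : ℕ) (Q : Finset E → Prop)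
    [DecidablePred Q] : sq z U k Q = ∑ A ∈ (U.powersetCard k).filter Q, wt z A := by
  unfold sq
  rw [Finset.sum_filter]
  apply Finset.sum_congr rfl
  intro A _
  by_cases h : Q A <;> simp [h]

lemma sq_nonneg' {E : Type*} {z : E → ℝ} (hz : ∀ x, 0 ≤ z x) (U : Finset E) (k : ℕ)
    (Q : Finset E → Prop) : 0 ≤ sq z U k Q := by
  rw [sq_filter]
  exact Finset.sum_nonneg fun A _ => wt_nonneg hz A

lemma es_nonneg' {E : Type*} {z : E → ℝ} (hz : ∀ x, 0 ≤ z x) (U : Finset E) (k : ℕ) :
    0 ≤ es z k U := Finset.sum_nonneg fun A _ => wt_nonneg hz A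

section

variable {E : Type*} [Fintype E] [DecidableEq E] {M : Matroid E}

/-- in a paving matroid all small sets are independent -/
lemma small_indep (hE : M.E = Set.univ)
    (hp : ∀ C : Set E, M.IsCircuit C → M.eRank ≤ C.encard) {A : Finset E} {r : ℕ}
    (hr : M.eRank = r) (hA : A.card < r) : M.Indep (A : Set E) := by
  by_contra h
  have hd : M.Dep (A : Set E) := ⟨h, by rw [hE]; exact Set.subset_univ _⟩
  obtain ⟨C, hCA, hC⟩ := hd.exists_isCircuit_subset
  have h1 := hp C hC
  have h2 : C.encard ≤ (A : Set E).encard := Set.encard_le_encard hCA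
  rw [Set.encard_coe_eq_coe_finsetCard] at h2
  rw [hr] at h1
  have h3 := h1.trans h2
  have : r ≤ A.card := by exact_mod_cast h3
  omega

lemma indep_card_le {A : Finset E} {r : ℕ} (hr : M.eRank = r) (hA : M.Indep (A : Set E)) :
    A.card ≤ r := by
  have := hA.encard_le_eRank
  rw [Set.encard_coe_eq_coe_finsetCard, hr] at this
  exact_mod_cast this

/-- a base minus two distinct elements cannot both be spoiled by `e` -/
lemma one_bad (hE : M.E = Set.univ)
    (hp : ∀ C : Set E, M.IsCircuit C → M.eRank ≤ C.encard) {n : ℕ}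
    (hr : M.eRank = (n + 2 : ℕ)) {D : Finset E} (hD : M.Indep (D : Set E)) (hc : D.card = n + 2)
    {e : E} (he : e ∉ D) {x y : E} (hx : x ∈ D) (hy : y ∈ D)
    (bx : ¬ M.Indep ((insert e (D.erase x) : Finset E) : Set E))
    (by' : ¬ M.Indep ((insert e (D.erase y) : Finset E) : Set E)) : x = y := by
  by_contra hxy
  have hIx : M.Indep ((D.erase x : Finset E) : Set E) :=
    hD.subset (by exact_mod_cast Finset.erase_subset _ _)
  have hIy : M.Indep ((D.erase y : Finset E) : Set E) :=
    hD.subset (by exact_mod_cast Finset.erase_subset _ _)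
  have hmem : ∀ w : E, M.Indep ((D.erase w : Finset E) : Set E) →
      ¬ M.Indep ((insert e (D.erase w) : Finset E) : Set E) →
      e ∈ M.closure ((D.erase w : Finset E) : Set E) := by
    intro w hw hb
    by_contra hn
    apply hb
    rw [Finset.coe_insert]
    exact ((hw.notMem_closure_iff (by rw [hE]; exact Set.mem_univ _)).1 hn).1
  have ex := hmem x hIx bx
  have ey := hmem y hIy by'
  have hun : M.Indep (((D.erase x : Finset E) : Set E) ∪ ((D.erase y : Finset E) : Set E)) :=
    hD.subset (by
      rw [Set.union_subset_iff]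
      exact ⟨by exact_mod_cast Finset.erase_subset _ _, by exact_mod_cast Finset.erase_subset _ _⟩)
  have hcl := hun.closure_inter_eq_inter_closure
  have he' : e ∈ M.closure (((D.erase x : Finset E) : Set E) ∩ ((D.erase y : Finset E) : Set E)) := by
    rw [hcl]; exact ⟨ex, ey⟩
  set C := (D.erase x).erase y with hC
  have hCc : C.card = n := by
    rw [hC, Finset.card_erase_of_mem (Finset.mem_erase.2 ⟨fun h => hxy h.symm, hy⟩),
      Finset.card_erase_of_mem hx, hc]; rfl
  have hCs : (((D.erase x : Finset E) : Set E) ∩ ((D.erase y : Finset E) : Set E)) =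
      ((C : Finset E) : Set E) := by
    rw [hC]
    ext w
    simp only [Finset.coe_erase, Set.mem_inter_iff, Set.mem_sdiff, Finset.mem_coe,
      Set.mem_singleton_iff]
    tauto
  rw [hCs] at he'
  have heC : e ∉ C := fun h => he (Finset.mem_of_mem_erase (Finset.mem_of_mem_erase h))
  have hIc : M.Indep ((insert e C : Finset E) : Set E) := by
    apply small_indep hE hp hr
    rw [Finset.card_insert_of_notMem heC, hCc]; omega
  have hI' : M.Indep ((C : Finset E) : Set E) :=
    hIc.subset (by exact_mod_cast Finset.subset_insert _ _)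
  rw [Finset.coe_insert] at hIc
  have := (hI'.notMem_closure_iff (by rw [hE]; exact Set.mem_univ _)).2
    ⟨hIc, by exact_mod_cast heC⟩
  exact this he'

end

end Pool.Agent.Lib.MP_16c009_co
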