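import Mathlib
import Pool.Agent.Lib.MP_16c009_co.PavCore

/-!
# Paving matroids: the independence sums dominate the basis sums
-/

open Finset Classical

namespace Pool.Agent.Lib.MP_16c009_co

/-- the sum over all subsets of `U` satisfying a condition -/
noncomputable def sp {E : Type*} (z : E → ℝ) (U : Finset E) (Q : Finset E → Prop) : ℝ :=
  ∑ A ∈ U.powerset, wt z A * (if Q A then 1 else 0)

lemma sp_nonneg {E : Type*} {z : E → ℝ} (hz : ∀ x, 0 ≤ z x) (U : Finset E)
    (Q : Finset E → Prop) : 0 ≤ sp z U Q := by
  apply Finset.sum_nonneg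
  intro A _
  apply mul_nonneg (wt_nonneg hz A)
  split_ifs <;> norm_num

lemma sp_mono {E : Type*} {z : E → ℝ} (hz : ∀ x, 0 ≤ z x) (U : Finset E)
    {P Q : Finset E → Prop} (h : ∀ A ⊆ U, P A → Q A) : sp z U P ≤ sp z U Q := by
  apply Finset.sum_le_sum
  intro A hA
  apply mul_le_mul_of_nonneg_left _ (wt_nonneg hz A)
  by_cases hP : P A
  · simp [hP, h A (Finset.mem_powerset.1 hA) hP]
  · by_cases hQ : Q A <;> simp [hP, hQ]

lemma sp_zero {E : Type*} (z : E → ℝ) (U : Finset E) {Q : Finset E → Prop}
    (h : ∀ A ⊆ U, ¬ Q A) : sp z U Q = 0 := by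
  apply Finset.sum_eq_zero
  intro A hA
  rw [if_neg (h A (Finset.mem_powerset.1 hA)), mul_zero]

/-- levels: sets of less than `m` elements all satisfy `Q`, sets with more than `m` never do -/
lemma sp_lev {E : Type*} (z : E → ℝ) (U : Finset E) {Q : Finset E → Prop} (m : ℕ)
    (h1 : ∀ A ⊆ U, A.card < m → Q A) (h2 : ∀ A ⊆ U, m < A.card → ¬ Q A) :
    sp z U Q = (∑ k ∈ range m, es z k U) + sq z U m Q := by
  unfold sp
  rw [lev U _ m (fun A hA hc => by rw [if_neg (h2 A hA hc), mul_zero]), Finset.sum_range_succ]
  congr 1
  apply Finset.sum_congr rfl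
  intro k hk
  exact sq_true z U k Q (fun A hA hc => h1 A hA (by rw [hc]; exact Finset.mem_range.1 hk))

/-- only sets with `m` elements satisfy `Q` -/
lemma sp_only {E : Type*} (z : E → ℝ) (U : Finset E) {Q : Finset E → Prop} (m : ℕ)
    (h : ∀ A ⊆ U, Q A → A.card = m) : sp z U Q = sq z U m Q := by
  unfold sp
  rw [lev U _ m (fun A hA hc => by
    rw [if_neg (fun hQ => by have := h A hA hQ; omega), mul_zero]), Finset.sum_range_succ]
  rw [Finset.sum_eq_zero, zero_add]; · rfl
  intro k hk
  apply Finset.sum_eq_zero
  intro A hA
  rw [Finset.mem_powersetCard] at hA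
  rw [if_neg, mul_zero]
  intro hQ
  have := h A hA.1 hQ
  have := Finset.mem_range.1 hk
  omega

lemma sq_congr {E : Type*} (z : E → ℝ) (U : Finset E) {P Q : Finset E → Prop} (m : ℕ)
    (h : ∀ A ⊆ U, A.card = m → (P A ↔ Q A)) : sq z U m P = sq z U m Q := by
  unfold sq
  apply Finset.sum_congr rfl
  intro A hA
  rw [Finset.mem_powersetCard] at hA
  rw [if_congr (h A hA.1 hA.2) rfl rfl]

variable {E : Type*} [Fintype E] [DecidableEq E] {M : Matroid E}

omit [Fintype E] [DecidableEq E] in
lemma base_iff {A : Finset E} {r : ℕ} (hr : M.eRank = r) :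
    M.IsBase (A : Set E) ↔ M.Indep (A : Set E) ∧ A.card = r := by
  constructor
  · intro h
    refine ⟨h.indep, ?_⟩
    have := h.encard_eq_eRank
    rw [Set.encard_coe_eq_coe_finsetCard, hr] at this
    exact_mod_cast this
  · rintro ⟨h1, h2⟩
    apply h1.isBase_of_eRk_ge A.finite_toSet
    rw [h1.eRk_eq_encard, Set.encard_coe_eq_coe_finsetCard, hr, h2]

/-- The core inequality. -/
theorem paving_core (hE : M.E = Set.univ)
    (hp : ∀ C : Set E, M.IsCircuit C → M.eRank ≤ C.encard) {r : ℕ} (hr : M.eRank = r)
    (z : E → ℝ) (hz : ∀ a, 0 ≤ z a) {e f : E} (hef : e ≠ f) (U : Finset E) (heU : e ∉ U)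
    (hfU : f ∉ U) :
    sp z U (fun A => M.Indep ((insert e (insert f A) : Finset E) : Set E)) *
        sp z U (fun A => M.Indep (A : Set E)) +
      sp z U (fun A => M.IsBase ((insert e A : Finset E) : Set E)) *
        sp z U (fun A => M.IsBase ((insert f A : Finset E) : Set E)) ≤
    sp z U (fun A => M.Indep ((insert e A : Finset E) : Set E)) *
        sp z U (fun A => M.Indep ((insert f A : Finset E) : Set E)) +
      sp z U (fun A => M.IsBase ((insert e (insert f A) : Finset E) : Set E)) *
        sp z U (fun A => M.IsBase (A : Set E)) := by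
  have ce : ∀ A ⊆ U, (insert e A).card = A.card + 1 := fun A hA =>
    Finset.card_insert_of_notMem fun h => heU (hA h)
  have cf : ∀ A ⊆ U, (insert f A).card = A.card + 1 := fun A hA =>
    Finset.card_insert_of_notMem fun h => hfU (hA h)
  have cef : ∀ A ⊆ U, (insert e (insert f A)).card = A.card + 2 := by
    intro A hA
    rw [Finset.card_insert_of_notMem, cf A hA]
    rw [Finset.mem_insert, not_or]
    exact ⟨hef, fun h => heU (hA h)⟩
  rcases Nat.lt_or_ge r 2 with hr2 | hr2
  · -- rank at most one
    have z1 : sp z U (fun A => M.Indep ((insert e (insert f A) : Finset E) : Set E)) = 0 := by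
      apply sp_zero
      intro A hA h
      have := indep_card_le hr h
      rw [cef A hA] at this
      omega
    have z2 := mul_nonneg (sp_nonneg hz U
      (fun A => M.IsBase ((insert e (insert f A) : Finset E) : Set E)))
      (sp_nonneg hz U (fun A => M.IsBase (A : Set E)))
    have m1 : sp z U (fun A => M.IsBase ((insert e A : Finset E) : Set E)) ≤
        sp z U (fun A => M.Indep ((insert e A : Finset E) : Set E)) :=
      sp_mono hz U fun A _ h => h.indep
    have m2 : sp z U (fun A => M.IsBase ((insert f A : Finset E) : Set E)) ≤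
        sp z U (fun A => M.Indep ((insert f A : Finset E) : Set E)) :=
      sp_mono hz U fun A _ h => h.indep
    rw [z1, zero_mul, zero_add]
    refine (mul_le_mul m1 m2 (sp_nonneg hz U _) (sp_nonneg hz U _)).trans ?_
    linarith
  obtain ⟨n, rfl⟩ : ∃ n, r = n + 2 := ⟨r - 2, by omega⟩
  -- the levels
  have l0 : sp z U (fun A => M.Indep (A : Set E)) = (∑ k ∈ range (n + 2), es z k U) +
      sq z U (n + 2) (fun A => M.Indep (A : Set E)) :=
    sp_lev z U (n + 2) (fun A _ hc => small_indep hE hp hr hc)
      (fun A _ hc h => by have := indep_card_le hr h; omega)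
  have le : sp z U (fun A => M.Indep ((insert e A : Finset E) : Set E)) =
      (∑ k ∈ range (n + 1), es z k U) +
      sq z U (n + 1) (fun A => M.Indep ((insert e A : Finset E) : Set E)) :=
    sp_lev z U (n + 1) (fun A hA hc => small_indep hE hp hr (by rw [ce A hA]; omega))
      (fun A hA hc h => by have := indep_card_le hr h; rw [ce A hA] at this; omega)
  have lf : sp z U (fun A => M.Indep ((insert f A : Finset E) : Set E)) =
      (∑ k ∈ range (n + 1), es z k U) +
      sq z U (n + 1) (fun A => M.Indep ((insert f A : Finset E) : Set E)) :=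
    sp_lev z U (n + 1) (fun A hA hc => small_indep hE hp hr (by rw [cf A hA]; omega))
      (fun A hA hc h => by have := indep_card_le hr h; rw [cf A hA] at this; omega)
  have lef : sp z U (fun A => M.Indep ((insert e (insert f A) : Finset E) : Set E)) =
      (∑ k ∈ range n, es z k U) +
      sq z U n (fun A => M.Indep ((insert e (insert f A) : Finset E) : Set E)) :=
    sp_lev z U n (fun A hA hc => small_indep hE hp hr (by rw [cef A hA]; omega))
      (fun A hA hc h => by have := indep_card_le hr h; rw [cef A hA] at this; omega)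
  -- the bases
  have b0 : sp z U (fun A => M.IsBase (A : Set E)) =
      sq z U (n + 2) (fun A => M.Indep (A : Set E)) := by
    rw [sp_only z U (n + 2) (fun A _ h => ((base_iff hr).1 h).2)]
    exact sq_congr z U _ fun A _ hc => by rw [base_iff hr]; exact ⟨fun h => h.1, fun h => ⟨h, hc⟩⟩
  have be : sp z U (fun A => M.IsBase ((insert e A : Finset E) : Set E)) =
      sq z U (n + 1) (fun A => M.Indep ((insert e A : Finset E) : Set E)) := by
    rw [sp_only z U (n + 1) (fun A hA h => by
      have := ((base_iff hr).1 h).2; rw [ce A hA] at this; omega)]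
    exact sq_congr z U _ fun A hA hc => by
      rw [base_iff hr]; exact ⟨fun h => h.1, fun h => ⟨h, by rw [ce A hA, hc]⟩⟩
  have bf : sp z U (fun A => M.IsBase ((insert f A : Finset E) : Set E)) =
      sq z U (n + 1) (fun A => M.Indep ((insert f A : Finset E) : Set E)) := by
    rw [sp_only z U (n + 1) (fun A hA h => by
      have := ((base_iff hr).1 h).2; rw [cf A hA] at this; omega)]
    exact sq_congr z U _ fun A hA hc => by
      rw [base_iff hr]; exact ⟨fun h => h.1, fun h => ⟨h, by rw [cf A hA, hc]⟩⟩
  have bef : sp z U (fun A => M.IsBase ((insert e (insert f A) : Finset E) : Set E)) =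
      sq z U n (fun A => M.Indep ((insert e (insert f A) : Finset E) : Set E)) := by
    rw [sp_only z U n (fun A hA h => by
      have := ((base_iff hr).1 h).2; rw [cef A hA] at this; omega)]
    exact sq_congr z U _ fun A hA hc => by
      rw [base_iff hr]; exact ⟨fun h => h.1, fun h => ⟨h, by rw [cef A hA, hc]⟩⟩
  rw [l0, le, lf, lef, b0, be, bf, bef]
  set P0 := sq z U (n + 2) (fun A => M.Indep (A : Set E)) with hP0
  set Pe := sq z U (n + 1) (fun A => M.Indep ((insert e A : Finset E) : Set E)) with hPe
  set Pf := sq z U (n + 1) (fun A => M.Indep ((insert f A : Finset E) : Set E)) with hPf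
  set Pef := sq z U n (fun A => M.Indep ((insert e (insert f A) : Finset E) : Set E)) with hPef
  -- the two families
  set Bo : Finset (Finset E) := (U.powersetCard (n + 1)).filter (fun A =>
    M.Indep ((insert e A : Finset E) : Set E) ∧ M.Indep ((insert f A : Finset E) : Set E)) with hBo
  set Na : Finset (Finset E) := (U.powersetCard (n + 1)).filter (fun A =>
    ¬ M.Indep ((insert e A : Finset E) : Set E) ∧ ¬ M.Indep ((insert f A : Finset E) : Set E))
    with hNa
  set Nf : Finset (Finset E) := (U.powersetCard n).filter (fun A =>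
    ¬ M.Indep ((insert e (insert f A) : Finset E) : Set E)) with hNf
  set Ds : Finset (Finset E) := (U.powersetCard (n + 2)).filter (fun A =>
    M.Indep (A : Set E)) with hDs
  have i1 : Pe + Pf = es z (n + 1) U + (∑ A ∈ Bo, wt z A) - ∑ A ∈ Na, wt z A := by
    rw [hBo, hNa, ← sq_filter, ← sq_filter, hPe, hPf]
    unfold sq es
    rw [← Finset.sum_add_distrib, ← Finset.sum_add_distrib, ← Finset.sum_sub_distrib]
    apply Finset.sum_congr rfl
    intro A _
    by_cases h1 : M.Indep ((insert e A : Finset E) : Set E) <;>
      by_cases h2 : M.Indep ((insert f A : Finset E) : Set E) <;>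
      simp only [h1, h2, not_true_eq_false, not_false_eq_true, and_true, and_false, true_and,
        false_and, if_true, if_false] <;> ring
  have i2 : Pef = es z n U - ∑ A ∈ Nf, wt z A := by
    rw [hNf, ← sq_filter, hPef]
    unfold sq es
    rw [← Finset.sum_sub_distrib]
    apply Finset.sum_congr rfl
    intro A _
    by_cases h1 : M.Indep ((insert e (insert f A) : Finset E) : Set E) <;>
      simp only [h1, not_true_eq_false, not_false_eq_true, if_true, if_false] <;> ring
  have i3 : P0 = ∑ A ∈ Ds, wt z A := by rw [hDs, ← sq_filter]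
  -- first comparison
  have m1 : ∀ k ∈ range (n + 1), es z k U * ∑ A ∈ Na, wt z A ≤
      es z (k + 1) U * ∑ A ∈ Nf, wt z A := by
    intro k hk
    rw [Finset.mem_range] at hk
    apply move z hz U k Na Nf
    · intro A hA
      rw [hNa, Finset.mem_filter, Finset.mem_powersetCard] at hA
      exact hA.1.1
    · intro A hA S _
      rw [hNa, Finset.mem_filter, Finset.mem_powersetCard] at hA
      obtain ⟨⟨hAU, hAc⟩, hne, hnf⟩ := hA
      have hgood : good Nf S A = A \ S := by
        unfold good
        rw [Finset.filter_eq_self]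
        intro x hx
        have hxA := (Finset.mem_sdiff.1 hx).1
        rw [hNf, Finset.mem_filter, Finset.mem_powersetCard]
        refine ⟨⟨(Finset.erase_subset _ _).trans hAU, ?_⟩, ?_⟩
        · rw [Finset.card_erase_of_mem hxA, hAc]; rfl
        · intro hI
          have hAI : M.Indep (A : Set E) := small_indep hE hp hr (by omega)
          have he : e ∈ M.closure (A : Set E) := by
            by_contra hn
            apply hne
            rw [Finset.coe_insert]
            exact ((hAI.notMem_closure_iff (by rw [hE]; exact Set.mem_univ _)).1 hn).1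
          have hf : f ∈ M.closure (A : Set E) := by
            by_contra hn
            apply hnf
            rw [Finset.coe_insert]
            exact ((hAI.notMem_closure_iff (by rw [hE]; exact Set.mem_univ _)).1 hn).1
          have hsub : ((insert e (insert f (A.erase x)) : Finset E) : Set E) ⊆
              M.closure (A : Set E) := by
            rw [Finset.coe_insert, Finset.coe_insert]
            refine Set.insert_subset he (Set.insert_subset hf ?_)
            refine Set.Subset.trans ?_ (M.subset_closure (A : Set E)
              (by rw [hE]; exact Set.subset_univ _))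
            exact_mod_cast Finset.erase_subset _ _
          have h1 : ((insert e (insert f (A.erase x)) : Finset E) : Set E).encard ≤
              M.eRk (M.closure (A : Set E)) := hI.encard_le_eRk_of_subset hsub
          rw [M.eRk_closure_eq, hAI.eRk_eq_encard, Set.encard_coe_eq_coe_finsetCard,
            Set.encard_coe_eq_coe_finsetCard, cef _ ((Finset.erase_subset _ _).trans hAU),
            Finset.card_erase_of_mem hxA, hAc] at h1
          have h2 : n + 1 - 1 + 2 ≤ n + 1 := by exact_mod_cast h1
          omega
      rw [hgood]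
      have h1 := Finset.card_sdiff_add_card_inter A S
      rw [Finset.inter_comm] at h1
      omega
  -- second comparison
  have m2 : ∀ k ∈ range n, es z k U * ∑ A ∈ Ds, wt z A ≤
      es z (k + 1) U * ∑ A ∈ Bo, wt z A := by
    intro k hk
    rw [Finset.mem_range] at hk
    apply move z hz U k Ds Bo
    · intro A hA
      rw [hDs, Finset.mem_filter, Finset.mem_powersetCard] at hA
      exact hA.1.1
    · intro D hD S _
      rw [hDs, Finset.mem_filter, Finset.mem_powersetCard] at hD
      obtain ⟨⟨hDU, hDc⟩, hDI⟩ := hD
      have heD : e ∉ D := fun h => heU (hDU h)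
      have hfD : f ∉ D := fun h => hfU (hDU h)
      set be' := D.filter (fun x => ¬ M.Indep ((insert e (D.erase x) : Finset E) : Set E))
        with hbe
      set bf' := D.filter (fun x => ¬ M.Indep ((insert f (D.erase x) : Finset E) : Set E))
        with hbf
      have c1 : be'.card ≤ 1 := by
        rw [Finset.card_le_one]
        intro x hx y hy
        rw [hbe, Finset.mem_filter] at hx hy
        exact one_bad hE hp hr hDI hDc heD hx.1 hy.1 hx.2 hy.2
      have c2 : bf'.card ≤ 1 := by
        rw [Finset.card_le_one]
        intro x hx y hy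
        rw [hbf, Finset.mem_filter] at hx hy
        exact one_bad hE hp hr hDI hDc hfD hx.1 hy.1 hx.2 hy.2
      have hcov : D \ S ⊆ good Bo S D ∪ (be' ∪ bf') := by
        intro x hx
        have hxD := (Finset.mem_sdiff.1 hx).1
        rw [Finset.mem_union, Finset.mem_union]
        by_cases h1 : M.Indep ((insert e (D.erase x) : Finset E) : Set E)
        · by_cases h2 : M.Indep ((insert f (D.erase x) : Finset E) : Set E)
          · left
            unfold good
            rw [Finset.mem_filter, hBo, Finset.mem_filter, Finset.mem_powersetCard]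
            refine ⟨hx, ⟨(Finset.erase_subset _ _).trans hDU, ?_⟩, h1, h2⟩
            rw [Finset.card_erase_of_mem hxD, hDc]; rfl
          · right; right
            rw [hbf, Finset.mem_filter]; exact ⟨hxD, h2⟩
        · right; left
          rw [hbe, Finset.mem_filter]; exact ⟨hxD, h1⟩
      have hcard := Finset.card_le_card hcov
      have u1 := Finset.card_union_le (good Bo S D) (be' ∪ bf')
      have u2 := Finset.card_union_le be' bf'
      have h1 := Finset.card_sdiff_add_card_inter D S
      rw [Finset.inter_comm] at h1
      omega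
  -- summation
  set X := ∑ k ∈ range n, es z k U with hX
  have s1 : (X + es z n U) * ∑ A ∈ Na, wt z A ≤
      (X + es z n U + es z (n + 1) U) * ∑ A ∈ Nf, wt z A := by
    have h1 : (∑ k ∈ range (n + 1), es z k U) * ∑ A ∈ Na, wt z A ≤
        (∑ k ∈ range (n + 1), es z (k + 1) U) * ∑ A ∈ Nf, wt z A := by
      rw [Finset.sum_mul, Finset.sum_mul]
      exact Finset.sum_le_sum m1
    have h2 : ∑ k ∈ range (n + 1), es z (k + 1) U =
        X + es z n U + es z (n + 1) U - es z 0 U := by
      have := Finset.sum_range_succ' (fun k => es z k U) (n + 1)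
      rw [Finset.sum_range_succ, Finset.sum_range_succ] at this
      linarith
    rw [h2, Finset.sum_range_succ] at h1
    refine h1.trans ?_
    apply mul_le_mul_of_nonneg_right _ (Finset.sum_nonneg fun A _ => wt_nonneg hz A)
    have := es_nonneg' hz U 0
    linarith
  have s2 : X * ∑ A ∈ Ds, wt z A ≤ (X + es z n U) * ∑ A ∈ Bo, wt z A := by
    have h1 : (∑ k ∈ range n, es z k U) * ∑ A ∈ Ds, wt z A ≤
        (∑ k ∈ range n, es z (k + 1) U) * ∑ A ∈ Bo, wt z A := by
      rw [Finset.sum_mul, Finset.sum_mul]
      exact Finset.sum_le_sum m2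
    have h2 : ∑ k ∈ range n, es z (k + 1) U = X + es z n U - es z 0 U := by
      have := Finset.sum_range_succ' (fun k => es z k U) n
      rw [Finset.sum_range_succ] at this
      linarith
    rw [h2] at h1
    refine h1.trans ?_
    apply mul_le_mul_of_nonneg_right _ (Finset.sum_nonneg fun A _ => wt_nonneg hz A)
    have := es_nonneg' hz U 0
    linarith
  have r1 : ∑ k ∈ range (n + 2), es z k U = X + es z n U + es z (n + 1) U := by
    rw [Finset.sum_range_succ, Finset.sum_range_succ]
  have r2 : ∑ k ∈ range (n + 1), es z k U = X + es z n U := by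
    rw [Finset.sum_range_succ]
  rw [r1, r2, i3, i2]
  have hPf' : Pf = es z (n + 1) U + (∑ A ∈ Bo, wt z A) - (∑ A ∈ Na, wt z A) - Pe := by linarith
  rw [hPf']
  nlinarith [s1, s2]

end Pool.Agent.Lib.MP_16c009_co
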