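import Mathlib
import Pool.Agent.Lib.MP_16c009_co.PavIneq

/-!
# The half-plane property implies the Rayleigh inequality
-/

open Finset Classical

namespace Pool.Agent.Lib.MP_16c009_co

section generic

variable {E : Type*} {R : Type*} [CommRing R]

/-- the generating sum of the subsets of `U` satisfying `Q`, over any commutative ring -/
noncomputable def gs (y : E → R) (U : Finset E) (Q : Finset E → Prop) : R :=
  ∑ A ∈ U.powerset, if Q A then ∏ a ∈ A, y a else 0

lemma gs_real (z : E → ℝ) (U : Finset E) (Q : Finset E → Prop) : gs z U Q = sp z U Q := by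
  unfold gs sp wt
  apply Finset.sum_congr rfl
  intro A _
  split_ifs <;> simp

lemma gs_congr {y y' : E → R} (U : Finset E) (Q : Finset E → Prop) (h : ∀ a ∈ U, y a = y' a) :
    gs y U Q = gs y' U Q := by
  unfold gs
  apply Finset.sum_congr rfl
  intro A hA
  rw [Finset.prod_congr rfl (fun a ha => h a (Finset.mem_powerset.1 hA ha))]

variable [Fintype E] [DecidableEq E]

/-- splitting a sum over all sets according to two elements -/
lemma split_gen {e f : E} (hef : e ≠ f) (G : Finset E → R) :
    ∑ A : Finset E, G A = ∑ A ∈ ((Finset.univ.erase e).erase f).powerset,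
      (G A + G (insert f A) + G (insert e A) + G (insert e (insert f A))) := by
  have h1 : (Finset.univ : Finset (Finset E)) =
      (insert e (insert f ((Finset.univ.erase e).erase f))).powerset := by
    rw [Finset.insert_erase (Finset.mem_erase.2 ⟨hef.symm, Finset.mem_univ _⟩),
      Finset.insert_erase (Finset.mem_univ _), Finset.powerset_univ]
  have he : e ∉ insert f ((Finset.univ.erase e).erase f) := by
    rw [Finset.insert_erase (Finset.mem_erase.2 ⟨hef.symm, Finset.mem_univ _⟩)]
    exact Finset.notMem_erase _ _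
  have hf : f ∉ (Finset.univ.erase e).erase f := Finset.notMem_erase _ _
  rw [h1, Finset.sum_powerset_insert he, Finset.sum_powerset_insert hf,
    Finset.sum_powerset_insert hf, ← Finset.sum_add_distrib, ← Finset.sum_add_distrib,
    ← Finset.sum_add_distrib]
  apply Finset.sum_congr rfl
  intro A _
  ring

variable {e f : E}

lemma memU {A : Finset E} (hA : A ∈ ((Finset.univ.erase e).erase f).powerset) :
    e ∉ A ∧ f ∉ A := by
  rw [Finset.mem_powerset] at hA
  constructor
  · intro h
    have := hA h
    rw [Finset.mem_erase, Finset.mem_erase] at this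
    exact this.2.1 rfl
  · intro h
    have := hA h
    rw [Finset.mem_erase] at this
    exact this.1 rfl

lemma prod_ef (hef : e ≠ f) (y : E → R) {A : Finset E}
    (hA : A ∈ ((Finset.univ.erase e).erase f).powerset) :
    (∏ a ∈ insert e A, y a = y e * ∏ a ∈ A, y a) ∧ (∏ a ∈ insert f A, y a = y f * ∏ a ∈ A, y a) ∧
      (∏ a ∈ insert e (insert f A), y a = y e * y f * ∏ a ∈ A, y a) := by
  have h := memU hA
  have : e ∉ insert f A := by
    rw [Finset.mem_insert, not_or]
    exact ⟨hef, h.1⟩
  refine ⟨Finset.prod_insert h.1, Finset.prod_insert h.2, ?_⟩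
  rw [Finset.prod_insert this, Finset.prod_insert h.2, mul_assoc]

/-- all sets -/
lemma full0 (hef : e ≠ f) (y : E → R) (Q : Finset E → Prop) :
    ∑ A ∈ (Finset.univ : Finset (Finset E)).filter (fun A => Q A), ∏ a ∈ A, y a =
      gs y ((Finset.univ.erase e).erase f) Q +
      y f * gs y ((Finset.univ.erase e).erase f) (fun A => Q (insert f A)) +
      y e * gs y ((Finset.univ.erase e).erase f) (fun A => Q (insert e A)) +
      y e * y f * gs y ((Finset.univ.erase e).erase f) (fun A => Q (insert e (insert f A))) := by
  unfold gs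
  rw [Finset.sum_filter, split_gen hef, Finset.mul_sum, Finset.mul_sum, Finset.mul_sum,
    ← Finset.sum_add_distrib, ← Finset.sum_add_distrib, ← Finset.sum_add_distrib]
  apply Finset.sum_congr rfl
  intro A hA
  obtain ⟨a1, a2, a3⟩ := prod_ef hef y hA
  rw [a1, a2, a3]
  split_ifs <;> ring

end generic

section real

variable {E : Type*} [Fintype E] [DecidableEq E] {e f : E}

/-- the correlation difference of a family of sets, in terms of the sets avoiding `e` and `f` -/
lemma corr (hef : e ≠ f) (z : E → ℝ) (Q : Finset E → Prop) :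
    (∑ A ∈ (Finset.univ : Finset (Finset E)).filter (fun A => Q A ∧ e ∈ A), ∏ a ∈ A, z a) *
      (∑ A ∈ (Finset.univ : Finset (Finset E)).filter (fun A => Q A ∧ f ∈ A), ∏ a ∈ A, z a) -
      (∑ A ∈ (Finset.univ : Finset (Finset E)).filter (fun A => Q A ∧ e ∈ A ∧ f ∈ A),
        ∏ a ∈ A, z a) *
      (∑ A ∈ (Finset.univ : Finset (Finset E)).filter (fun A => Q A), ∏ a ∈ A, z a) =
    z e * z f *
      (sp z ((Finset.univ.erase e).erase f) (fun A => Q (insert e A)) *
        sp z ((Finset.univ.erase e).erase f) (fun A => Q (insert f A)) -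
       sp z ((Finset.univ.erase e).erase f) (fun A => Q (insert e (insert f A))) *
        sp z ((Finset.univ.erase e).erase f) Q) := by
  set U := (Finset.univ.erase e).erase f with hU
  have h0 := full0 hef z Q
  have he : ∑ A ∈ (Finset.univ : Finset (Finset E)).filter (fun A => Q A ∧ e ∈ A), ∏ a ∈ A, z a =
      z e * gs z U (fun A => Q (insert e A)) +
      z e * z f * gs z U (fun A => Q (insert e (insert f A))) := by
    unfold gs
    rw [Finset.sum_filter, split_gen hef, Finset.mul_sum, Finset.mul_sum,
      ← Finset.sum_add_distrib]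
    apply Finset.sum_congr rfl
    intro A hA
    obtain ⟨a1, a2, a3⟩ := prod_ef hef z hA
    obtain ⟨b1, b2⟩ := memU hA
    rw [a1, a2, a3]
    simp only [b1, Finset.mem_insert, hef, or_false, or_true, true_or, and_true, and_false,
      if_false]
    split_ifs <;> ring
  have hf : ∑ A ∈ (Finset.univ : Finset (Finset E)).filter (fun A => Q A ∧ f ∈ A), ∏ a ∈ A, z a =
      z f * gs z U (fun A => Q (insert f A)) +
      z e * z f * gs z U (fun A => Q (insert e (insert f A))) := by
    unfold gs
    rw [Finset.sum_filter, split_gen hef, Finset.mul_sum, Finset.mul_sum,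
      ← Finset.sum_add_distrib]
    apply Finset.sum_congr rfl
    intro A hA
    obtain ⟨a1, a2, a3⟩ := prod_ef hef z hA
    obtain ⟨b1, b2⟩ := memU hA
    rw [a1, a2, a3]
    simp only [b2, Finset.mem_insert, hef.symm, or_false, or_true, true_or, and_true, and_false,
      if_false]
    split_ifs <;> ring
  have hh : ∑ A ∈ (Finset.univ : Finset (Finset E)).filter (fun A => Q A ∧ e ∈ A ∧ f ∈ A),
      ∏ a ∈ A, z a = z e * z f * gs z U (fun A => Q (insert e (insert f A))) := by
    unfold gs
    rw [Finset.sum_filter, split_gen hef, Finset.mul_sum]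
    apply Finset.sum_congr rfl
    intro A hA
    obtain ⟨a1, a2, a3⟩ := prod_ef hef z hA
    obtain ⟨b1, b2⟩ := memU hA
    rw [a1, a2, a3]
    simp only [b1, b2, Finset.mem_insert, hef, hef.symm, or_false, or_true, true_or, and_true,
      and_false, if_false]
    split_ifs <;> ring
  rw [h0, he, hf, hh]
  simp only [gs_real]
  ring

end real

section hpp

variable {E : Type*} [Fintype E] [DecidableEq E] {M : Matroid E}

omit [DecidableEq E] in
lemma exists_rank (M : Matroid E) : ∃ r : ℕ, M.eRank = r := by
  obtain ⟨B, hB⟩ := M.exists_isBase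
  refine ⟨B.ncard, ?_⟩
  rw [← hB.encard_eq_eRank, Set.Finite.cast_ncard_eq (Set.toFinite B)]

/-- the sum at `c * y` for homogeneous families -/
lemma scale {r : ℕ} (hr : M.eRank = r) (c : ℂ) (y : E → ℂ) :
    ∑ S ∈ (Finset.univ : Finset (Finset E)).filter (fun S : Finset E => M.IsBase (S : Set E)),
      ∏ a ∈ S, (c * y a) = c ^ r *
    ∑ S ∈ (Finset.univ : Finset (Finset E)).filter (fun S : Finset E => M.IsBase (S : Set E)),
      ∏ a ∈ S, y a := by
  rw [Finset.mul_sum]
  apply Finset.sum_congr rfl
  intro S hS
  rw [Finset.mem_filter] at hS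
  rw [Finset.prod_mul_distrib, Finset.prod_const, ((base_iff hr).1 hS.2).2]

omit [Fintype E] [DecidableEq E] in
lemma gs_cast (z : E → ℝ) (U : Finset E) (Q : Finset E → Prop) :
    gs (fun a => (z a : ℂ)) U Q = ((sp z U Q : ℝ) : ℂ) := by
  rw [← gs_real]
  unfold gs
  push_cast
  apply Finset.sum_congr rfl
  intro A _
  split_ifs <;> simp

omit [Fintype E] [DecidableEq E] in
lemma gs_cont (z : E → ℝ) (U : Finset E) (Q : Finset E → Prop) :
    Continuous fun t : ℝ => gs (fun a => (z a : ℂ) + (t : ℂ) * Complex.I) U Q := by
  unfold gs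
  apply continuous_finsetSum
  intro A _
  split_ifs
  · apply continuous_finsetProd
    intro a _
    fun_prop
  · exact continuous_const

/-- Matroids with the half-plane property satisfy the Rayleigh inequality. -/
theorem hpp_rayleigh
    (hpp : ∀ x : E → ℂ, (∀ a, 0 < (x a).re) →
      (∑ S ∈ (Finset.univ : Finset (Finset E)).filter (fun S : Finset E => M.IsBase (S : Set E)),
        ∏ a ∈ S, x a) ≠ 0)
    (z : E → ℝ) (hz : ∀ a, 0 < z a) {e f : E} (hef : e ≠ f) :
    sp z ((Finset.univ.erase e).erase f)
        (fun A => M.IsBase ((insert e (insert f A) : Finset E) : Set E)) *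
      sp z ((Finset.univ.erase e).erase f) (fun A => M.IsBase (A : Set E)) ≤
    sp z ((Finset.univ.erase e).erase f)
        (fun A => M.IsBase ((insert e A : Finset E) : Set E)) *
      sp z ((Finset.univ.erase e).erase f)
        (fun A => M.IsBase ((insert f A : Finset E) : Set E)) := by
  by_contra hcon
  rw [not_le] at hcon
  obtain ⟨r, hr⟩ := exists_rank M
  set U := (Finset.univ.erase e).erase f with hU
  have heU : e ∉ U := fun h => by
    rw [hU, Finset.mem_erase, Finset.mem_erase] at h
    exact h.2.1 rfl
  have hfU : f ∉ U := fun h => by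
    rw [hU, Finset.mem_erase] at h
    exact h.1 rfl
  set P0 := sp z U (fun A => M.IsBase (A : Set E)) with hP0
  set Pe := sp z U (fun A => M.IsBase ((insert e A : Finset E) : Set E)) with hPe
  set Pf := sp z U (fun A => M.IsBase ((insert f A : Finset E) : Set E)) with hPf
  set Pef := sp z U (fun A => M.IsBase ((insert e (insert f A) : Finset E) : Set E)) with hPef
  have hz0 : ∀ a, 0 ≤ z a := fun a => (hz a).le
  have n0 : 0 ≤ P0 := sp_nonneg hz0 U _
  have ne : 0 ≤ Pe := sp_nonneg hz0 U _
  have nf : 0 ≤ Pf := sp_nonneg hz0 U _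
  have nef : 0 ≤ Pef := sp_nonneg hz0 U _
  have hpef : 0 < Pef := by
    rcases nef.lt_or_eq with h | h
    · exact h
    · rw [← h, zero_mul] at hcon
      exact absurd hcon (not_lt.2 (mul_nonneg ne nf))
  -- the moving point
  set yt : ℝ → E → ℂ := fun t a => (z a : ℂ) + (t : ℂ) * Complex.I with hyt
  set q0 : ℝ → ℂ := fun t => gs (yt t) U (fun A => M.IsBase (A : Set E)) with hq0
  set qe : ℝ → ℂ := fun t => gs (yt t) U (fun A => M.IsBase ((insert e A : Finset E) : Set E))
    with hqe
  set qf : ℝ → ℂ := fun t => gs (yt t) U (fun A => M.IsBase ((insert f A : Finset E) : Set E))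
    with hqf
  set qef : ℝ → ℂ := fun t => gs (yt t) U
    (fun A => M.IsBase ((insert e (insert f A) : Finset E) : Set E)) with hqef
  have c0 : Continuous q0 := gs_cont z U _
  have ce : Continuous qe := gs_cont z U _
  have cf : Continuous qf := gs_cont z U _
  have cef : Continuous qef := gs_cont z U _
  have y0 : yt 0 = fun a => (z a : ℂ) := by
    funext a; simp [hyt]
  have v0 : q0 0 = (P0 : ℂ) := by simp only [hq0, y0, gs_cast, hP0]
  have ve : qe 0 = (Pe : ℂ) := by simp only [hqe, y0, gs_cast, hPe]
  have vf : qf 0 = (Pf : ℂ) := by simp only [hqf, y0, gs_cast, hPf]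
  have vef : qef 0 = (Pef : ℂ) := by simp only [hqef, y0, gs_cast, hPef]
  set den : ℝ → ℂ := fun t => qe t + Complex.I * qef t with hden
  set num : ℝ → ℂ := fun t => q0 t + Complex.I * qf t with hnum
  have cden : Continuous den := ce.add (continuous_const.mul cef)
  have cnum : Continuous num := c0.add (continuous_const.mul cf)
  have hden0 : den 0 ≠ 0 := by
    intro h
    have := congrArg Complex.im h
    simp only [hden, ve, vef, Complex.add_im, Complex.mul_im, Complex.ofReal_im, Complex.I_re,
      Complex.I_im, Complex.ofReal_re, Complex.zero_im] at this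
    linarith
  set w : ℝ → ℂ := fun t => - (num t / den t) with hw
  have cw : ContinuousAt w 0 := (cnum.continuousAt.div cden.continuousAt hden0).neg
  have him0 : 0 < (w 0).im := by
    have hns : 0 < Complex.normSq (den 0) := Complex.normSq_pos.2 hden0
    have : (w 0).im = (Pef * P0 - Pe * Pf) / Complex.normSq (den 0) := by
      simp only [hw, Complex.neg_im, Complex.div_im]
      have h1 : (num 0).re = P0 := by
        simp [hnum, v0, vf]
      have h2 : (num 0).im = Pf := by
        simp [hnum, v0, vf]
      have h3 : (den 0).re = Pe := by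
        simp [hden, ve, vef]
      have h4 : (den 0).im = Pef := by
        simp [hden, ve, vef]
      rw [h1, h2, h3, h4]
      ring
    rw [this]
    exact div_pos (by linarith) hns
  have ev1 : ∀ᶠ t in nhds (0 : ℝ), 0 < (w t).im := by
    have : ContinuousAt (fun t => (w t).im) 0 := Complex.continuous_im.continuousAt.comp cw
    exact this.eventually (lt_mem_nhds him0)
  have ev2 : ∀ᶠ t in nhds (0 : ℝ), den t ≠ 0 := cden.continuousAt.eventually_ne hden0
  obtain ⟨t, ⟨ht1, ht2⟩, ht0⟩ :=
    ((ev1.and ev2).filter_mono nhdsWithin_le_nhds |>.and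
      (self_mem_nhdsWithin : Set.Ioi (0 : ℝ) ∈ nhdsWithin 0 (Set.Ioi 0))).exists
  set Y : E → ℂ := fun a => if a = e then w t else if a = f then Complex.I else yt t a with hY
  have hYe : Y e = w t := by simp [hY]
  have hYf : Y f = Complex.I := by simp [hY, hef.symm]
  have hYU : ∀ a ∈ U, Y a = yt t a := by
    intro a ha
    have h1 : a ≠ e := fun h => heU (h ▸ ha)
    have h2 : a ≠ f := fun h => hfU (h ▸ ha)
    simp [hY, h1, h2]
  have hzero : ∑ S ∈ (Finset.univ : Finset (Finset E)).filter
      (fun S : Finset E => M.IsBase (S : Set E)), ∏ a ∈ S, Y a = 0 := by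
    rw [full0 hef Y (fun S : Finset E => M.IsBase (S : Set E)), ← hU, gs_congr U _ hYU, gs_congr U _ hYU,
      gs_congr U _ hYU, gs_congr U _ hYU, hYe, hYf]
    change q0 t + Complex.I * qf t + w t * qe t + w t * Complex.I * qef t = 0
    have : w t * den t = - num t := by
      rw [hw]
      field_simp
    have e1 : q0 t + Complex.I * qf t + w t * qe t + w t * Complex.I * qef t =
        num t + w t * den t := by
      rw [hnum, hden]; ring
    rw [e1, this]; ring
  apply hpp (fun a => -Complex.I * Y a)
  · intro a
    have : (-Complex.I * Y a).re = (Y a).im := by simp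
    rw [this]
    by_cases h1 : a = e
    · rw [h1, hYe]; exact ht1
    · by_cases h2 : a = f
      · rw [h2, hYf]; simp
      · have : Y a = yt t a := by simp [hY, h1, h2]
        rw [this]
        simp only [hyt, Complex.add_im, Complex.ofReal_im, Complex.mul_im, Complex.ofReal_re,
          Complex.I_im, Complex.I_re]
        simpa using ht0
  · rw [scale hr, hzero, mul_zero]

end hpp

end Pool.Agent.Lib.MP_16c009_co
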