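import Mathlib
import Pool.Agent.Lib.MP_16c009_co.PavHPP

/-!
# Paving matroids: final inequalities
-/

open Finset Classical

namespace Pool.Agent.Lib.MP_16c009_co

variable {E : Type*} [Fintype E] [DecidableEq E] {e f : E}

/-- the correlation difference of a family of sets -/
noncomputable def cd (z : E → ℝ) (e f : E) (Q : Finset E → Prop) : ℝ :=
  (∑ A ∈ (Finset.univ : Finset (Finset E)).filter (fun A : Finset E => Q A ∧ e ∈ A),
      ∏ a ∈ A, z a) *
    (∑ A ∈ (Finset.univ : Finset (Finset E)).filter (fun A : Finset E => Q A ∧ f ∈ A),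
      ∏ a ∈ A, z a) -
  (∑ A ∈ (Finset.univ : Finset (Finset E)).filter (fun A : Finset E => Q A ∧ e ∈ A ∧ f ∈ A),
      ∏ a ∈ A, z a) *
    (∑ A ∈ (Finset.univ : Finset (Finset E)).filter (fun A : Finset E => Q A), ∏ a ∈ A, z a)

lemma cd_congr (z : E → ℝ) {P Q : Finset E → Prop} (h : ∀ A, P A ↔ Q A) :
    cd z e f P = cd z e f Q := by
  have : P = Q := funext fun A => propext (h A)
  rw [this]

/-- complementation -/
lemma cd_compl (z : E → ℝ) (hz : ∀ a, 0 < z a) (Q : Finset E → Prop) :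
    cd z e f Q = (∏ a, z a) ^ 2 * cd (fun a => (z a)⁻¹) e f (fun A => Q Aᶜ) := by
  have key : ∀ (P : Finset E → Prop) [DecidablePred P],
      ∑ A ∈ (Finset.univ : Finset (Finset E)).filter
        (fun A : Finset E => Q A ∧ P A), ∏ a ∈ A, z a =
      (∏ a, z a) * ∑ S ∈ (Finset.univ : Finset (Finset E)).filter
        (fun S : Finset E => Q Sᶜ ∧ P Sᶜ), ∏ a ∈ S, (z a)⁻¹ := by
    intro P _
    rw [Finset.mul_sum]
    apply Finset.sum_nbij' (fun A => Aᶜ) (fun A => Aᶜ)
    · intro A hA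
      rw [Finset.mem_filter] at hA ⊢
      rw [compl_compl]
      exact ⟨Finset.mem_univ _, hA.2⟩
    · intro A hA
      rw [Finset.mem_filter] at hA ⊢
      exact ⟨Finset.mem_univ _, hA.2⟩
    · intro A _; exact compl_compl A
    · intro A _; exact compl_compl A
    · intro A _
      rw [← Finset.prod_mul_prod_compl A z, Finset.prod_inv_distrib, mul_assoc,
        mul_inv_cancel₀, mul_one]
      exact Finset.prod_ne_zero_iff.2 fun a _ => (hz a).ne'
  have k0 : ∑ A ∈ (Finset.univ : Finset (Finset E)).filter (fun A : Finset E => Q A),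
      ∏ a ∈ A, z a = (∏ a, z a) * ∑ S ∈ (Finset.univ : Finset (Finset E)).filter
        (fun S : Finset E => Q Sᶜ), ∏ a ∈ S, (z a)⁻¹ := by
    have := key (fun _ => True)
    simpa only [and_true] using this
  have ke := key (fun A => e ∈ A)
  have kf := key (fun A => f ∈ A)
  have kef := key (fun A => e ∈ A ∧ f ∈ A)
  have de : ∑ S ∈ (Finset.univ : Finset (Finset E)).filter
        (fun S : Finset E => Q Sᶜ ∧ e ∈ Sᶜ), ∏ a ∈ S, (z a)⁻¹ =
      ∑ S ∈ (Finset.univ : Finset (Finset E)).filter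
        (fun S : Finset E => Q Sᶜ), ∏ a ∈ S, (z a)⁻¹ -
      ∑ S ∈ (Finset.univ : Finset (Finset E)).filter
        (fun S : Finset E => Q Sᶜ ∧ e ∈ S), ∏ a ∈ S, (z a)⁻¹ := by
    simp only [Finset.sum_filter]
    rw [← Finset.sum_sub_distrib]
    apply Finset.sum_congr rfl
    intro S _
    by_cases h1 : Q Sᶜ <;> by_cases h2 : e ∈ S <;> simp [h1, h2]
  have df : ∑ S ∈ (Finset.univ : Finset (Finset E)).filter
        (fun S : Finset E => Q Sᶜ ∧ f ∈ Sᶜ), ∏ a ∈ S, (z a)⁻¹ =
      ∑ S ∈ (Finset.univ : Finset (Finset E)).filter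
        (fun S : Finset E => Q Sᶜ), ∏ a ∈ S, (z a)⁻¹ -
      ∑ S ∈ (Finset.univ : Finset (Finset E)).filter
        (fun S : Finset E => Q Sᶜ ∧ f ∈ S), ∏ a ∈ S, (z a)⁻¹ := by
    simp only [Finset.sum_filter]
    rw [← Finset.sum_sub_distrib]
    apply Finset.sum_congr rfl
    intro S _
    by_cases h1 : Q Sᶜ <;> by_cases h2 : f ∈ S <;> simp [h1, h2]
  have def' : ∑ S ∈ (Finset.univ : Finset (Finset E)).filter
        (fun S : Finset E => Q Sᶜ ∧ e ∈ Sᶜ ∧ f ∈ Sᶜ), ∏ a ∈ S, (z a)⁻¹ =
      ∑ S ∈ (Finset.univ : Finset (Finset E)).filter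
        (fun S : Finset E => Q Sᶜ), ∏ a ∈ S, (z a)⁻¹ -
      ∑ S ∈ (Finset.univ : Finset (Finset E)).filter
        (fun S : Finset E => Q Sᶜ ∧ e ∈ S), ∏ a ∈ S, (z a)⁻¹ -
      ∑ S ∈ (Finset.univ : Finset (Finset E)).filter
        (fun S : Finset E => Q Sᶜ ∧ f ∈ S), ∏ a ∈ S, (z a)⁻¹ +
      ∑ S ∈ (Finset.univ : Finset (Finset E)).filter
        (fun S : Finset E => Q Sᶜ ∧ e ∈ S ∧ f ∈ S), ∏ a ∈ S, (z a)⁻¹ := by
    simp only [Finset.sum_filter]
    rw [← Finset.sum_sub_distrib, ← Finset.sum_sub_distrib, ← Finset.sum_add_distrib]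
    apply Finset.sum_congr rfl
    intro S _
    by_cases h1 : Q Sᶜ <;> by_cases h2 : e ∈ S <;>
      by_cases h3 : f ∈ S <;> simp [h1, h2, h3]
  unfold cd
  rw [k0, ke, kf, kef, de, df, def']
  ring

lemma U_mem : e ∉ (Finset.univ.erase e).erase f ∧ f ∉ (Finset.univ.erase e).erase f :=
  ⟨fun h => by rw [Finset.mem_erase, Finset.mem_erase] at h; exact h.2.1 rfl,
    fun h => by rw [Finset.mem_erase] at h; exact h.1 rfl⟩

variable {M : Matroid E}

/-- In a paving matroid the correlation difference of the independent sets is at least that of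
the bases. -/
theorem indep_ge_base (hE : M.E = Set.univ)
    (hp : ∀ C : Set E, M.IsCircuit C → M.eRank ≤ C.encard)
    (z : E → ℝ) (hz : ∀ a, 0 < z a) (hef : e ≠ f) :
    cd z e f (fun A : Finset E => M.IsBase (A : Set E)) ≤
      cd z e f (fun A : Finset E => M.Indep (A : Set E)) := by
  obtain ⟨r, hr⟩ := exists_rank M
  have h := paving_core hE hp hr z (fun a => (hz a).le) hef ((Finset.univ.erase e).erase f)
    U_mem.1 U_mem.2
  have c1 := corr hef z (fun A : Finset E => M.IsBase (A : Set E))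
  have c2 := corr hef z (fun A : Finset E => M.Indep (A : Set E))
  unfold cd
  rw [c1, c2]
  apply mul_le_mul_of_nonneg_left _ (mul_nonneg (hz e).le (hz f).le)
  linarith

lemma spanning_iff (hE : M.E = Set.univ) (A : Finset E) :
    M.Spanning (A : Set E) ↔ M✶.Indep ((Aᶜ : Finset E) : Set E) := by
  rw [Matroid.spanning_iff_compl_coindep (by rw [hE]; exact Set.subset_univ _), hE,
    Matroid.coindep_def, Finset.coe_compl, Set.compl_eq_univ_sdiff]

lemma base_compl_iff (hE : M.E = Set.univ) (A : Finset E) :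
    M.IsBase (A : Set E) ↔ M✶.IsBase ((Aᶜ : Finset E) : Set E) := by
  rw [Matroid.dual_isBase_iff (by rw [hE]; exact Set.subset_univ _), hE, Finset.coe_compl,
    ← Set.compl_eq_univ_sdiff, compl_compl]

/-- If the dual matroid is paving, the correlation difference of the spanning sets is at least
that of the bases. -/
theorem spanning_ge_base (hE : M.E = Set.univ)
    (hp : ∀ C : Set E, M✶.IsCircuit C → M✶.eRank ≤ C.encard)
    (z : E → ℝ) (hz : ∀ a, 0 < z a) (hef : e ≠ f) :
    cd z e f (fun A : Finset E => M.IsBase (A : Set E)) ≤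
      cd z e f (fun A : Finset E => M.Spanning (A : Set E)) := by
  rw [cd_congr z (spanning_iff hE), cd_congr z (base_compl_iff hE), cd_compl z hz,
    cd_compl z hz (fun A : Finset E => M✶.Indep ((Aᶜ : Finset E) : Set E))]
  simp only [compl_compl]
  apply mul_le_mul_of_nonneg_left _ (sq_nonneg _)
  exact indep_ge_base (by rw [Matroid.dual_ground, hE]) hp (fun a => (z a)⁻¹)
    (fun a => inv_pos.2 (hz a)) hef

/-- The Rayleigh inequality for matroids with the half-plane property. -/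
theorem base_nonneg
    (hpp : ∀ x : E → ℂ, (∀ a, 0 < (x a).re) →
      (∑ S ∈ (Finset.univ : Finset (Finset E)).filter (fun S : Finset E => M.IsBase (S : Set E)),
        ∏ a ∈ S, x a) ≠ 0)
    (z : E → ℝ) (hz : ∀ a, 0 < z a) (hef : e ≠ f) :
    0 ≤ cd z e f (fun A : Finset E => M.IsBase (A : Set E)) := by
  have h := hpp_rayleigh hpp z hz hef
  have c1 := corr hef z (fun A : Finset E => M.IsBase (A : Set E))
  unfold cd
  rw [c1]
  apply mul_nonneg (mul_nonneg (hz e).le (hz f).le)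
  linarith

end Pool.Agent.Lib.MP_16c009_co
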